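import Pool.Agent.Helper3.DW.St

set_option autoImplicit false

/-! Basic facts on `av`, `Pl`, `hh`. -/

namespace Pool.Agent.Helper3.DW

open Finset

theorem av_zero_eq (x : ℚ) : av 0 x = |(x : ℝ)| := by simp [av]

theorem av_prime_eq (p : ℕ) (hp : p.Prime) (x : ℚ) : av p x = ((padicNorm p x : ℚ) : ℝ) := by
  rw [av, if_neg hp.ne_zero]

theorem av_padic (p : ℕ) [hp : Fact p.Prime] (x : ℚ) : av p x = ‖(x : ℚ_[p])‖ := by
  rw [av_prime_eq p hp.out, Padic.eq_padicNorm]

theorem av_real (x : ℚ) : av 0 x = ‖(x : ℝ)‖ := by rw [av_zero_eq, Real.norm_eq_abs]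

theorem av_mul (v : ℕ) (hv : isPl v) (x y : ℚ) : av v (x * y) = av v x * av v y := by
  rcases hv with rfl | hv
  · rw [av_zero_eq, av_zero_eq, av_zero_eq]; push_cast; exact abs_mul _ _
  · have := Fact.mk hv
    rw [av_padic, av_padic, av_padic]; push_cast; exact norm_mul _ _

theorem av_nonneg (v : ℕ) (hv : isPl v) (x : ℚ) : 0 ≤ av v x := by
  rcases hv with rfl | hv
  · rw [av_zero_eq]; exact abs_nonneg _
  · have := Fact.mk hv
    rw [av_padic]; exact norm_nonneg _

theorem av_pos (v : ℕ) (hv : isPl v) (x : ℚ) (hx : x ≠ 0) : 0 < av v x := by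
  rcases hv with rfl | hv
  · rw [av_zero_eq]; exact abs_pos.2 (by exact_mod_cast hx)
  · have := Fact.mk hv
    rw [av_padic]; exact norm_pos_iff.2 (by exact_mod_cast hx)

theorem av_zero (v : ℕ) (hv : isPl v) : av v 0 = 0 := by
  rcases hv with rfl | hv
  · rw [av_zero_eq]; simp
  · have := Fact.mk hv
    rw [av_padic]; simp

theorem av_one (v : ℕ) (hv : isPl v) : av v 1 = 1 := by
  rcases hv with rfl | hv
  · rw [av_zero_eq]; simp
  · have := Fact.mk hv
    rw [av_padic]; simp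

theorem av_neg (v : ℕ) (hv : isPl v) (x : ℚ) : av v (-x) = av v x := by
  rcases hv with rfl | hv
  · rw [av_zero_eq, av_zero_eq]; simp
  · have := Fact.mk hv
    rw [av_padic, av_padic]; push_cast; exact norm_neg _

theorem av_div (v : ℕ) (hv : isPl v) (x y : ℚ) : av v (x / y) = av v x / av v y := by
  rcases hv with rfl | hv
  · rw [av_zero_eq, av_zero_eq, av_zero_eq]; push_cast; exact abs_div _ _
  · have := Fact.mk hv
    rw [av_padic, av_padic, av_padic]; push_cast; exact norm_div _ _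

theorem av_pow (v : ℕ) (hv : isPl v) (x : ℚ) (k : ℕ) : av v (x ^ k) = av v x ^ k := by
  rcases hv with rfl | hv
  · rw [av_zero_eq, av_zero_eq]; push_cast; exact abs_pow _ _
  · have := Fact.mk hv
    rw [av_padic, av_padic]; push_cast; exact norm_pow _ _

theorem av_add (v : ℕ) (hv : isPl v) (x y : ℚ) : av v (x + y) ≤ av v x + av v y := by
  rcases hv with rfl | hv
  · rw [av_zero_eq, av_zero_eq, av_zero_eq]; push_cast; exact abs_add_le _ _
  · have := Fact.mk hv
    rw [av_padic, av_padic, av_padic]; push_cast; exact norm_add_le _ _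

theorem av_add_max (p : ℕ) (hp : p.Prime) (x y : ℚ) : av p (x + y) ≤ max (av p x) (av p y) := by
  have := Fact.mk hp
  rw [av_padic, av_padic, av_padic]; push_cast; exact Padic.nonarchimedean _ _

theorem av_int_le (p : ℕ) (hp : p.Prime) (x : ℤ) : av p (x : ℚ) ≤ 1 := by
  have := Fact.mk hp
  rw [av_padic]; push_cast; exact Padic.norm_int_le_one _

theorem isPl_of_mem {n : ℤ} {v : ℕ} (h : v ∈ Pl n) : isPl v := by
  rcases Finset.mem_insert.1 h with h | h
  · exact Or.inl h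
  · exact Or.inr (Nat.prime_of_mem_primeFactors h)

theorem log_av_mul (v : ℕ) (hv : isPl v) (x y : ℚ) (hx : x ≠ 0) (hy : y ≠ 0) :
    Real.log (av v (x * y)) = Real.log (av v x) + Real.log (av v y) := by
  rw [av_mul v hv, Real.log_mul (av_pos v hv x hx).ne' (av_pos v hv y hy).ne']

theorem log_av_pow (v : ℕ) (hv : isPl v) (x : ℚ) (k : ℕ) :
    Real.log (av v (x ^ k)) = k * Real.log (av v x) := by
  rw [av_pow v hv, Real.log_pow]

theorem log_av_div (v : ℕ) (hv : isPl v) (x y : ℚ) (hx : x ≠ 0) (hy : y ≠ 0) :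
    Real.log (av v (x / y)) = Real.log (av v x) - Real.log (av v y) := by
  rw [av_div v hv, Real.log_div (av_pos v hv x hx).ne' (av_pos v hv y hy).ne']

/-- `|a|_v = exp (hh + (1/2) log |n|_v)` in logarithmic form -/
theorem log_av_eq (n : ℤ) (v : ℕ) (a : ℤ) :
    Real.log (av v (a : ℚ)) = hh n v a + Real.log (av v (n : ℚ)) / 2 := by
  rw [hh]; ring

/-- `log |n/(a x)|_v = -(hh a + hh x)` -/
theorem log_av_ratio (n : ℤ) (v : ℕ) (hv : isPl v) (a x : ℤ) (hn : n ≠ 0) (ha : a ≠ 0) (hx : x ≠ 0) :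
    Real.log (av v ((n : ℚ) / ((a : ℚ) * (x : ℚ)))) = -(hh n v a + hh n v x) := by
  have h1 : (n : ℚ) ≠ 0 := by exact_mod_cast hn
  have h2 : (a : ℚ) ≠ 0 := by exact_mod_cast ha
  have h3 : (x : ℚ) ≠ 0 := by exact_mod_cast hx
  rw [log_av_div v hv _ _ h1 (mul_ne_zero h2 h3), log_av_mul v hv _ _ h2 h3, hh, hh]
  ring

theorem HH_nonneg (n : ℤ) (a : ℤ) : 0 ≤ HH n a := Finset.sum_nonneg fun _ _ => le_max_right _ _

theorem hh_le_HH (n : ℤ) (v : ℕ) (hv : v ∈ Pl n) (a : ℤ) : hh n v a ≤ HH n a :=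
  le_trans (le_max_left _ 0)
    (Finset.single_le_sum (f := fun v => max (hh n v a) 0) (fun _ _ => le_max_right _ _) hv)

theorem zero_mem_Pl (n : ℤ) : 0 ∈ Pl n := Finset.mem_insert_self _ _

end Pool.Agent.Helper3.DW
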