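import Mathlib

set_option autoImplicit false

namespace Pool.Agent.Helper3.DW

open Finset

/-- Absolute value of `ℚ` at the place `v`; `v = 0` is the archimedean place, a prime `v` is the
`v`-adic place. -/
noncomputable def av (v : ℕ) (x : ℚ) : ℝ := if v = 0 then |(x : ℝ)| else ((padicNorm v x : ℚ) : ℝ)

/-- The places of `n`: the archimedean one and the primes dividing `n`. -/
def Pl (n : ℤ) : Finset ℕ := insert 0 n.natAbs.primeFactors

/-- Local logarithmic height of `a / √n` at the place `v`. -/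
noncomputable def hh (n : ℤ) (v : ℕ) (a : ℤ) : ℝ :=
  Real.log (av v (a : ℚ)) - Real.log (av v (n : ℚ)) / 2

/-- Logarithmic height of `a / √n` with respect to the places of `n`. -/
noncomputable def HH (n : ℤ) (a : ℤ) : ℝ := ∑ v ∈ Pl n, max (hh n v a) 0

/-- The binomial coefficient `(k + 1/2 choose l)`. -/
noncomputable def bc (k l : ℕ) : ℚ :=
  (∏ i ∈ range l, ((k : ℚ) + 1 / 2 - i)) / (l.factorial : ℚ)

section Field

open PowerSeries

variable {K : Type*} [Field K]

/-- The inverse of `X + δ`. -/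
noncomputable def U (δ : K) : PowerSeries K := PowerSeries.mk (fun m => (-1) ^ m * (δ⁻¹) ^ (m + 1))

/-- The expansion of `(1 + z x) ^ (k + 1/2) / (1 + α x) ^ (1/2)` at `z = α`. -/
noncomputable def G (k : ℕ) (x α : K) : PowerSeries K :=
  PowerSeries.mk (fun l => (1 + α * x) ^ k * (((bc k l : ℚ) : K) * (x / (1 + α * x)) ^ l))

noncomputable def UU (a : Fin 3 → K) (j : Fin 3) : PowerSeries K := ∏ h ∈ univ.erase j, U (a j - a h)

/-- The Padé coefficients. -/
noncomputable def psi (a : Fin 3 → K) (k : ℕ) (x : K) (j : Fin 3) (r : ℕ) : K :=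
  coeff k (G k x (a j) * (X + C (a j)) ^ r * UU a j ^ (k + 1))

/-- The sum of residues of `z ^ m / ∏ (z - a j) ^ (k+1)`. -/
noncomputable def rho (a : Fin 3 → K) (k m : ℕ) : K :=
  ∑ j, coeff k ((X + C (a j)) ^ m * UU a j ^ (k + 1))

/-- The binomial series of `√(1 + y)`. -/
noncomputable def th {K : Type*} [NormedField K] (y : K) : K := ∑' l : ℕ, ((bc 0 l : ℚ) : K) * y ^ l

end Field

/-- The `3 × 3` determinant. -/
def det3 {K : Type*} [CommRing K] (z : Fin 3 → Fin 3 → K) : K :=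
  z 0 0 * (z 1 1 * z 2 2 - z 1 2 * z 2 1) - z 0 1 * (z 1 0 * z 2 2 - z 1 2 * z 2 0)
    + z 0 2 * (z 1 0 * z 2 1 - z 1 1 * z 2 0)

/-- product of the two entries other than `j` -/
def oth (a : Fin 3 → ℤ) (j : Fin 3) : ℤ := ∏ h ∈ univ.erase j, a h

/-- nodes -/
def nod (n : ℤ) (a : Fin 3 → ℤ) (j : Fin 3) : ℚ := (n : ℚ) * (oth a j : ℚ)

/-- common denominator: the evaluation point is `1 / NN` -/
def NN (a : Fin 3 → ℤ) (c : ℤ) : ℤ := (∏ j, a j) * c

/-- The linear form in the Padé coefficients. -/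
noncomputable def LL (n : ℤ) (a : Fin 3 → ℤ) (c : ℤ) (zc zd : Fin 3 → ℤ) (k r : ℕ) : ℚ :=
  ∑ j, ((oth a j * zc j * zd j : ℤ) : ℚ) * psi (nod n a) k (1 / (NN a c : ℚ)) j r

/-- size of the nodes at `v` -/
noncomputable def AV (v : ℕ) (n : ℤ) (a : Fin 3 → ℤ) : ℝ :=
  max (av v (nod n a 0)) (max (av v (nod n a 1)) (av v (nod n a 2)))

/-- smallest difference of the nodes at `v` -/
noncomputable def DV (v : ℕ) (n : ℤ) (a : Fin 3 → ℤ) : ℝ :=
  min (av v (nod n a 0 - nod n a 1)) (min (av v (nod n a 0 - nod n a 2)) (av v (nod n a 1 - nod n a 2)))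

end Pool.Agent.Helper3.DW
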