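import Pool.Agent.Helper3.DW.Defs

set_option autoImplicit false

/-! # Project DW (MP_ea94d5_nt): statements of the modules

`M_n ≤ K(ω(n))` for all `n`.  Each module `X` proves the proposition `ST_X`. -/

namespace Pool.Agent.Helper3.DW

open Finset

/-- `v` is a place -/
def isPl (v : ℕ) : Prop := v = 0 ∨ v.Prime

/-! ## A. Algebra of the Padé forms -/

/-- relation of `bc` with `Ring.choose`, and bounds at all places -/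
def ST_BC : Prop :=
  (∀ k l : ℕ, ((bc k l : ℚ) : ℝ) = Ring.choose ((k : ℝ) + 1 / 2) l) ∧
  (∀ v, isPl v → ∀ k l : ℕ, av v (bc k l) ≤ 2 ^ k * 4 ^ l)

/-- `psi`, `rho` commute with the embedding of `ℚ` in a field -/
def ST_MAP : Prop :=
  ∀ (K : Type) [Field K] [CharZero K] (a : Fin 3 → ℚ) (k : ℕ),
    (∀ (x : ℚ) (j : Fin 3) (r : ℕ),
      psi (fun i => ((a i : ℚ) : K)) k (x : K) j r = ((psi a k x j r : ℚ) : K)) ∧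
    (∀ m : ℕ, rho (fun i => ((a i : ℚ) : K)) k m = ((rho a k m : ℚ) : K))

/-- integrality (from Helper15.Pade.psi_int) -/
def ST_INT : Prop :=
  ∀ (α : Fin 3 → ℤ), Function.Injective α → ∀ (k r : ℕ) (N : ℤ), 0 < N → (∀ j, N + α j ≠ 0) →
    ∀ j : Fin 3, ∃ w : ℤ, (w : ℚ) = (N : ℚ) ^ k *
      (((α 0 - α 1) * (α 0 - α 2) * (α 1 - α 2) : ℤ) : ℚ) ^ (k + 1) *
      (4 * (((α 0 - α 1) * (α 0 - α 2) * (α 1 - α 2) : ℤ) : ℚ)) ^ k *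
      psi (fun i => ((α i : ℤ) : ℚ)) k (1 / (N : ℚ)) j r

/-- nonvanishing (from Helper15.Pade.nonvanish) -/
def ST_NV : Prop :=
  ∀ (a : Fin 3 → ℚ), Function.Injective a → ∀ (k : ℕ) (x : ℚ), x ≠ 0 → (∀ j, 1 + a j * x ≠ 0) →
    ∀ v : Fin 3 → ℚ, (∃ j, v j ≠ 0) → ∃ r < 3, ∑ j, v j * psi a k x j r ≠ 0

/-- vanishing of the residue sums (from Helper15.Pade.phi_zero) -/
def ST_RZ : Prop :=
  ∀ (a : Fin 3 → ℚ), Function.Injective a → ∀ k m : ℕ, m < 3 * k + 2 → rho a k m = 0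

/-! ## B. Bounds over a normed field -/

/-- general bound for the Padé coefficients (weights `(δ/2)^m` on the coefficients) -/
def ST_PSI : Prop :=
  ∀ (K : Type) [NormedField K], (∀ k l : ℕ, ‖((bc k l : ℚ) : K)‖ ≤ 2 ^ k * 4 ^ l) →
    ∀ (a : Fin 3 → K) (k : ℕ) (x : K) (A δ : ℝ), 0 < δ → (∀ j, ‖a j‖ ≤ A) →
    (∀ i j, i ≠ j → δ ≤ ‖a i - a j‖) → (∀ j, 1 + a j * x ≠ 0) → ∀ (j : Fin 3) (r : ℕ), r ≤ 2 →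
    ‖psi a k x j r‖ ≤ 64 ^ (k + 1) * (max 1 (‖x‖ * A)) ^ k * A ^ r * (1 / δ) ^ (3 * k + 2)

/-- general bound for the residue sums -/
def ST_RHO : Prop :=
  ∀ (K : Type) [NormedField K] (a : Fin 3 → K) (k m : ℕ) (A δ : ℝ), 0 < δ → (∀ j, ‖a j‖ ≤ A) →
    (∀ i j, i ≠ j → δ ≤ ‖a i - a j‖) →
    ‖rho a k m‖ ≤ 12 * 8 ^ k * (2 * A) ^ m * (1 / δ) ^ (3 * k + 2)

/-- the binomial series of the square root -/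
def ST_TH : Prop :=
  ∀ (K : Type) [NormedField K] [CompleteSpace K] [CharZero K],
    (∀ k l : ℕ, ‖((bc k l : ℚ) : K)‖ ≤ 2 ^ k * 4 ^ l) → ∀ y : K, ‖y‖ ≤ 1 / 64 →
    th y ^ 2 = 1 + y ∧ ‖th y - 1‖ ≤ 8 * ‖y‖

/-- expansion of the Padé remainder -/
def ST_SUM : Prop :=
  ∀ (K : Type) [NormedField K] [CompleteSpace K] [CharZero K],
    (∀ k l : ℕ, ‖((bc k l : ℚ) : K)‖ ≤ 2 ^ k * 4 ^ l) →
    ∀ (a : Fin 3 → K) (k r : ℕ) (x : K), (∀ j, ‖a j * x‖ ≤ 1 / 64) →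
    HasSum (fun m : ℕ => ((bc k m : ℚ) : K) * x ^ m * rho a k (m + r))
      (∑ j, th (a j * x) * psi a k x j r)

/-- bound for the Padé remainder -/
def ST_REM : Prop :=
  ∀ (K : Type) [NormedField K] [CompleteSpace K] [CharZero K],
    (∀ k l : ℕ, ‖((bc k l : ℚ) : K)‖ ≤ 2 ^ k * 4 ^ l) →
    ∀ (b : Fin 3 → ℚ), Function.Injective b → ∀ (k r : ℕ), r ≤ 2 → ∀ (x : K) (A δ : ℝ), 0 < δ →
    (∀ j, ‖((b j : ℚ) : K)‖ ≤ A) → (∀ i j, i ≠ j → δ ≤ ‖((b i : ℚ) : K) - ((b j : ℚ) : K)‖) →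
    ‖x‖ * A ≤ 1 / 64 →
    ‖∑ j, th (((b j : ℚ) : K) * x) * psi (fun i => ((b i : ℚ) : K)) k x j r‖ ≤
      8192 ^ (k + 1) * (‖x‖ * A) ^ (3 * k + 2 - r) * A ^ r * (1 / δ) ^ (3 * k + 2)

/-- the local estimate at a place where everything is large -/
def ST_LP : Prop :=
  ∀ (K : Type) [NormedField K] [CompleteSpace K] [CharZero K],
    (∀ k l : ℕ, ‖((bc k l : ℚ) : K)‖ ≤ 2 ^ k * 4 ^ l) →
    ∀ (b : Fin 3 → ℚ), Function.Injective b → ∀ (k r : ℕ), r ≤ 2 → ∀ (x : K) (A δ : ℝ), 0 < δ →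
    (∀ j, ‖((b j : ℚ) : K)‖ ≤ A) → (∀ i j, i ≠ j → δ ≤ ‖((b i : ℚ) : K) - ((b j : ℚ) : K)‖) →
    ‖x‖ * A ≤ 1 / 64 → ∀ (v e : Fin 3 → K) (q0 : K) (q η : ℝ), 0 < q → ‖q0‖ = q ^ 2 → 0 ≤ η →
    η ≤ 1 / 64 → (∀ j, ‖e j‖ ≤ η) →
    (∀ j, v j ^ 2 = q0 * (1 + ((b j : ℚ) : K) * x) * (1 + e j)) →
    (∀ j, ‖v 0 * th (((b j : ℚ) : K) * x)‖ / 2 ≤
      ‖v j * th (((b 0 : ℚ) : K) * x) + v 0 * th (((b j : ℚ) : K) * x)‖) →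
    ‖∑ j, v j * psi (fun i => ((b i : ℚ) : K)) k x j r‖ ≤
      32768 ^ (k + 1) * q * max ((‖x‖ * A) ^ (3 * k + 2 - r)) η * A ^ r * (1 / δ) ^ (3 * k + 2)

/-! ## C. Determinants -/

/-- local bound for the determinant -/
def ST_DET : Prop :=
  ∀ (K : Type) [NormedField K] (a x : Fin 3 → K) (n : K) (z : Fin 3 → Fin 3 → K)
    (A0 A1 X0 X1 : ℝ), 0 < A0 → 0 < X0 → n ≠ 0 → (∀ i, A0 ≤ ‖a i‖ ∧ ‖a i‖ ≤ A1) →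
    (∀ j, X0 ≤ ‖x j‖ ∧ ‖x j‖ ≤ X1) → 64 * ‖n‖ ≤ A0 * X0 →
    (∀ i j, z i j ^ 2 = a i * x j + n) →
    (∀ i k j l, i ≠ k → j ≠ l → ‖z i j * z k l‖ / 2 ≤ ‖z i j * z k l + z i l * z k j‖) →
    ‖det3 z‖ ^ 2 * (A0 * X0) ^ 10 ≤ 2 ^ 40 * ‖n‖ ^ 6 * (A1 * X1) ^ 7

/-- nonvanishing of the determinant (from Helper15.cheb) -/
def ST_DNZ : Prop :=
  ∀ (a x : Fin 3 → ℤ) (n : ℤ) (z : Fin 3 → Fin 3 → ℤ), n ≠ 0 → Function.Injective a →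
    Function.Injective x → (∀ i, 0 < a i) → (∀ i, 0 < x i) → (∀ i j, 0 < z i j) →
    (∀ i j, z i j ^ 2 = a i * x j + n) → det3 z ≠ 0

/-! ## D. Signs at a prime -/

/-- the columns `x`, `y` have the same sign pattern at `v` with respect to two rows with values
`f`, `g` -/
def good (v : ℕ) (f g : ℤ → ℤ) (x y : ℤ) : Prop :=
  av v (((f x * g y - f y * g x : ℤ)) : ℚ) < av v (((f x * g y : ℤ)) : ℚ) / 2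

/-- two sign classes, and consequences of `good` at a prime -/
def ST_SGN : Prop :=
  ∀ (p : ℕ), p.Prime → ∀ (n a b : ℤ) (f g : ℤ → ℤ) (X : Finset ℤ), n ≠ 0 →
    (∀ x ∈ X, f x ^ 2 = a * x + n ∧ g x ^ 2 = b * x + n) →
    (∀ x ∈ X, 64 * av p (n : ℚ) ≤ av p ((a * x : ℤ) : ℚ) ∧
      64 * av p (n : ℚ) ≤ av p ((b * x : ℤ) : ℚ)) →
    (∀ x ∈ X, ∀ y ∈ X, ∀ w ∈ X, (good p f g x w ↔ good p f g y w) → good p f g x y) ∧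
    (∀ x ∈ X, ∀ y ∈ X, good p f g x y →
      av p (((f x * g y : ℤ)) : ℚ) / 2 ≤ av p (((f x * g y + f y * g x : ℤ)) : ℚ))

/-- `good` gives the sign condition of `ST_LP` at a prime -/
def ST_SLP : Prop :=
  ∀ (p : ℕ) [Fact p.Prime] (n c d a0 a1 : ℤ) (zc0 zc1 zd0 zd1 : ℤ) (t0 t1 : ℚ_[p]), n ≠ 0 →
    c ≠ 0 → d ≠ 0 → a0 ≠ 0 → a1 ≠ 0 → zc0 ^ 2 = a0 * c + n → zc1 ^ 2 = a1 * c + n →
    zd0 ^ 2 = a0 * d + n → zd1 ^ 2 = a1 * d + n → zc0 ≠ 0 → zc1 ≠ 0 → zd0 ≠ 0 → zd1 ≠ 0 →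
    t0 ^ 2 = 1 + (n : ℚ_[p]) / (a0 * c) → t1 ^ 2 = 1 + (n : ℚ_[p]) / (a1 * c) →
    ‖t0 - 1‖ ≤ 1 / 8 → ‖t1 - 1‖ ≤ 1 / 8 →
    ‖((zc1 * zd0 - zd1 * zc0 : ℤ) : ℚ_[p])‖ < ‖((zc1 * zd0 : ℤ) : ℚ_[p])‖ / 2 →
    ‖((a1 * (zc0 * zd0) : ℤ) : ℚ_[p]) * t1‖ / 2 ≤
      ‖((a0 * (zc1 * zd1) : ℤ) : ℚ_[p]) * t0 + ((a1 * (zc0 * zd0) : ℤ) : ℚ_[p]) * t1‖

end Pool.Agent.Helper3.DW
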