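import Mathlib
import Pool.Agent.Helper3.DW.St
import Pool.Agent.Helper15.Integral

set_option autoImplicit false

/-! # Project DW, module BC: the binomial coefficients `bc` -/

namespace Pool.Agent.Helper3.DW

open Finset

theorem bc_succ_BC (k l : ℕ) :
    ((l : ℚ) + 1) * bc k (l + 1) = ((k : ℚ) + 1 / 2 - l) * bc k l := by
  unfold bc
  rw [Finset.prod_range_succ, Nat.factorial_succ]
  have h1 : ((l.factorial : ℕ) : ℚ) ≠ 0 := by
    exact_mod_cast Nat.factorial_ne_zero l
  have h2 : ((l : ℚ) + 1) ≠ 0 := by positivity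
  push_cast
  field_simp

theorem bc_choose_BC (k l : ℕ) : ((bc k l : ℚ) : ℝ) = Ring.choose ((k : ℝ) + 1 / 2) l := by
  induction l with
  | zero => simp [bc]
  | succ n ih =>
    have h1 := Pool.Agent.Helper15.Pade.choose_rec ((k : ℝ) + 1 / 2) n
    have h2 := congrArg (fun q : ℚ => (q : ℝ)) (bc_succ_BC k n)
    push_cast at h2
    rw [ih] at h2
    have hn : ((n : ℝ) + 1) ≠ 0 := by positivity
    apply mul_left_cancel₀ hn
    rw [h2]
    linarith [h1]

theorem padic_two_BC (p : ℕ) (hp : p.Prime) : (1 / 2 : ℚ) ≤ padicNorm p 2 := by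
  have : Fact p.Prime := ⟨hp⟩
  by_cases h : p = 2
  · subst h
    have := padicNorm.padicNorm_p_of_prime (p := 2)
    simp only [Nat.cast_ofNat] at this
    rw [this]
    norm_num
  · have : Fact (Nat.Prime 2) := ⟨Nat.prime_two⟩
    have := padicNorm.padicNorm_of_prime_of_ne (p := p) (q := 2) h
    simp only [Nat.cast_ofNat] at this
    rw [this]
    norm_num

theorem hBC : ST_BC := by
  refine ⟨bc_choose_BC, ?_⟩
  intro v hv k l
  rcases hv with rfl | hp
  · unfold av
    rw [if_pos rfl, bc_choose_BC]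
    have h1 := Pool.Agent.Helper15.Pade.abs_choose_le k l
    have h2 : (1 : ℝ) ≤ 4 ^ l := one_le_pow₀ (by norm_num)
    have h3 : (0 : ℝ) < 2 ^ k := by positivity
    nlinarith
  · have hv0 : v ≠ 0 := hp.ne_zero
    have : Fact v.Prime := ⟨hp⟩
    unfold av
    rw [if_neg hv0]
    obtain ⟨z, hz⟩ := (Pool.Agent.Helper15.Pade.mem_Zr _).1
      (Pool.Agent.Helper15.Pade.choose_int k l)
    rw [← bc_choose_BC] at hz
    have hz' : (z : ℚ) = 4 ^ l * bc k l := by exact_mod_cast hz
    have h4 : padicNorm v ((4 : ℚ) ^ l * bc k l) ≤ 1 := by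
      rw [← hz']
      exact padicNorm.of_int z
    have h5 : padicNorm v ((4 : ℚ) ^ l * bc k l) = (padicNorm v 2) ^ (2 * l) *
        padicNorm v (bc k l) := by
      rw [padicNorm.mul]
      congr 1
      have : (4 : ℚ) ^ l = 2 ^ (2 * l) := by rw [pow_mul]; norm_num
      rw [this]
      exact map_pow (IsAbsoluteValue.toAbsoluteValue (padicNorm v)) 2 (2 * l)
    rw [h5] at h4
    have h6 : (1 / 2 : ℚ) ^ (2 * l) ≤ (padicNorm v 2) ^ (2 * l) :=
      pow_le_pow_left₀ (by norm_num) (padic_two_BC v hp) _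
    have h7 : (0 : ℚ) ≤ padicNorm v (bc k l) := padicNorm.nonneg _
    have h8 : (1 / 2 : ℚ) ^ (2 * l) * padicNorm v (bc k l) ≤ 1 :=
      (mul_le_mul_of_nonneg_right h6 h7).trans h4
    have h9 : padicNorm v (bc k l) ≤ 4 ^ l := by
      have h10 : (4 : ℚ) ^ l * (1 / 2 : ℚ) ^ (2 * l) = 1 := by
        rw [pow_mul, ← mul_pow]
        norm_num
      calc padicNorm v (bc k l) = 4 ^ l * ((1 / 2 : ℚ) ^ (2 * l) * padicNorm v (bc k l)) := by
            rw [← mul_assoc, h10, one_mul]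
        _ ≤ 4 ^ l * 1 := mul_le_mul_of_nonneg_left h8 (by positivity)
        _ = 4 ^ l := mul_one _
    have h11 : ((padicNorm v (bc k l) : ℚ) : ℝ) ≤ 4 ^ l := by exact_mod_cast h9
    have h12 : (1 : ℝ) ≤ 2 ^ k := one_le_pow₀ (by norm_num)
    have h13 : (0 : ℝ) < 4 ^ l := by positivity
    nlinarith

end Pool.Agent.Helper3.DW
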