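import Pool.Agent.Helper3.DW.Bas

set_option autoImplicit false

/-! # Project DW: global part -/

namespace Pool.Agent.Helper3.DW

open Finset

/-- three rows `a j`, two columns `c`, `d` -/
def Conf (n : ℤ) (a : Fin 3 → ℤ) (c d : ℤ) (zc zd : Fin 3 → ℤ) : Prop :=
  n ≠ 0 ∧ Function.Injective a ∧ (∀ j, 0 < a j) ∧ 0 < c ∧ 0 < d ∧ (∀ j, 0 < zc j) ∧
  (∀ j, 0 < zd j) ∧ (∀ j, zc j ^ 2 = a j * c + n) ∧ (∀ j, zd j ^ 2 = a j * d + n)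

/-- trivial size of the coefficients at `v`, in logarithmic form -/
noncomputable def Bv (n : ℤ) (a : Fin 3 → ℤ) (c d : ℤ) (v : ℕ) : ℝ :=
  2 * Real.log (av v (n : ℚ)) + ∑ j, max (hh n v (a j)) 0 + max (hh n v c) 0 / 2 +
    max (hh n v d) 0 / 2

/-! ## E. Product formula -/

def ST_PF : Prop :=
  ∀ n : ℤ, n ≠ 0 → (∑ v ∈ Pl n, Real.log (av v (n : ℚ)) = 0) ∧
    (∀ D : ℤ, D ≠ 0 → 0 ≤ ∑ v ∈ Pl n, Real.log (av v (D : ℚ)))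

/-- the multiple of `LL` that is an integer; some `LL` with `r ≤ 2` is nonzero -/
def ST_LLI : Prop :=
  ∀ (n : ℤ) (a : Fin 3 → ℤ) (c d : ℤ) (zc zd : Fin 3 → ℤ), Conf n a c d zc zd → ∀ k : ℕ,
    ∃ r : ℕ, r ≤ 2 ∧ LL n a c zc zd k r ≠ 0 ∧ ∃ w : ℤ, (w : ℚ) = (NN a c : ℚ) ^ k *
      ((nod n a 0 - nod n a 1) * (nod n a 0 - nod n a 2) * (nod n a 1 - nod n a 2)) ^ (2 * k + 1) *
      4 ^ k * LL n a c zc zd k r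

/-! ## F. Local estimates for the linear form -/

/-- at any place -/
def ST_LVM : Prop :=
  ∀ (n : ℤ) (a : Fin 3 → ℤ) (c d : ℤ) (zc zd : Fin 3 → ℤ), Conf n a c d zc zd →
    ∀ v ∈ Pl n, ∀ k r : ℕ, r ≤ 2 → LL n a c zc zd k r ≠ 0 →
    Real.log (av v (LL n a c zc zd k r)) ≤ Bv n a c d v +
      k * (max (-(hh n v c)) 0 + ∑ j, max (-(hh n v (a j))) 0) + 15 * (k + 1) +
      r * Real.log (AV v n a) - (3 * k + 2) * Real.log (DV v n a)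

/-- at a place where everything is large, over the completion -/
def ST_LVK : Prop :=
  ∀ (K : Type) [NormedField K] [CompleteSpace K] [CharZero K] (v : ℕ),
    (∀ x : ℚ, ‖(x : K)‖ = av v x) →
    ∀ (n : ℤ) (a : Fin 3 → ℤ) (c d : ℤ) (zc zd : Fin 3 → ℤ), Conf n a c d zc zd →
    v ∈ Pl n → (∀ j, 0 ≤ hh n v (a j)) → Real.log 64 ≤ hh n v c → Real.log 64 ≤ hh n v d →
    (∀ j, ‖((oth a 0 * (zc 0 * zd 0) : ℤ) : K) * th ((n : K) / (a j * c))‖ / 2 ≤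
      ‖((oth a j * (zc j * zd j) : ℤ) : K) * th ((n : K) / (a 0 * c)) +
        ((oth a 0 * (zc 0 * zd 0) : ℤ) : K) * th ((n : K) / (a j * c))‖) →
    ∀ k r : ℕ, r ≤ 2 → LL n a c zc zd k r ≠ 0 →
    Real.log (av v (LL n a c zc zd k r)) ≤ Bv n a c d v +
      max (-(3 * k * hh n v c)) (-(hh n v d)) + 15 * (k + 1) +
      r * Real.log (AV v n a) - (3 * k + 2) * Real.log (DV v n a)

/-- at a place where everything is large -/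
def ST_LVP : Prop :=
  ∀ (n : ℤ) (a : Fin 3 → ℤ) (c d : ℤ) (zc zd : Fin 3 → ℤ), Conf n a c d zc zd →
    ∀ v ∈ Pl n, (∀ j, 0 ≤ hh n v (a j)) → Real.log 64 ≤ hh n v c → Real.log 64 ≤ hh n v d →
    (v ≠ 0 → ∀ j, av v (((zc j * zd 0 - zd j * zc 0 : ℤ)) : ℚ) <
      av v (((zc j * zd 0 : ℤ)) : ℚ) / 2) →
    ∀ k r : ℕ, r ≤ 2 → LL n a c zc zd k r ≠ 0 →
    Real.log (av v (LL n a c zc zd k r)) ≤ Bv n a c d v +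
      max (-(3 * k * hh n v c)) (-(hh n v d)) + 15 * (k + 1) +
      r * Real.log (AV v n a) - (3 * k + 2) * Real.log (DV v n a)

/-! ## G. The gap theorem -/

def ST_GAP : Prop :=
  ∀ (n : ℤ) (a : Fin 3 → ℤ) (c d : ℤ) (zc zd : Fin 3 → ℤ), Conf n a c d zc zd →
    ∀ (R : ℕ), (Pl n).card ≤ R → ∀ (V : Finset ℕ) (w : ℕ → ℝ), V ⊆ Pl n → (∀ v ∈ V, 0 ≤ w v) →
    23 / 24 ≤ ∑ v ∈ V, w v → ∀ E : ℝ, (∀ j, HH n (a j) ≤ E) →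
    (∀ v ∈ V, (∀ j, 0 ≤ hh n v (a j)) ∧ Real.log 64 ≤ hh n v c ∧ Real.log 64 ≤ hh n v d ∧
      w v * HH n c ≤ hh n v c ∧ w v * HH n d ≤ hh n v d ∧
      (v ≠ 0 → ∀ j, av v (((zc j * zd 0 - zd j * zc 0 : ℤ)) : ℚ) <
        av v (((zc j * zd 0 : ℤ)) : ℚ) / 2)) →
    200 * E + 1000 * R ≤ HH n c → HH n d < 24 * HH n c

/-! ## H. The determinant step -/

def ST_RNG : Prop :=
  ∀ (n : ℤ) (a x : Fin 3 → ℤ) (z : Fin 3 → Fin 3 → ℤ) (R : ℕ) (V : Finset ℕ) (w : ℕ → ℝ) (m : ℝ),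
    n ≠ 0 → 1 ≤ R → (Pl n).card ≤ R → V ⊆ Pl n → (∀ v ∈ V, 1 / (24 * (R : ℝ)) ≤ w v) →
    23 / 24 ≤ ∑ v ∈ V, w v → ∑ v ∈ V, w v ≤ 1 → 1000 * (R : ℝ) ≤ m →
    Function.Injective a → Function.Injective x → (∀ i, 0 < a i) → (∀ i, 0 < x i) →
    (∀ i j, 0 < z i j) → (∀ i j, z i j ^ 2 = a i * x j + n) →
    (∀ y, (y ∈ Set.range a ∨ y ∈ Set.range x) → m ≤ HH n y ∧ HH n y ≤ 5 / 4 * m ∧
      (∀ v ∈ V, w v * HH n y ≤ hh n v y ∧ hh n v y ≤ (w v + 1 / (24 * (R : ℝ))) * HH n y) ∧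
      (∀ v ∈ Pl n, v ∉ V → hh n v y ≤ HH n y / (24 * (R : ℝ)))) →
    (∀ v ∈ V, v ≠ 0 → ∀ i k j l, i ≠ k → j ≠ l → av v (((z i j * z k l : ℤ)) : ℚ) / 2 ≤
      av v (((z i j * z k l + z i l * z k j : ℤ)) : ℚ)) → False

/-! ## I. Counting -/

/-- few elements of small height -/
def ST_SML : Prop :=
  ∀ B : ℝ, ∃ F : ℕ, ∀ n : ℤ, n ≠ 0 → ∀ P : Finset ℤ, (∀ a ∈ P, 0 < a) → (∀ a ∈ P, HH n a ≤ B) →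
    P.card ≤ F

/-- profile classes -/
def ST_PRF : Prop :=
  ∀ R : ℕ, 1 ≤ R → ∃ Kc : ℕ, ∀ n : ℤ, n ≠ 0 → (Pl n).card ≤ R → ∀ P : Finset ℤ,
    (∀ a ∈ P, 0 < HH n a) → ∃ P' ⊆ P, P.card ≤ Kc * P'.card ∧ ∃ (V : Finset ℕ) (w : ℕ → ℝ),
    V ⊆ Pl n ∧ (∀ v ∈ V, 1 / (24 * (R : ℝ)) ≤ w v) ∧ 23 / 24 ≤ ∑ v ∈ V, w v ∧
    ∑ v ∈ V, w v ≤ 1 ∧ ∀ a ∈ P', (∀ v ∈ V, w v * HH n a ≤ hh n v a ∧
      hh n v a ≤ (w v + 1 / (24 * (R : ℝ))) * HH n a) ∧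
      (∀ v ∈ Pl n, v ∉ V → hh n v a ≤ HH n a / (24 * (R : ℝ)))

/-- sign classes: `z i x` is the value of the row `i` at the column `x` -/
def ST_SGC : Prop :=
  ∀ (n : ℤ) (a : Fin 3 → ℤ) (z : Fin 3 → ℤ → ℤ) (X : Finset ℤ) (R : ℕ) (V : Finset ℕ), n ≠ 0 →
    V.card ≤ R → (∀ v ∈ V, isPl v) → (∀ i, ∀ x ∈ X, z i x ^ 2 = a i * x + n) →
    (∀ v ∈ V, v ≠ 0 → ∀ i, ∀ x ∈ X, 64 * av v (n : ℚ) ≤ av v ((a i * x : ℤ) : ℚ)) →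
    ∃ X' ⊆ X, X.card ≤ 2 ^ (9 * R) * X'.card ∧
      ∀ v ∈ V, v ≠ 0 → ∀ i k, ∀ x ∈ X', ∀ y ∈ X', good v (z i) (z k) x y

/-- a profile class of a `D(n)`-tuple with all heights at least `1000 R` -/
def Cls (n : ℤ) (R : ℕ) (V : Finset ℕ) (w : ℕ → ℝ) (P : Finset ℤ) : Prop :=
  n ≠ 0 ∧ 1 ≤ R ∧ (Pl n).card ≤ R ∧ V ⊆ Pl n ∧ (∀ v ∈ V, 1 / (24 * (R : ℝ)) ≤ w v) ∧
  23 / 24 ≤ ∑ v ∈ V, w v ∧ ∑ v ∈ V, w v ≤ 1 ∧ (∀ a ∈ P, 0 < a) ∧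
  (∀ a ∈ P, ∀ x ∈ P, a ≠ x → IsSquare (a * x + n)) ∧ (∀ a ∈ P, 1000 * (R : ℝ) ≤ HH n a) ∧
  (∀ a ∈ P, (∀ v ∈ V, w v * HH n a ≤ hh n v a ∧
      hh n v a ≤ (w v + 1 / (24 * (R : ℝ))) * HH n a) ∧
      (∀ v ∈ Pl n, v ∉ V → hh n v a ≤ HH n a / (24 * (R : ℝ))))

/-- one range of heights -/
def ST_RG2 : Prop :=
  ∀ (n : ℤ) (R : ℕ) (V : Finset ℕ) (w : ℕ → ℝ) (P : Finset ℤ), Cls n R V w P → ∀ m : ℝ,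
    1000 * (R : ℝ) ≤ m → (∀ a ∈ P, m ≤ HH n a ∧ HH n a ≤ 5 / 4 * m) → P.card ≤ 3 + 2 ^ (9 * R + 1)

/-- several ranges of heights -/
def ST_RG3 : Prop :=
  ∀ (n : ℤ) (R : ℕ) (V : Finset ℕ) (w : ℕ → ℝ) (P : Finset ℤ), Cls n R V w P → ∀ (m : ℝ) (t : ℕ),
    1 ≤ t → 1000 * (R : ℝ) ≤ m → (∀ a ∈ P, m ≤ HH n a ∧ HH n a ≤ (5 / 4) ^ t * m) →
    P.card ≤ t * (3 + 2 ^ (9 * R + 1))

/-- all heights -/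
def ST_CNT : Prop :=
  ∀ (n : ℤ) (R : ℕ) (V : Finset ℕ) (w : ℕ → ℝ) (P : Finset ℤ), Cls n R V w P →
    P.card ≤ 3 + 24 * (3 + 2 ^ (9 * R + 1)) + 2 ^ (9 * R) * (15 * (3 + 2 ^ (9 * R + 1)))

/-- the theorem -/
def ST_FIN : Prop :=
  ∀ r : ℕ, ∃ K : ℕ, ∀ n : ℤ, n ≠ 0 → n.natAbs.primeFactors.card ≤ r → ∀ S : Finset ℤ,
    (∀ a ∈ S, a ≠ 0) → (∀ a ∈ S, ∀ b ∈ S, a ≠ b → IsSquare (a * b + n)) → S.card ≤ K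

end Pool.Agent.Helper3.DW
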