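import Mathlib
import Pool.Agent.Helper3.DW.St2

set_option autoImplicit false

/-! # Module CNT: the number of elements of one profile class -/

namespace Pool.Agent.Helper3.DW

open Finset

private theorem Cls_mono_CNT {n : ℤ} {R : ℕ} {V : Finset ℕ} {w : ℕ → ℝ} {P Q : Finset ℤ}
    (h : Cls n R V w P) (hQ : Q ⊆ P) : Cls n R V w Q := by
  obtain ⟨h1, h2, h3, h4, h5, h6, h7, h8, h9, h10, h11⟩ := h
  exact ⟨h1, h2, h3, h4, h5, h6, h7, fun a ha => h8 a (hQ ha),
    fun a ha x hx => h9 a (hQ ha) x (hQ hx), fun a ha => h10 a (hQ ha),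
    fun a ha => h11 a (hQ ha)⟩

/-- three elements with the smallest values of `f` -/
private theorem three_CNT (P : Finset ℤ) (hP : 3 ≤ P.card) (f : ℤ → ℝ) :
    ∃ a : Fin 3 → ℤ, Function.Injective a ∧ (∀ j, a j ∈ P) ∧
      ∀ y ∈ P, (∀ j, y ≠ a j) → ∀ j, f (a j) ≤ f y := by
  have h0 : P.Nonempty := Finset.card_pos.1 (by omega)
  obtain ⟨a0, ha0, hm0⟩ := P.exists_min_image f h0
  have hc1 : (P.erase a0).card = P.card - 1 := Finset.card_erase_of_mem ha0
  have h1 : (P.erase a0).Nonempty := Finset.card_pos.1 (by omega)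
  obtain ⟨a1, ha1, hm1⟩ := (P.erase a0).exists_min_image f h1
  have hc2 : ((P.erase a0).erase a1).card = (P.erase a0).card - 1 := Finset.card_erase_of_mem ha1
  have h2 : ((P.erase a0).erase a1).Nonempty := Finset.card_pos.1 (by omega)
  obtain ⟨a2, ha2, hm2⟩ := ((P.erase a0).erase a1).exists_min_image f h2
  have e10 : a1 ≠ a0 := (Finset.mem_erase.1 ha1).1
  have e21 : a2 ≠ a1 := (Finset.mem_erase.1 ha2).1
  have ha2' := (Finset.mem_erase.1 ha2).2
  have e20 : a2 ≠ a0 := (Finset.mem_erase.1 ha2').1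
  refine ⟨![a0, a1, a2], ?_, ?_, ?_⟩
  · intro i j hij
    fin_cases i <;> fin_cases j <;> simp_all
  · intro j
    fin_cases j
    · exact ha0
    · exact (Finset.mem_erase.1 ha1).2
    · exact (Finset.mem_erase.1 ha2').2
  · intro y hy hne j
    have n0 : y ≠ a0 := hne 0
    have n1 : y ≠ a1 := hne 1
    fin_cases j
    · exact hm0 y hy
    · exact hm1 y (Finset.mem_erase.2 ⟨n0, hy⟩)
    · exact hm2 y (Finset.mem_erase.2 ⟨n1, Finset.mem_erase.2 ⟨n0, hy⟩⟩)

private theorem log64_CNT : Real.log 64 ≤ 6 := by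
  have h : (64 : ℝ) = 2 ^ 6 := by norm_num
  rw [h, Real.log_pow]
  have := Real.log_two_lt_d9
  push_cast
  linarith

private theorem root_CNT (b n : ℤ) (hsq : IsSquare (b + n)) (hne : b + n ≠ 0) :
    0 < Int.sqrt (b + n) ∧ Int.sqrt (b + n) ^ 2 = b + n := by
  obtain ⟨s, hs⟩ := hsq
  have h1 : Int.sqrt (b + n) * Int.sqrt (b + n) = b + n :=
    (Int.exists_mul_self (b + n)).1 ⟨s, hs.symm⟩
  have h2 : Int.sqrt (b + n) ≠ 0 := by
    intro h; rw [h, mul_zero] at h1; exact hne h1.symm
  have h3 : 0 ≤ Int.sqrt (b + n) := Int.sqrt_nonneg _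
  exact ⟨lt_of_le_of_ne h3 (Ne.symm h2), by rw [sq]; exact h1⟩

theorem hCNT (h1 : ST_GAP) (h2 : ST_SGC) (h3 : ST_RG3) : ST_CNT := by
  intro n R V w P hcls
  by_cases hcard : P.card < 3
  · have : P.card ≤ 3 := by omega
    exact le_trans this (by
      have : 0 ≤ 24 * (3 + 2 ^ (9 * R + 1)) + 2 ^ (9 * R) * (15 * (3 + 2 ^ (9 * R + 1))) :=
        Nat.zero_le _
      omega)
  push Not at hcard
  obtain ⟨a, hainj, haP, hamin⟩ := three_CNT P hcard (fun y => HH n y)
  have hcls' := hcls
  obtain ⟨hn, hR1, hRc, hVn, hw1, hw2, hw3, hpos, hsq, hht, hprof⟩ := hcls'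
  have hRr : (1 : ℝ) ≤ (R : ℝ) := by exact_mod_cast hR1
  have hnq : (n : ℚ) ≠ 0 := by exact_mod_cast hn
  -- the largest of the three heights
  obtain ⟨j0, -, hj0⟩ := (Finset.univ : Finset (Fin 3)).exists_max_image (fun j => HH n (a j))
    Finset.univ_nonempty
  set E : ℝ := HH n (a j0) with hE
  have hEle : ∀ j, HH n (a j) ≤ E := fun j => hj0 j (Finset.mem_univ j)
  have hEbig : 1000 * (R : ℝ) ≤ E := hht _ (haP j0)
  have hEpos : 0 < E := by nlinarith
  -- the rest
  set P1 : Finset ℤ := P.filter (fun y => ∀ j, y ≠ a j) with hP1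
  set P2 : Finset ℤ := P1.filter (fun y => HH n y ≤ (5 / 4) ^ 24 * E) with hP2
  set P3 : Finset ℤ := P1.filter (fun y => ¬ HH n y ≤ (5 / 4) ^ 24 * E) with hP3
  have hP1sub : P1 ⊆ P := Finset.filter_subset _ _
  have hP2sub : P2 ⊆ P := (Finset.filter_subset _ _).trans hP1sub
  have hP3sub : P3 ⊆ P := (Finset.filter_subset _ _).trans hP1sub
  have hc12 : P.card ≤ 3 + P1.card := by
    have hsub : P ⊆ (Finset.univ.image a) ∪ P1 := by
      intro y hy
      by_cases h : ∀ j, y ≠ a j
      · exact Finset.mem_union_right _ (Finset.mem_filter.2 ⟨hy, h⟩)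
      · push Not at h
        obtain ⟨j, hj⟩ := h
        exact Finset.mem_union_left _ (Finset.mem_image.2 ⟨j, Finset.mem_univ _, hj.symm⟩)
    have h4 := Finset.card_le_card hsub
    have h5 := Finset.card_union_le (Finset.univ.image a) P1
    have h6 : (Finset.univ.image a).card ≤ 3 := by
      have := Finset.card_image_le (s := (Finset.univ : Finset (Fin 3))) (f := a)
      simpa using this
    omega
  have hc23 : P1.card = P2.card + P3.card := by
    rw [hP2, hP3]
    exact (Finset.card_filter_add_card_filter_not _).symm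
  -- the near part
  have hb2 : P2.card ≤ 24 * (3 + 2 ^ (9 * R + 1)) := by
    refine h3 n R V w P2 (Cls_mono_CNT hcls hP2sub) E 24 (by norm_num) hEbig ?_
    intro y hy
    have hy1 := Finset.mem_filter.1 hy
    have hy2 := Finset.mem_filter.1 hy1.1
    exact ⟨hamin y hy2.1 hy2.2 j0, hy1.2⟩
  -- facts at places of V
  have hVlarge : ∀ v ∈ V, ∀ y ∈ P, 41 ≤ hh n v y := by
    intro v hv y hy
    have h4 := ((hprof y hy).1 v hv).1
    have h5 := hw1 v hv
    have h6 := hht y hy
    have h7 : 1 / (24 * (R : ℝ)) * (1000 * R) ≤ w v * HH n y := by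
      apply mul_le_mul h5 h6 (by positivity)
      exact le_trans (by positivity) h5
    have h8 : 1 / (24 * (R : ℝ)) * (1000 * R) = 1000 / 24 := by
      have : (R : ℝ) ≠ 0 := by linarith
      field_simp
    rw [h8] at h7
    have : (41 : ℝ) ≤ 1000 / 24 := by norm_num
    linarith
  have hlarge64 : ∀ v ∈ V, ∀ y ∈ P, ∀ y' ∈ P, 64 * av v (n : ℚ) ≤ av v ((y * y' : ℤ) : ℚ) := by
    intro v hv y hy y' hy'
    have hvp : isPl v := isPl_of_mem (hVn hv)
    have h4 := hVlarge v hv y hy
    have h5 := hVlarge v hv y' hy'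
    have hyq : (y : ℚ) ≠ 0 := by exact_mod_cast (hpos y hy).ne'
    have hyq' : (y' : ℚ) ≠ 0 := by exact_mod_cast (hpos y' hy').ne'
    have hnpos := av_pos v hvp _ hnq
    have hprodpos := av_pos v hvp _ (mul_ne_zero hyq hyq')
    push_cast
    rw [← Real.log_le_log_iff (by positivity) hprodpos, Real.log_mul (by norm_num) hnpos.ne',
      log_av_mul v hvp _ _ hyq hyq', log_av_eq n v y, log_av_eq n v y']
    have := log64_CNT
    linarith
  have hVne : V.Nonempty := by
    by_contra h
    rw [Finset.not_nonempty_iff_eq_empty] at h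
    rw [h, Finset.sum_empty] at hw2
    norm_num at hw2
  have hne0 : ∀ y ∈ P, ∀ y' ∈ P, y * y' + n ≠ 0 := by
    intro y hy y' hy' h0
    obtain ⟨v, hv⟩ := hVne
    have hvp : isPl v := isPl_of_mem (hVn hv)
    have h4 := hlarge64 v hv y hy y' hy'
    have h5 : y * y' = -n := by linarith
    rw [h5] at h4
    push_cast at h4
    rw [av_neg v hvp] at h4
    have := av_pos v hvp _ hnq
    linarith
  set z : Fin 3 → ℤ → ℤ := fun i x => Int.sqrt (a i * x + n) with hz
  have hzx : ∀ i, ∀ x ∈ P3, 0 < z i x ∧ z i x ^ 2 = a i * x + n := by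
    intro i x hx
    have hx1 := (Finset.mem_filter.1 hx).1
    have hx2 := Finset.mem_filter.1 hx1
    exact root_CNT (a i * x) n (hsq (a i) (haP i) x hx2.1 (fun h => hx2.2 i h.symm))
      (hne0 (a i) (haP i) x hx2.1)
  -- the far part
  obtain ⟨X', hX'sub, hX'card, hX'good⟩ := h2 n a z P3 R V hn
    (le_trans (Finset.card_le_card hVn) hRc) (fun v hv => isPl_of_mem (hVn hv))
    (fun i x hx => (hzx i x hx).2)
    (fun v hv _ i x hx => hlarge64 v hv (a i) (haP i) x (hP3sub hx))
  have hb3 : X'.card ≤ 15 * (3 + 2 ^ (9 * R + 1)) := by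
    by_cases hX' : X'.Nonempty
    · obtain ⟨c, hcX, hcmin⟩ := X'.exists_min_image (fun y => HH n y) hX'
      have hcP3 := hX'sub hcX
      have hcP := hP3sub hcP3
      refine h3 n R V w X' (Cls_mono_CNT hcls (hX'sub.trans hP3sub)) (HH n c) 15 (by norm_num) (hht c hcP) ?_
      intro d hdX
      refine ⟨hcmin d hdX, ?_⟩
      have hdP3 := hX'sub hdX
      have hdP := hP3sub hdP3
      have hcbig : (5 / 4) ^ 24 * E < HH n c := not_le.1 (Finset.mem_filter.1 hcP3).2
      have h54 : (201 : ℝ) ≤ (5 / 4) ^ 24 := by norm_num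
      have hHd : HH n d < 24 * HH n c := by
        refine h1 n a c d (fun j => z j c) (fun j => z j d)
          ⟨hn, hainj, fun j => hpos _ (haP j), hpos c hcP, hpos d hdP,
            fun j => (hzx j c hcP3).1, fun j => (hzx j d hdP3).1,
            fun j => (hzx j c hcP3).2, fun j => (hzx j d hdP3).2⟩ R hRc V w hVn
          (fun v hv => le_trans (by positivity) (hw1 v hv)) hw2 E hEle ?_ ?_
        · intro v hv
          refine ⟨fun j => ?_, ?_, ?_, ((hprof c hcP).1 v hv).1, ((hprof d hdP).1 v hv).1, ?_⟩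
          · have := hVlarge v hv (a j) (haP j)
            linarith
          · have := hVlarge v hv c hcP
            have := log64_CNT
            linarith
          · have := hVlarge v hv d hdP
            have := log64_CNT
            linarith
          · intro hv0 j
            exact hX'good v hv hv0 j 0 c hcX d hdX
        · nlinarith
      have hHc : 0 ≤ HH n c := HH_nonneg n c
      have h24 : (24 : ℝ) ≤ (5 / 4) ^ 15 := by norm_num
      nlinarith
    · rw [Finset.not_nonempty_iff_eq_empty] at hX'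
      rw [hX']
      simp
  have hb3' : P3.card ≤ 2 ^ (9 * R) * (15 * (3 + 2 ^ (9 * R + 1))) :=
    le_trans hX'card (Nat.mul_le_mul_left _ hb3)
  omega

end Pool.Agent.Helper3.DW
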