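import Mathlib
import Pool.Agent.Helper3.DW.St

set_option autoImplicit false

/-! # Project DW, module DET: local bound for the determinant -/

namespace Pool.Agent.Helper3.DW

open Finset

/-- the product of a minor and the corresponding permanent -/
private lemma minor_eq_DET {K : Type} [Field K] {a x : Fin 3 → K} {n : K} {z : Fin 3 → Fin 3 → K}
    (hz : ∀ i j, z i j ^ 2 = a i * x j + n) (i k j l : Fin 3) :
    (z i j * z k l - z i l * z k j) * (z i j * z k l + z i l * z k j) =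
      n * (a i - a k) * (x j - x l) := by
  have h1 := hz i j
  have h2 := hz k l
  have h3 := hz i l
  have h4 := hz k j
  linear_combination (z k l ^ 2) * h1 + (a i * x j + n) * h2 - (z k j ^ 2) * h3 -
    (a i * x l + n) * h4

private lemma ident_DET {K : Type} [Field K] {a x : Fin 3 → K} {n : K} {z : Fin 3 → Fin 3 → K}
    (hz : ∀ i j, z i j ^ 2 = a i * x j + n) :
    z 0 0 * (det3 z * ((z 0 0 * z 1 1 + z 0 1 * z 1 0) * (z 0 0 * z 2 2 + z 0 2 * z 2 0) *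
      ((z 0 0 * z 1 2 + z 0 2 * z 1 0) * (z 0 0 * z 2 1 + z 0 1 * z 2 0)))) =
    z 0 0 * (-(n ^ 2 * ((a 0 - a 1) * (a 0 - a 2)) * ((x 0 - x 1) * (x 0 - x 2))) *
      (z 0 0 * (z 1 1 * z 2 2 - z 1 2 * z 2 1) - z 2 0 * (z 0 1 * z 1 2 - z 0 2 * z 1 1) +
        z 1 0 * (z 0 1 * z 2 2 - z 0 2 * z 2 1))) := by
  have h11 := minor_eq_DET hz 0 1 0 1
  have h22 := minor_eq_DET hz 0 2 0 2
  have h12 := minor_eq_DET hz 0 1 0 2
  have h21 := minor_eq_DET hz 0 2 0 1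
  unfold det3
  linear_combination
    ((z 0 0 * z 1 2 + z 0 2 * z 1 0) * (z 0 0 * z 2 1 + z 0 1 * z 2 0)) *
      ((z 0 0 * z 2 2 - z 0 2 * z 2 0) * (z 0 0 * z 2 2 + z 0 2 * z 2 0) * h11 +
        (n * (a 0 - a 1) * (x 0 - x 1)) * h22) -
    ((z 0 0 * z 1 1 + z 0 1 * z 1 0) * (z 0 0 * z 2 2 + z 0 2 * z 2 0)) *
      ((z 0 0 * z 2 1 - z 0 1 * z 2 0) * (z 0 0 * z 2 1 + z 0 1 * z 2 0) * h12 +
        (n * (a 0 - a 1) * (x 0 - x 2)) * h21)

theorem hDET : ST_DET := by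
  intro K _ a x n z A0 A1 X0 X1 hA0 hX0 hn ha hx h64 hz hs
  set m : ℝ := A0 * X0 with hm
  set M : ℝ := A1 * X1 with hM
  set N : ℝ := ‖n‖ with hN
  have hN0 : 0 < N := norm_pos_iff.2 hn
  have hm0 : 0 < m := mul_pos hA0 hX0
  have hA1 : 0 < A1 := lt_of_lt_of_le hA0 ((ha 0).1.trans (ha 0).2)
  have hX1 : 0 < X1 := lt_of_lt_of_le hX0 ((hx 0).1.trans (hx 0).2)
  have hM0 : 0 < M := mul_pos hA1 hX1
  have hax1 : ∀ i j, m ≤ ‖a i * x j‖ := by
    intro i j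
    rw [norm_mul]
    exact mul_le_mul (ha i).1 (hx j).1 hX0.le (norm_nonneg _)
  have hax2 : ∀ i j, ‖a i * x j‖ ≤ M := by
    intro i j
    rw [norm_mul]
    exact mul_le_mul (ha i).2 (hx j).2 (norm_nonneg _) hA1.le
  have hmM : m ≤ M := (hax1 0 0).trans (hax2 0 0)
  have zlow : ∀ i j, m / 2 ≤ ‖z i j‖ ^ 2 := by
    intro i j
    rw [← norm_pow, hz]
    have h1 : ‖a i * x j‖ ≤ ‖a i * x j + n‖ + ‖n‖ := by
      calc ‖a i * x j‖ = ‖(a i * x j + n) - n‖ := by rw [add_sub_cancel_right]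
        _ ≤ _ := norm_sub_le _ _
    have h2 := hax1 i j
    linarith
  have zup : ∀ i j, ‖z i j‖ ^ 2 ≤ 2 * M := by
    intro i j
    rw [← norm_pow, hz]
    have h1 : ‖a i * x j + n‖ ≤ ‖a i * x j‖ + ‖n‖ := norm_add_le _ _
    have h2 := hax2 i j
    linarith
  have zz : ∀ i j k l, m / 2 ≤ ‖z i j * z k l‖ := by
    intro i j k l
    rw [norm_mul]
    have h1 : (m / 2) ^ 2 ≤ (‖z i j‖ * ‖z k l‖) ^ 2 := by
      rw [mul_pow, sq (m / 2)]
      exact mul_le_mul (zlow i j) (zlow k l) (by positivity) (by positivity)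
    exact le_of_sq_le_sq h1 (by positivity)
  have zsum : ∀ i k j l, i ≠ k → j ≠ l → m / 4 ≤ ‖z i j * z k l + z i l * z k j‖ := by
    intro i k j l hik hjl
    have h1 := hs i k j l hik hjl
    have h2 := zz i j k l
    linarith
  have da : ∀ i k, ‖a i - a k‖ ≤ 2 * A1 := by
    intro i k
    have := norm_sub_le (a i) (a k)
    have h1 := (ha i).2
    have h2 := (ha k).2
    linarith
  have dx : ∀ i k, ‖x i - x k‖ ≤ 2 * X1 := by
    intro i k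
    have := norm_sub_le (x i) (x k)
    have h1 := (hx i).2
    have h2 := (hx k).2
    linarith
  have zmin : ∀ i k j l, i ≠ k → j ≠ l → ‖z i j * z k l - z i l * z k j‖ ≤ 16 * N * M / m := by
    intro i k j l hik hjl
    have h1 := congrArg norm (minor_eq_DET hz i k j l)
    rw [norm_mul, norm_mul, norm_mul] at h1
    have h2 := zsum i k j l hik hjl
    have h3 : ‖n‖ * ‖a i - a k‖ * ‖x j - x l‖ ≤ N * (2 * A1) * (2 * X1) := by
      have h5 := da i k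
      have h6 := dx j l
      gcongr
    have h4 : ‖z i j * z k l - z i l * z k j‖ * (m / 4) ≤ N * (2 * A1) * (2 * X1) := by
      refine le_trans (mul_le_mul_of_nonneg_left h2 (norm_nonneg _)) ?_
      rw [h1]
      exact h3
    rw [le_div_iff₀ hm0]
    have h5 : N * (2 * A1) * (2 * X1) = 4 * (N * M) := by rw [hM]; ring
    rw [h5] at h4
    linarith
  -- the identity
  have hz0 : z 0 0 ≠ 0 := by
    intro h0
    have := zlow 0 0
    rw [h0, norm_zero] at this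
    nlinarith
  have hid := mul_left_cancel₀ hz0 (ident_DET hz)
  have hnorm := congrArg norm hid
  set Z : ℝ := Real.sqrt (2 * M) with hZ
  have hZ0 : 0 ≤ Z := Real.sqrt_nonneg _
  have hZ2 : Z ^ 2 = 2 * M := Real.sq_sqrt (by positivity)
  have zZ : ∀ i j, ‖z i j‖ ≤ Z := fun i j => Real.le_sqrt_of_sq_le (zup i j)
  set Q : K := z 0 0 * (z 1 1 * z 2 2 - z 1 2 * z 2 1) - z 2 0 * (z 0 1 * z 1 2 - z 0 2 * z 1 1) +
        z 1 0 * (z 0 1 * z 2 2 - z 0 2 * z 2 1) with hQdef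
  have hQ : ‖Q‖ ≤ 48 * (N * M * Z) / m := by
    have e1 := zmin 1 2 1 2 (by decide) (by decide)
    have e2 := zmin 0 1 1 2 (by decide) (by decide)
    have e3 := zmin 0 2 1 2 (by decide) (by decide)
    have f1 := zZ 0 0
    have f2 := zZ 2 0
    have f3 := zZ 1 0
    have hc : 0 ≤ 16 * N * M / m := by positivity
    have g1 : ‖z 0 0 * (z 1 1 * z 2 2 - z 1 2 * z 2 1)‖ ≤ Z * (16 * N * M / m) := by
      rw [norm_mul]
      exact mul_le_mul f1 e1 (norm_nonneg _) hZ0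
    have g2 : ‖z 2 0 * (z 0 1 * z 1 2 - z 0 2 * z 1 1)‖ ≤ Z * (16 * N * M / m) := by
      rw [norm_mul]
      exact mul_le_mul f2 e2 (norm_nonneg _) hZ0
    have g3 : ‖z 1 0 * (z 0 1 * z 2 2 - z 0 2 * z 2 1)‖ ≤ Z * (16 * N * M / m) := by
      rw [norm_mul]
      exact mul_le_mul f3 e3 (norm_nonneg _) hZ0
    have g4 : ‖Q‖ ≤ ‖z 0 0 * (z 1 1 * z 2 2 - z 1 2 * z 2 1)‖ +
        ‖z 2 0 * (z 0 1 * z 1 2 - z 0 2 * z 1 1)‖ + ‖z 1 0 * (z 0 1 * z 2 2 - z 0 2 * z 2 1)‖ := by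
      rw [hQdef]
      refine (norm_add_le _ _).trans ?_
      gcongr
      exact norm_sub_le _ _
    have g5 : 48 * (N * M * Z) / m = Z * (16 * N * M / m) + Z * (16 * N * M / m) +
        Z * (16 * N * M / m) := by ring
    rw [g5]
    linarith
  set P : K := ((z 0 0 * z 1 1 + z 0 1 * z 1 0) * (z 0 0 * z 2 2 + z 0 2 * z 2 0) *
      ((z 0 0 * z 1 2 + z 0 2 * z 1 0) * (z 0 0 * z 2 1 + z 0 1 * z 2 0))) with hPdef
  have hP : (m / 4) ^ 4 ≤ ‖P‖ := by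
    have e1 := zsum 0 1 0 1 (by decide) (by decide)
    have e2 := zsum 0 2 0 2 (by decide) (by decide)
    have e3 := zsum 0 1 0 2 (by decide) (by decide)
    have e4 := zsum 0 2 0 1 (by decide) (by decide)
    rw [hPdef, norm_mul, norm_mul, norm_mul]
    have h0 : 0 ≤ m / 4 := by positivity
    have e5 : (m / 4) * (m / 4) * ((m / 4) * (m / 4)) ≤
        ‖z 0 0 * z 1 1 + z 0 1 * z 1 0‖ * ‖z 0 0 * z 2 2 + z 0 2 * z 2 0‖ *
        (‖z 0 0 * z 1 2 + z 0 2 * z 1 0‖ * ‖z 0 0 * z 2 1 + z 0 1 * z 2 0‖) := by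
      gcongr
    calc (m / 4) ^ 4 = (m / 4) * (m / 4) * ((m / 4) * (m / 4)) := by ring
      _ ≤ _ := e5
  have hS : ‖-(n ^ 2 * ((a 0 - a 1) * (a 0 - a 2)) * ((x 0 - x 1) * (x 0 - x 2)))‖ ≤
      16 * (N ^ 2 * M ^ 2) := by
    rw [norm_neg, norm_mul, norm_mul, norm_mul, norm_mul, norm_pow]
    have e1 := da 0 1
    have e2 := da 0 2
    have e3 := dx 0 1
    have e4 := dx 0 2
    have e5 : ‖n‖ ^ 2 * (‖a 0 - a 1‖ * ‖a 0 - a 2‖) * (‖x 0 - x 1‖ * ‖x 0 - x 2‖) ≤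
        N ^ 2 * ((2 * A1) * (2 * A1)) * ((2 * X1) * (2 * X1)) := by
      gcongr
    refine e5.trans (le_of_eq ?_)
    rw [hM]
    ring
  rw [norm_mul (det3 z) P, norm_mul _ Q] at hnorm
  have hfin : ‖det3 z‖ * (m / 4) ^ 4 ≤ 16 * (N ^ 2 * M ^ 2) * (48 * (N * M * Z) / m) := by
    calc ‖det3 z‖ * (m / 4) ^ 4 ≤ ‖det3 z‖ * ‖P‖ := by gcongr
      _ = ‖-(n ^ 2 * ((a 0 - a 1) * (a 0 - a 2)) * ((x 0 - x 1) * (x 0 - x 2)))‖ * ‖Q‖ := hnorm
      _ ≤ _ := mul_le_mul hS hQ (norm_nonneg _) (by positivity)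
  have hfin2 : ‖det3 z‖ * m ^ 5 ≤ 196608 * (N ^ 3 * M ^ 3 * Z) := by
    have h1 : ‖det3 z‖ * m ^ 5 = (‖det3 z‖ * (m / 4) ^ 4) * (256 * m) := by ring
    have h2 : 196608 * (N ^ 3 * M ^ 3 * Z) =
        (16 * (N ^ 2 * M ^ 2) * (48 * (N * M * Z) / m)) * (256 * m) := by
      field_simp
      ring
    rw [h1, h2]
    exact mul_le_mul_of_nonneg_right hfin (by positivity)
  have hsq : (‖det3 z‖ * m ^ 5) ^ 2 ≤ (196608 * (N ^ 3 * M ^ 3 * Z)) ^ 2 :=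
    pow_le_pow_left₀ (by positivity) hfin2 2
  have h3 : (196608 * (N ^ 3 * M ^ 3 * Z)) ^ 2 = 77309411328 * (N ^ 6 * M ^ 7) := by
    have : (196608 * (N ^ 3 * M ^ 3 * Z)) ^ 2 = 196608 ^ 2 * (N ^ 6 * M ^ 6) * Z ^ 2 := by ring
    rw [this, hZ2]
    ring
  calc ‖det3 z‖ ^ 2 * m ^ 10 = (‖det3 z‖ * m ^ 5) ^ 2 := by ring
    _ ≤ 77309411328 * (N ^ 6 * M ^ 7) := by rw [← h3]; exact hsq
    _ ≤ 2 ^ 40 * (N ^ 6 * M ^ 7) := by
        have : 0 ≤ N ^ 6 * M ^ 7 := by positivity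
        nlinarith
    _ = 2 ^ 40 * N ^ 6 * M ^ 7 := by ring

end Pool.Agent.Helper3.DW
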