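import Pool.Agent.Helper3.DW.St2

set_option autoImplicit false

/-! # Project DW: explicit versions of the counting statements -/

namespace Pool.Agent.Helper3.DW

open Finset

/-- few elements of small height, explicit -/
def ST_SMLX : Prop :=
  ∀ B : ℝ, 0 ≤ B → ∀ n : ℤ, n ≠ 0 → ∀ P : Finset ℤ, (∀ a ∈ P, 0 < a) → (∀ a ∈ P, HH n a ≤ B) →
    (P.card : ℝ) ≤ 2 * Real.exp (4 * B)

/-- profile classes, explicit -/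
def ST_PRFX : Prop :=
  ∀ R : ℕ, 1 ≤ R → ∀ n : ℤ, n ≠ 0 → (Pl n).card ≤ R → ∀ P : Finset ℤ,
    (∀ a ∈ P, 0 < HH n a) → ∃ P' ⊆ P, P.card ≤ (24 * R + 1) ^ R * P'.card ∧
    ∃ (V : Finset ℕ) (w : ℕ → ℝ),
    V ⊆ Pl n ∧ (∀ v ∈ V, 1 / (24 * (R : ℝ)) ≤ w v) ∧ 23 / 24 ≤ ∑ v ∈ V, w v ∧
    ∑ v ∈ V, w v ≤ 1 ∧ ∀ a ∈ P', (∀ v ∈ V, w v * HH n a ≤ hh n v a ∧
      hh n v a ≤ (w v + 1 / (24 * (R : ℝ))) * HH n a) ∧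
      (∀ v ∈ Pl n, v ∉ V → hh n v a ≤ HH n a / (24 * (R : ℝ)))

/-- the theorem, explicit -/
def ST_FINX : Prop :=
  ∀ n : ℤ, n ≠ 0 → ∀ S : Finset ℤ, (∀ a ∈ S, a ≠ 0) →
    (∀ a ∈ S, ∀ b ∈ S, a ≠ b → IsSquare (a * b + n)) →
    (S.card : ℝ) ≤ Real.exp (5000 * ((n.natAbs.primeFactors.card : ℝ) + 1) *
      (1 + Real.log ((n.natAbs.primeFactors.card : ℝ) + 1)))

end Pool.Agent.Helper3.DW
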