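import Mathlib
import Pool.Agent.Helper3.DW.St3

set_option autoImplicit false

/-! # Project DW: module FINX (explicit final count; structure by helper90's M_FIN) -/

namespace Pool.Agent.Helper3.DW

open Finset

/-- the bound of `ST_CNT` -/
private def cnt_FINX (R : ℕ) : ℕ :=
  3 + 24 * (3 + 2 ^ (9 * R + 1)) + 2 ^ (9 * R) * (15 * (3 + 2 ^ (9 * R + 1)))

/-- the bound for positive tuples -/
private lemma pos_FINX (h1 : ST_SMLX) (h2 : ST_PRFX) (h3 : ST_CNT) (R : ℕ) (hR : 1 ≤ R) (n : ℤ)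
    (hn : n ≠ 0) (hPl : (Pl n).card ≤ R) (P : Finset ℤ)
    (hP : ∀ a ∈ P, 0 < a) (hsq : ∀ a ∈ P, ∀ b ∈ P, a ≠ b → IsSquare (a * b + n)) :
    (P.card : ℝ) ≤ 2 * Real.exp (4000 * R) + (((24 * R + 1) ^ R * cnt_FINX R : ℕ) : ℝ) := by
  classical
  have hR1 : (1 : ℝ) ≤ (R : ℝ) := by exact_mod_cast hR
  set P1 := P.filter (fun a => HH n a ≤ 1000 * (R : ℝ)) with hP1
  set P2 := P.filter (fun a => ¬ HH n a ≤ 1000 * (R : ℝ)) with hP2
  have hc : P1.card + P2.card = P.card := by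
    rw [hP1, hP2]
    exact card_filter_add_card_filter_not _
  have h1c : (P1.card : ℝ) ≤ 2 * Real.exp (4000 * R) := by
    have := h1 (1000 * (R : ℝ)) (by positivity) n hn P1 (fun a ha => hP a (mem_filter.1 ha).1)
      (fun a ha => (mem_filter.1 ha).2)
    have e : 4 * (1000 * (R : ℝ)) = 4000 * R := by ring
    rwa [e] at this
  have hbig : ∀ a ∈ P2, 1000 * (R : ℝ) ≤ HH n a := fun a ha =>
    (not_le.1 (mem_filter.1 ha).2).le
  obtain ⟨P', hsub, hcard, V, w, hV, hw, hw1, hw2, hcl⟩ := h2 R hR n hn hPl P2 (fun a ha => by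
    have := hbig a ha
    linarith)
  have hCls : Cls n R V w P' := by
    refine ⟨hn, hR, hPl, hV, hw, hw1, hw2, ?_, ?_, ?_, hcl⟩
    · intro a ha
      exact hP a (mem_filter.1 (hsub ha)).1
    · intro a ha x hx hax
      exact hsq a (mem_filter.1 (hsub ha)).1 x (mem_filter.1 (hsub hx)).1 hax
    · intro a ha
      exact hbig a (hsub ha)
  have h2c : P2.card ≤ (24 * R + 1) ^ R * cnt_FINX R :=
    hcard.trans (Nat.mul_le_mul_left _ (h3 n R V w P' hCls))
  have h2c' : (P2.card : ℝ) ≤ (((24 * R + 1) ^ R * cnt_FINX R : ℕ) : ℝ) := by exact_mod_cast h2c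
  have hc' : (P.card : ℝ) = P1.card + P2.card := by rw [← hc]; push_cast; ring
  rw [hc']
  exact add_le_add h1c h2c'

private lemma num_FINX (R : ℕ) (hR : 1 ≤ R) :
    2 * (2 * Real.exp (4000 * R) + (((24 * R + 1) ^ R * cnt_FINX R : ℕ) : ℝ)) ≤
      Real.exp (5000 * (R : ℝ) * (1 + Real.log R)) := by
  have hR1 : (1 : ℝ) ≤ (R : ℝ) := by exact_mod_cast hR
  have hR0 : (0 : ℝ) < (R : ℝ) := by linarith
  have hlog : 0 ≤ Real.log (R : ℝ) := Real.log_nonneg hR1
  have he : (2.7 : ℝ) ≤ Real.exp 1 := by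
    have := Real.exp_one_gt_d9
    linarith
  -- 2^(9R) ≥ 512
  have hX : (512 : ℝ) ≤ 2 ^ (9 * R) := by
    have h1 : (2 : ℝ) ^ 9 ≤ 2 ^ (9 * R) := pow_le_pow_right₀ (by norm_num) (by omega)
    have h2 : (2 : ℝ) ^ 9 = 512 := by norm_num
    linarith
  have hcnt : ((cnt_FINX R : ℕ) : ℝ) ≤ 32 * (2 ^ (9 * R)) ^ 2 := by
    unfold cnt_FINX
    push_cast
    rw [pow_succ]
    set X : ℝ := 2 ^ (9 * R) with hXdef
    nlinarith
  have hX2 : ((2 : ℝ) ^ (9 * R)) ^ 2 ≤ Real.exp (18 * R) := by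
    have h1 : (2 : ℝ) ≤ Real.exp 1 := by linarith
    calc ((2 : ℝ) ^ (9 * R)) ^ 2 = 2 ^ (18 * R) := by rw [← pow_mul]; ring_nf
      _ ≤ (Real.exp 1) ^ (18 * R) := pow_le_pow_left₀ (by norm_num) h1 _
      _ = Real.exp (18 * R) := by
        rw [← Real.exp_nat_mul]; push_cast; ring_nf
  have h32 : (32 : ℝ) ≤ Real.exp 4 := by
    have h1 : Real.exp 4 = (Real.exp 1) ^ 4 := by rw [← Real.exp_nat_mul]; norm_num
    rw [h1]
    have h2 : (2.7 : ℝ) ^ 4 ≤ (Real.exp 1) ^ 4 := pow_le_pow_left₀ (by norm_num) he 4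
    have h3 : (32 : ℝ) ≤ 2.7 ^ 4 := by norm_num
    linarith
  have h25 : ((24 * (R : ℝ) + 1)) ^ R ≤ Real.exp (4 * R + R * Real.log R) := by
    have h1 : (25 : ℝ) ≤ Real.exp 4 := by linarith
    calc (24 * (R : ℝ) + 1) ^ R ≤ (Real.exp 4 * R) ^ R := by
          refine pow_le_pow_left₀ (by positivity) ?_ _
          nlinarith
      _ = Real.exp (4 * R) * (R : ℝ) ^ R := by
          rw [mul_pow, ← Real.exp_nat_mul]; ring_nf
      _ = Real.exp (4 * R) * Real.exp (R * Real.log R) := by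
          congr 1
          rw [mul_comm (R : ℝ) (Real.log R), Real.exp_mul, Real.exp_log hR0, Real.rpow_natCast]
      _ = _ := by rw [← Real.exp_add]
  have hsec : (((24 * R + 1) ^ R * cnt_FINX R : ℕ) : ℝ) ≤
      Real.exp (26 * R + R * Real.log R) := by
    push_cast
    have h1 : ((cnt_FINX R : ℕ) : ℝ) ≤ Real.exp (22 * R) := by
      calc ((cnt_FINX R : ℕ) : ℝ) ≤ 32 * (2 ^ (9 * R)) ^ 2 := hcnt
        _ ≤ Real.exp 4 * Real.exp (18 * R) := mul_le_mul h32 hX2 (by positivity) (Real.exp_pos _).le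
        _ = Real.exp (4 + 18 * R) := by rw [← Real.exp_add]
        _ ≤ Real.exp (22 * R) := Real.exp_le_exp.2 (by linarith)
    calc (24 * (R : ℝ) + 1) ^ R * ((cnt_FINX R : ℕ) : ℝ) ≤
          Real.exp (4 * R + R * Real.log R) * Real.exp (22 * R) :=
          mul_le_mul h25 h1 (Nat.cast_nonneg _) (Real.exp_pos _).le
      _ = _ := by rw [← Real.exp_add]; ring_nf
  have h4 : (4 : ℝ) ≤ Real.exp 2 := by
    have h1 : Real.exp 2 = (Real.exp 1) ^ 2 := by rw [← Real.exp_nat_mul]; norm_num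
    rw [h1]; nlinarith
  set T : ℝ := 4000 * R + R * Real.log R with hT
  have hRl : 0 ≤ (R : ℝ) * Real.log R := mul_nonneg hR0.le hlog
  have ha : Real.exp (4000 * R) ≤ Real.exp T := Real.exp_le_exp.2 (by rw [hT]; linarith)
  have hb : Real.exp (26 * R + R * Real.log R) ≤ Real.exp T :=
    Real.exp_le_exp.2 (by rw [hT]; linarith)
  have hT0 : 0 < Real.exp T := Real.exp_pos _
  calc 2 * (2 * Real.exp (4000 * R) + (((24 * R + 1) ^ R * cnt_FINX R : ℕ) : ℝ))
      ≤ 2 * (2 * Real.exp T + Real.exp T) := by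
        have := le_trans hsec hb
        linarith
    _ ≤ (Real.exp 2 * Real.exp 2) * Real.exp T := by
        have h16 : (16 : ℝ) ≤ Real.exp 2 * Real.exp 2 := by nlinarith
        have := mul_le_mul_of_nonneg_right h16 hT0.le
        linarith
    _ = Real.exp (4 + T) := by rw [← Real.exp_add, ← Real.exp_add]; ring_nf
    _ ≤ Real.exp (5000 * (R : ℝ) * (1 + Real.log R)) := Real.exp_le_exp.2 (by
        rw [hT]; nlinarith)

theorem hFINX (h1 : ST_SMLX) (h2 : ST_PRFX) (h3 : ST_CNT) : ST_FINX := by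
  intro n hn S hS hsq
  classical
  set R : ℕ := n.natAbs.primeFactors.card + 1 with hRdef
  have hR : 1 ≤ R := by omega
  have hPl : (Pl n).card ≤ R := by
    unfold Pl
    exact (card_insert_le _ _).trans (by omega)
  set K : ℝ := 2 * Real.exp (4000 * R) + (((24 * R + 1) ^ R * cnt_FINX R : ℕ) : ℝ) with hK
  set S1 := S.filter (fun a => 0 < a) with hS1
  set S2 := S.filter (fun a => ¬ 0 < a) with hS2
  have hc : S1.card + S2.card = S.card := by
    rw [hS1, hS2]
    exact card_filter_add_card_filter_not _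
  have h1c : (S1.card : ℝ) ≤ K := by
    refine pos_FINX h1 h2 h3 R hR n hn hPl S1 (fun a ha => (mem_filter.1 ha).2) ?_
    intro a ha b hb hab
    exact hsq a (mem_filter.1 ha).1 b (mem_filter.1 hb).1 hab
  have h2c : (S2.card : ℝ) ≤ K := by
    have himg : (S2.image (fun a => -a)).card = S2.card :=
      card_image_of_injective _ neg_injective
    rw [← himg]
    refine pos_FINX h1 h2 h3 R hR n hn hPl _ ?_ ?_
    · intro a ha
      obtain ⟨b, hb, rfl⟩ := mem_image.1 ha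
      have h1 := (mem_filter.1 hb).2
      have h2 := hS b (mem_filter.1 hb).1
      omega
    · intro a ha b hb hab
      obtain ⟨a', ha', rfl⟩ := mem_image.1 ha
      obtain ⟨b', hb', rfl⟩ := mem_image.1 hb
      have h := hsq a' (mem_filter.1 ha').1 b' (mem_filter.1 hb').1 (fun h => hab (by rw [h]))
      have he : -a' * -b' + n = a' * b' + n := by ring
      rw [he]
      exact h
  have hc' : (S.card : ℝ) = S1.card + S2.card := by rw [← hc]; push_cast; ring
  have hRr : ((n.natAbs.primeFactors.card : ℝ) + 1) = (R : ℝ) := by rw [hRdef]; push_cast; ring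
  rw [hRr, hc']
  have := num_FINX R hR
  linarith

end Pool.Agent.Helper3.DW
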