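import Mathlib
import Pool.Agent.Helper3.DW.St2

set_option autoImplicit false

/-! # Project DW, module GAP: the gap theorem -/

namespace Pool.Agent.Helper3.DW

open Finset

private theorem oth0_GAP (a : Fin 3 → ℤ) : oth a 0 = a 1 * a 2 := by
  have : (univ : Finset (Fin 3)).erase 0 = {1, 2} := by decide
  rw [oth, this, Finset.prod_pair (by decide)]

private theorem oth1_GAP (a : Fin 3 → ℤ) : oth a 1 = a 0 * a 2 := by
  have : (univ : Finset (Fin 3)).erase 1 = {0, 2} := by decide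
  rw [oth, this, Finset.prod_pair (by decide)]

private theorem oth2_GAP (a : Fin 3 → ℤ) : oth a 2 = a 0 * a 1 := by
  have : (univ : Finset (Fin 3)).erase 2 = {0, 1} := by decide
  rw [oth, this, Finset.prod_pair (by decide)]

private theorem lognod_GAP (n : ℤ) (x y : ℤ) (hn : n ≠ 0) (hx : x ≠ 0) (hy : y ≠ 0) (v : ℕ)
    (hv : isPl v) : Real.log (av v ((n : ℚ) * ((x * y : ℤ) : ℚ))) =
      2 * Real.log (av v (n : ℚ)) + hh n v x + hh n v y := by
  have h1 : (n : ℚ) ≠ 0 := by exact_mod_cast hn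
  have h2 : (x : ℚ) ≠ 0 := by exact_mod_cast hx
  have h3 : (y : ℚ) ≠ 0 := by exact_mod_cast hy
  push_cast
  rw [log_av_mul v hv _ _ h1 (mul_ne_zero h2 h3), log_av_mul v hv _ _ h2 h3, log_av_eq n v x,
    log_av_eq n v y]
  ring

private theorem nod_ne_GAP (n : ℤ) (a : Fin 3 → ℤ) (hn : n ≠ 0) (ha : ∀ j, 0 < a j) (j : Fin 3) :
    nod n a j ≠ 0 := by
  have h1 : (n : ℚ) ≠ 0 := by exact_mod_cast hn
  have h2 : oth a j ≠ 0 := by
    rw [oth]
    exact Finset.prod_ne_zero_iff.2 fun h _ => (ha h).ne'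
  have h3 : (oth a j : ℚ) ≠ 0 := by exact_mod_cast h2
  exact mul_ne_zero h1 h3

private theorem AV_pos_GAP (n : ℤ) (a : Fin 3 → ℤ) (hn : n ≠ 0) (ha : ∀ j, 0 < a j) (v : ℕ)
    (hv : isPl v) : 0 < AV v n a :=
  (av_pos v hv _ (nod_ne_GAP n a hn ha 0)).trans_le (le_max_left _ _)

private theorem logAV_GAP (n : ℤ) (a : Fin 3 → ℤ) (hn : n ≠ 0) (ha : ∀ j, 0 < a j) (v : ℕ)
    (hv : isPl v) : Real.log (AV v n a) ≤
      2 * Real.log (av v (n : ℚ)) + ∑ j, max (hh n v (a j)) 0 := by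
  have m0 : hh n v (a 0) ≤ max (hh n v (a 0)) 0 := le_max_left _ _
  have m1 : hh n v (a 1) ≤ max (hh n v (a 1)) 0 := le_max_left _ _
  have m2 : hh n v (a 2) ≤ max (hh n v (a 2)) 0 := le_max_left _ _
  have z0 : 0 ≤ max (hh n v (a 0)) 0 := le_max_right _ _
  have z1 : 0 ≤ max (hh n v (a 1)) 0 := le_max_right _ _
  have z2 : 0 ≤ max (hh n v (a 2)) 0 := le_max_right _ _
  rw [Fin.sum_univ_three]
  have e0 : Real.log (av v (nod n a 0)) = 2 * Real.log (av v (n : ℚ)) + hh n v (a 1) +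
      hh n v (a 2) := by
    rw [nod, oth0_GAP]
    exact lognod_GAP n _ _ hn (ha 1).ne' (ha 2).ne' v hv
  have e1 : Real.log (av v (nod n a 1)) = 2 * Real.log (av v (n : ℚ)) + hh n v (a 0) +
      hh n v (a 2) := by
    rw [nod, oth1_GAP]
    exact lognod_GAP n _ _ hn (ha 0).ne' (ha 2).ne' v hv
  have e2 : Real.log (av v (nod n a 2)) = 2 * Real.log (av v (n : ℚ)) + hh n v (a 0) +
      hh n v (a 1) := by
    rw [nod, oth2_GAP]
    exact lognod_GAP n _ _ hn (ha 0).ne' (ha 1).ne' v hv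
  have p0 := av_pos v hv _ (nod_ne_GAP n a hn ha 0)
  have p1 := av_pos v hv _ (nod_ne_GAP n a hn ha 1)
  have p2 := av_pos v hv _ (nod_ne_GAP n a hn ha 2)
  rw [Real.log_le_iff_le_exp (AV_pos_GAP n a hn ha v hv)]
  refine max_le ?_ (max_le ?_ ?_)
  · rw [← Real.log_le_iff_le_exp p0]
    linarith
  · rw [← Real.log_le_iff_le_exp p1]
    linarith
  · rw [← Real.log_le_iff_le_exp p2]
    linarith

private theorem diff_ne_GAP (n x y z : ℤ) (hn : n ≠ 0) (hz : z ≠ 0) (hxy : x ≠ y) :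
    (n : ℚ) * ((x * z : ℤ) : ℚ) - (n : ℚ) * ((y * z : ℤ) : ℚ) ≠ 0 := by
  have h1 : (n : ℚ) ≠ 0 := by exact_mod_cast hn
  have h2 : (z : ℚ) ≠ 0 := by exact_mod_cast hz
  have h3 : (x : ℚ) - y ≠ 0 := by
    rw [sub_ne_zero]
    exact_mod_cast hxy
  have e : (n : ℚ) * ((x * z : ℤ) : ℚ) - (n : ℚ) * ((y * z : ℤ) : ℚ) = n * (z * (x - y)) := by
    push_cast
    ring
  rw [e]
  exact mul_ne_zero h1 (mul_ne_zero h2 h3)

private theorem D_ne_GAP (n : ℤ) (a : Fin 3 → ℤ) (hn : n ≠ 0) (ha : ∀ j, 0 < a j)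
    (hi : Function.Injective a) : nod n a 0 - nod n a 1 ≠ 0 ∧ nod n a 0 - nod n a 2 ≠ 0 ∧
      nod n a 1 - nod n a 2 ≠ 0 := by
  have h01 : a 0 ≠ a 1 := fun h => by have := hi h; revert this; decide
  have h02 : a 0 ≠ a 2 := fun h => by have := hi h; revert this; decide
  have h12 : a 1 ≠ a 2 := fun h => by have := hi h; revert this; decide
  refine ⟨?_, ?_, ?_⟩
  · rw [nod, nod, oth0_GAP, oth1_GAP]
    exact diff_ne_GAP n (a 1) (a 0) (a 2) hn (ha 2).ne' h01.symm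
  · rw [nod, nod, oth0_GAP, oth2_GAP, mul_comm (a 1) (a 2)]
    exact diff_ne_GAP n (a 2) (a 0) (a 1) hn (ha 1).ne' h02.symm
  · rw [nod, nod, oth1_GAP, oth2_GAP, mul_comm (a 0) (a 2), mul_comm (a 0) (a 1)]
    exact diff_ne_GAP n (a 2) (a 1) (a 0) hn (ha 0).ne' h12.symm

private theorem av_sub_GAP (v : ℕ) (hv : isPl v) (x y : ℚ) (A : ℝ) (hx : av v x ≤ A)
    (hy : av v y ≤ A) : av v (x - y) ≤ 2 * A := by
  have h := av_add v hv x (-y)
  rw [av_neg v hv, ← sub_eq_add_neg] at h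
  linarith

/-- the product of the three differences -/
private def Dl_GAP (n : ℤ) (a : Fin 3 → ℤ) : ℚ :=
  (nod n a 0 - nod n a 1) * (nod n a 0 - nod n a 2) * (nod n a 1 - nod n a 2)

private theorem logDV_GAP (n : ℤ) (a : Fin 3 → ℤ) (hn : n ≠ 0) (ha : ∀ j, 0 < a j)
    (hi : Function.Injective a) (v : ℕ) (hv : isPl v) :
    Real.log (av v (Dl_GAP n a)) - 2 * Real.log 2 - 2 * Real.log (AV v n a) ≤
      Real.log (DV v n a) := by
  obtain ⟨n1, n2, n3⟩ := D_ne_GAP n a hn ha hi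
  have hA := AV_pos_GAP n a hn ha v hv
  have b0 : av v (nod n a 0) ≤ AV v n a := le_max_left _ _
  have b1 : av v (nod n a 1) ≤ AV v n a := (le_max_left _ _).trans (le_max_right _ _)
  have b2 : av v (nod n a 2) ≤ AV v n a := (le_max_right _ _).trans (le_max_right _ _)
  have l1 := Real.log_le_log (av_pos v hv _ n1) (av_sub_GAP v hv _ _ _ b0 b1)
  have l2 := Real.log_le_log (av_pos v hv _ n2) (av_sub_GAP v hv _ _ _ b0 b2)
  have l3 := Real.log_le_log (av_pos v hv _ n3) (av_sub_GAP v hv _ _ _ b1 b2)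
  rw [Real.log_mul (by norm_num) hA.ne'] at l1 l2 l3
  rw [Dl_GAP, log_av_mul v hv _ _ (mul_ne_zero n1 n2) n3, log_av_mul v hv _ _ n1 n2, DV]
  rcases min_choice (av v (nod n a 0 - nod n a 1))
    (min (av v (nod n a 0 - nod n a 2)) (av v (nod n a 1 - nod n a 2))) with h | h
  · rw [h]
    linarith
  · rw [h]
    rcases min_choice (av v (nod n a 0 - nod n a 2)) (av v (nod n a 1 - nod n a 2)) with h' | h'
    · rw [h']
      linarith
    · rw [h']
      linarith

private theorem logNN_GAP (n : ℤ) (a : Fin 3 → ℤ) (c : ℤ) (ha : ∀ j, 0 < a j) (hc : 0 < c)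
    (v : ℕ) (hv : isPl v) : Real.log (av v (NN a c : ℚ)) =
      ∑ j, hh n v (a j) + hh n v c + 2 * Real.log (av v (n : ℚ)) := by
  have h0 : (a 0 : ℚ) ≠ 0 := by exact_mod_cast (ha 0).ne'
  have h1 : (a 1 : ℚ) ≠ 0 := by exact_mod_cast (ha 1).ne'
  have h2 : (a 2 : ℚ) ≠ 0 := by exact_mod_cast (ha 2).ne'
  have h3 : (c : ℚ) ≠ 0 := by exact_mod_cast hc.ne'
  rw [NN, Fin.prod_univ_three, Fin.sum_univ_three]
  push_cast
  rw [log_av_mul v hv _ _ (mul_ne_zero (mul_ne_zero h0 h1) h2) h3,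
    log_av_mul v hv _ _ (mul_ne_zero h0 h1) h2, log_av_mul v hv _ _ h0 h1, log_av_eq n v (a 0),
    log_av_eq n v (a 1), log_av_eq n v (a 2), log_av_eq n v c]
  ring

private theorem log4_GAP (v : ℕ) (hv : isPl v) : Real.log (av v 4) ≤ 2 * Real.log 2 := by
  have hl : 0 ≤ Real.log 2 := Real.log_nonneg (by norm_num)
  rcases hv with rfl | hp
  · rw [av_zero_eq]
    have : |((4 : ℚ) : ℝ)| = (2 : ℝ) ^ 2 := by norm_num
    rw [this, Real.log_pow]
    norm_num
  · have h := av_int_le v hp 4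
    have h' : av v 4 ≤ 1 := by exact_mod_cast h
    have := Real.log_nonpos (av_nonneg v (Or.inr hp) 4) h'
    linarith

private theorem place_GAP (n : ℤ) (a : Fin 3 → ℤ) (c d : ℤ) (zc zd : Fin 3 → ℤ)
    (hC : Conf n a c d zc zd) (v : ℕ) (hv : isPl v) (k r : ℕ) (hr : r ≤ 2) (L M N : ℝ)
    (hL : L ≤ Bv n a c d v + M + 15 * (k + 1) + r * Real.log (AV v n a) -
      (3 * k + 2) * Real.log (DV v n a))
    (hM : k * (∑ j, hh n v (a j) + hh n v c) + M ≤
      k * (∑ j, max (hh n v (a j)) 0 + max (hh n v c) 0) + N) :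
    k * Real.log (av v (NN a c : ℚ)) + (2 * k + 1) * Real.log (av v (Dl_GAP n a)) +
      k * Real.log (av v 4) + L ≤
    7 * (k + 1) * ∑ j, max (hh n v (a j)) 0 + (k + 1 / 2) * max (hh n v c) 0 +
      1 / 2 * max (hh n v d) 0 + (14 * k + 10 + 2 * r) * Real.log (av v (n : ℚ)) -
      (k + 1) * Real.log (av v (Dl_GAP n a)) + 21 * (k + 1) + N := by
  obtain ⟨hn, hi, ha, hc, -⟩ := hC
  have hAV := logAV_GAP n a hn ha v hv
  have hDV := logDV_GAP n a hn ha hi v hv
  have hNN := logNN_GAP n a c ha hc v hv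
  have h4 := log4_GAP v hv
  have hl2 : Real.log 2 ≤ 0.6931471808 := Real.log_two_lt_d9.le
  have hl0 : 0 ≤ Real.log 2 := Real.log_nonneg (by norm_num)
  have hS : 0 ≤ ∑ j, max (hh n v (a j)) 0 := Finset.sum_nonneg fun _ _ => le_max_right _ _
  have hk0 : (0 : ℝ) ≤ k := Nat.cast_nonneg k
  have hr0 : (0 : ℝ) ≤ r := Nat.cast_nonneg r
  have hr2 : (r : ℝ) ≤ 2 := by exact_mod_cast hr
  rw [hNN]
  rw [Bv] at hL
  have q1 := mul_le_mul_of_nonneg_left hAV hr0
  have q2 := mul_le_mul_of_nonneg_left hDV (show (0 : ℝ) ≤ 3 * k + 2 by positivity)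
  have q3 := mul_le_mul_of_nonneg_left hAV (show (0 : ℝ) ≤ 2 * (3 * k + 2) by positivity)
  have q4 := mul_le_mul_of_nonneg_left h4 hk0
  have q5 := mul_le_mul_of_nonneg_right hr2 hS
  have q6 := mul_le_mul_of_nonneg_left hl2 (show (0 : ℝ) ≤ 8 * k + 4 by positivity)
  nlinarith [q1, q2, q3, q4, q5, q6, hL, hM]

theorem hGAP (h1 : ST_PF) (h2 : ST_LLI) (h3 : ST_LVM) (h4 : ST_LVP) : ST_GAP := by
  intro n a c d zc zd hC R hR V w hV hw hw1 E hE hVV hbig
  by_contra hcon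
  rw [not_lt] at hcon
  obtain ⟨hn, hi, ha, hc, hd, -⟩ := id hC
  -- basic inequalities
  have hR1 : (1 : ℝ) ≤ R := by
    have : 1 ≤ (Pl n).card := Finset.card_pos.2 ⟨0, zero_mem_Pl n⟩
    exact_mod_cast this.trans hR
  have hE0 : 0 ≤ E := (HH_nonneg n (a 0)).trans (hE 0)
  have hH : 0 < HH n c := by linarith
  set k : ℕ := ⌊HH n d / (3 * HH n c)⌋₊ with hk
  have hq : 8 ≤ HH n d / (3 * HH n c) := by
    rw [le_div_iff₀ (by positivity)]
    linarith
  have hk8 : 8 ≤ k := Nat.le_floor (by exact_mod_cast hq)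
  have hk8' : (8 : ℝ) ≤ k := by exact_mod_cast hk8
  have hk0 : (0 : ℝ) ≤ k := Nat.cast_nonneg k
  have hkl : 3 * k * HH n c ≤ HH n d := by
    have := Nat.floor_le (show 0 ≤ HH n d / (3 * HH n c) by linarith)
    rw [← hk, le_div_iff₀ (by positivity)] at this
    linarith
  have hku : HH n d < 3 * (k + 1) * HH n c := by
    have := Nat.lt_floor_add_one (HH n d / (3 * HH n c))
    rw [← hk, div_lt_iff₀ (by positivity)] at this
    linarith
  obtain ⟨r, hr, hLL, W, hW⟩ := h2 n a c d zc zd hC k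
  obtain ⟨n1, n2, n3⟩ := D_ne_GAP n a hn ha hi
  have hDl : Dl_GAP n a ≠ 0 := mul_ne_zero (mul_ne_zero n1 n2) n3
  have hNN : (NN a c : ℚ) ≠ 0 := by
    have : NN a c ≠ 0 := by
      rw [NN]
      exact mul_ne_zero (Finset.prod_ne_zero_iff.2 fun j _ => (ha j).ne') hc.ne'
    exact_mod_cast this
  have hW' : (W : ℚ) = (NN a c : ℚ) ^ k * Dl_GAP n a ^ (2 * k + 1) * 4 ^ k *
      LL n a c zc zd k r := hW
  have hne1 : (NN a c : ℚ) ^ k * Dl_GAP n a ^ (2 * k + 1) * 4 ^ k ≠ 0 :=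
    mul_ne_zero (mul_ne_zero (pow_ne_zero _ hNN) (pow_ne_zero _ hDl)) (by positivity)
  have hW0 : W ≠ 0 := by
    intro h
    rw [h] at hW'
    exact mul_ne_zero hne1 hLL (by rw [← hW']; simp)
  have hPF := (h1 n hn).2 W hW0
  -- logarithm of the integer
  have hlogW : ∀ v ∈ Pl n, Real.log (av v (W : ℚ)) = k * Real.log (av v (NN a c : ℚ)) +
      (2 * k + 1) * Real.log (av v (Dl_GAP n a)) + k * Real.log (av v 4) +
      Real.log (av v (LL n a c zc zd k r)) := by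
    intro v hv
    have hv' := isPl_of_mem hv
    rw [hW', log_av_mul v hv' _ _ hne1 hLL, log_av_mul v hv' _ _
      (mul_ne_zero (pow_ne_zero _ hNN) (pow_ne_zero _ hDl)) (by positivity),
      log_av_mul v hv' _ _ (pow_ne_zero _ hNN) (pow_ne_zero _ hDl), log_av_pow v hv',
      log_av_pow v hv', log_av_pow v hv']
    push_cast
    ring
  -- the integer Δ
  have hDint : 0 ≤ ∑ v ∈ Pl n, Real.log (av v (Dl_GAP n a)) := by
    have e : Dl_GAP n a = (((n * oth a 0 - n * oth a 1) * (n * oth a 0 - n * oth a 2) *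
        (n * oth a 1 - n * oth a 2) : ℤ) : ℚ) := by
      rw [Dl_GAP, nod, nod, nod]
      push_cast
      ring
    rw [e]
    refine (h1 n hn).2 _ ?_
    intro h
    apply hDl
    rw [e, h]
    simp
  -- the estimate at each place
  have hpl : ∀ v ∈ Pl n, Real.log (av v (W : ℚ)) ≤
      7 * (k + 1) * ∑ j, max (hh n v (a j)) 0 + (k + 1 / 2) * max (hh n v c) 0 +
      1 / 2 * max (hh n v d) 0 + (14 * k + 10 + 2 * r) * Real.log (av v (n : ℚ)) -
      (k + 1) * Real.log (av v (Dl_GAP n a)) + 21 * (k + 1) +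
      (if v ∈ V then -(3 * k * HH n c) * w v else 0) := by
    intro v hv
    rw [hlogW v hv]
    by_cases hvV : v ∈ V
    · rw [if_pos hvV]
      obtain ⟨g1, g2, g3, g4, g5, g6⟩ := hVV v hvV
      have hL := h4 n a c d zc zd hC v hv g1 g2 g3 g6 k r hr hLL
      refine place_GAP n a c d zc zd hC v (isPl_of_mem hv) k r hr _ _ _ hL ?_
      have e1 : ∑ j, hh n v (a j) = ∑ j, max (hh n v (a j)) 0 :=
        Finset.sum_congr rfl fun j _ => (max_eq_left (g1 j)).symm
      have e2 : hh n v c ≤ max (hh n v c) 0 := le_max_left _ _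
      have e3 : max (-(3 * k * hh n v c)) (-(hh n v d)) ≤ -(3 * k * HH n c) * w v := by
        refine max_le ?_ ?_
        · have := mul_le_mul_of_nonneg_left g4 (show (0 : ℝ) ≤ 3 * k by positivity)
          linarith
        · have := mul_le_mul_of_nonneg_left hkl (hw v hvV)
          linarith
      rw [e1]
      have := mul_le_mul_of_nonneg_left e2 hk0
      linarith
    · rw [if_neg hvV]
      have hL := h3 n a c d zc zd hC v hv k r hr hLL
      refine place_GAP n a c d zc zd hC v (isPl_of_mem hv) k r hr _ _ _ hL ?_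
      have e0 : ∀ x : ℝ, x + max (-x) 0 = max x 0 := by
        intro x
        rcases le_total 0 x with h | h
        · rw [max_eq_right (by linarith), max_eq_left h, add_zero]
        · rw [max_eq_left (by linarith), max_eq_right h]
          ring
      have e1 : ∑ j, hh n v (a j) + ∑ j, max (-(hh n v (a j))) 0 =
          ∑ j, max (hh n v (a j)) 0 := by
        rw [← Finset.sum_add_distrib]
        exact Finset.sum_congr rfl fun j _ => e0 _
      have e2 := e0 (hh n v c)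
      rw [← e1, ← e2]
      apply le_of_eq
      ring
  have hsum := Finset.sum_le_sum hpl
  have hfin : (0 : ℝ) ≤ 7 * (k + 1) * ∑ j, HH n (a j) + (k + 1 / 2) * HH n c +
      1 / 2 * HH n d - (k + 1) * ∑ v ∈ Pl n, Real.log (av v (Dl_GAP n a)) +
      (Pl n).card * (21 * (k + 1)) + -(3 * k * HH n c) * ∑ v ∈ V, w v := by
    refine hPF.trans (hsum.trans (le_of_eq ?_))
    have s1 : ∑ v ∈ Pl n, ∑ j, max (hh n v (a j)) 0 = ∑ j, HH n (a j) := by
      rw [Finset.sum_comm]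
      rfl
    have s2 : ∑ v ∈ Pl n, (if v ∈ V then -(3 * k * HH n c) * w v else 0) =
        -(3 * k * HH n c) * ∑ v ∈ V, w v := by
      rw [Finset.sum_ite_mem, Finset.inter_eq_right.2 hV, Finset.mul_sum]
    have s3 := (h1 n hn).1
    simp only [Finset.sum_add_distrib, Finset.sum_sub_distrib, ← Finset.mul_sum,
      Finset.sum_const, nsmul_eq_mul]
    rw [s1, s2, s3]
    rw [HH, HH]
    ring
  -- the final contradiction
  have hEE : ∑ j, HH n (a j) ≤ 3 * E := by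
    rw [Fin.sum_univ_three]
    linarith [hE 0, hE 1, hE 2]
  have hcard : ((Pl n).card : ℝ) ≤ R := by exact_mod_cast hR
  have t1 := mul_le_mul_of_nonneg_left hEE (show (0 : ℝ) ≤ 7 * (k + 1) by positivity)
  have t2 := mul_nonneg (show (0 : ℝ) ≤ k + 1 by positivity) hDint
  have t3 := mul_le_mul_of_nonneg_right hcard (show (0 : ℝ) ≤ 21 * (k + 1) by positivity)
  have t4 := mul_le_mul_of_nonneg_left hw1 (show (0 : ℝ) ≤ 3 * k * HH n c by positivity)
  have t5 : (0 : ℝ) ≤ 21 * (k + 1) * E + 21 * (k + 1) * R + HH n c * (2 - 3 / 8 * k) := by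
    nlinarith [hfin, t1, t2, t3, t4, hku]
  have t6 : HH n c * (2 - 3 / 8 * k) ≤ HH n c * (-(1 / 8) * k) :=
    mul_le_mul_of_nonneg_left (by linarith) hH.le
  have t7 : 21 * ((k : ℝ) + 1) * (E + R) ≤ 189 / 8 * k * (E + R) :=
    mul_le_mul_of_nonneg_right (by linarith) (by linarith)
  have t8 : (k : ℝ) * (200 * E + 1000 * R) ≤ k * HH n c := mul_le_mul_of_nonneg_left hbig hk0
  have t9 : (0 : ℝ) ≤ k * E := mul_nonneg hk0 hE0
  have t10 : (0 : ℝ) < k * R := mul_pos (by linarith) (by linarith)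
  nlinarith [t5, t6, t7, t8, t9, t10]

end Pool.Agent.Helper3.DW
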