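import Mathlib
import Pool.Agent.Helper3.DW.St
import Pool.Agent.Helper15.Integral
import Pool.Agent.Helper15.Gap

set_option autoImplicit false

/-! # Module INT of project DW -/

namespace Pool.Agent.Helper3.DW

open Finset PowerSeries

private theorem G_eq_INT (h1 : ST_BC) (k : ℕ) (x α : ℝ) :
    Pool.Agent.Helper15.Pade.G k x α = G k x α := by
  unfold Pool.Agent.Helper15.Pade.G G
  ext l
  rw [coeff_mk, coeff_mk, h1.1 k l]

private theorem UU_eq_INT (a : Fin 3 → ℝ) (j : Fin 3) :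
    Pool.Agent.Helper15.Pade.UU a j = UU a j := rfl

private theorem psi_eq_INT (h1 : ST_BC) (a : Fin 3 → ℝ) (k : ℕ) (x : ℝ) (j : Fin 3) (r : ℕ) :
    Pool.Agent.Helper15.Pade.psi a k x j (Polynomial.X ^ r) = psi a k x j r := by
  rw [Pool.Agent.Helper15.Pade.psi_apply, map_pow, Pool.Agent.Helper15.Pade.sh_X, G_eq_INT h1,
    UU_eq_INT]
  rfl

private theorem disc_INT (α : Fin 3 → ℤ) (Δ : ℤ)
    (hΔdef : Δ = (α 0 - α 1) * (α 0 - α 2) * (α 1 - α 2)) :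
    ∀ j, ∃ t : ℤ, (∏ h ∈ univ.erase j, (α j - α h)) * t = Δ := by
  intro j
  fin_cases j
  · refine ⟨α 1 - α 2, ?_⟩
    show (∏ h ∈ univ.erase (0 : Fin 3), (α 0 - α h)) * (α 1 - α 2) = Δ
    rw [Pool.Agent.Helper15.Pade.erase0, prod_pair (by decide), hΔdef]
  · refine ⟨-(α 0 - α 2), ?_⟩
    show (∏ h ∈ univ.erase (1 : Fin 3), (α 1 - α h)) * _ = Δ
    rw [Pool.Agent.Helper15.Pade.erase1, prod_pair (by decide), hΔdef]; ring
  · refine ⟨α 0 - α 1, ?_⟩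
    show (∏ h ∈ univ.erase (2 : Fin 3), (α 2 - α h)) * _ = Δ
    rw [Pool.Agent.Helper15.Pade.erase2, prod_pair (by decide), hΔdef]; ring

theorem hINT (h1 : ST_BC) (h2 : ST_MAP) : ST_INT := by
  intro α hα k r N hN hNα j
  obtain ⟨M, rfl⟩ := Int.eq_ofNat_of_zero_le hN.le
  have hM : 0 < M := by exact_mod_cast hN
  have hMα : ∀ j, (M : ℝ) + α j ≠ 0 := by
    intro j h
    refine hNα j ?_
    have h3 : (((M : ℤ) + α j : ℤ) : ℝ) = 0 := by
      rw [← h]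
      push_cast
      ring
    exact_mod_cast h3
  obtain ⟨w, hw⟩ := Pool.Agent.Helper15.Pade.psi_int α hα k r M hM hMα
    ((α 0 - α 1) * (α 0 - α 2) * (α 1 - α 2)) (disc_INT α _ rfl) j
  refine ⟨w, ?_⟩
  rw [psi_eq_INT h1] at hw
  have h4 := (h2 ℝ (fun i => ((α i : ℤ) : ℚ)) k).1 (1 / (M : ℚ)) j r
  have h5 : (fun i => (((fun i => ((α i : ℤ) : ℚ)) i : ℚ) : ℝ)) = fun i => ((α i : ℤ) : ℝ) := by
    funext i
    push_cast
    rfl
  have h6 : (((1 / (M : ℚ)) : ℚ) : ℝ) = 1 / (M : ℝ) := by push_cast; rfl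
  rw [h5, h6] at h4
  rw [h4] at hw
  have h7 : ((w : ℚ) : ℝ) = (((((M : ℤ) : ℚ)) ^ k *
      (((α 0 - α 1) * (α 0 - α 2) * (α 1 - α 2) : ℤ) : ℚ) ^ (k + 1) *
      (4 * (((α 0 - α 1) * (α 0 - α 2) * (α 1 - α 2) : ℤ) : ℚ)) ^ k *
      psi (fun i => ((α i : ℤ) : ℚ)) k (1 / (M : ℚ)) j r : ℚ) : ℝ) := by
    push_cast at hw ⊢
    exact hw
  have h8 := Rat.cast_injective (α := ℝ) h7
  rw [h8]
  push_cast
  rfl

end Pool.Agent.Helper3.DW
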