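import Mathlib
import Pool.Agent.Helper3.DW.St2

set_option autoImplicit false

/-! # Project DW, module LLI -/

namespace Pool.Agent.Helper3.DW

open Finset

private theorem oth_mul_LLI (a : Fin 3 → ℤ) (j : Fin 3) : a j * oth a j = ∏ i, a i := by
  unfold oth
  exact Finset.mul_prod_erase univ a (mem_univ j)

private theorem oth_pos_LLI (a : Fin 3 → ℤ) (ha : ∀ j, 0 < a j) (j : Fin 3) : 0 < oth a j := by
  unfold oth
  exact Finset.prod_pos fun i _ => ha i

theorem hLLI (h1 : ST_INT) (h2 : ST_NV) : ST_LLI := by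
  intro n a c d zc zd hC k
  obtain ⟨hn, hinj, hapos, hc, hd, hzc, hzd, hzc2, hzd2⟩ := hC
  have hP : 0 < ∏ i, a i := Finset.prod_pos fun i _ => hapos i
  have hN : 0 < NN a c := mul_pos hP hc
  set α : Fin 3 → ℤ := fun j => n * oth a j with hα
  have hαinj : Function.Injective α := by
    intro i j hij
    have h3 : oth a i = oth a j := mul_left_cancel₀ hn hij
    have h4 : a i * oth a i = a j * oth a j := by rw [oth_mul_LLI, oth_mul_LLI]
    rw [h3] at h4
    exact hinj (mul_right_cancel₀ (oth_pos_LLI a hapos j).ne' h4)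
  have hsum : ∀ j, NN a c + α j = oth a j * zc j ^ 2 := by
    intro j
    have h3 := oth_mul_LLI a j
    rw [hzc2 j]
    simp only [NN, hα]
    rw [← h3]
    ring
  have hsum0 : ∀ j, NN a c + α j ≠ 0 := by
    intro j
    rw [hsum j]
    exact (mul_pos (oth_pos_LLI a hapos j) (pow_pos (hzc j) 2)).ne'
  have hnod : nod n a = fun i => ((α i : ℤ) : ℚ) := by
    funext i
    simp only [nod, hα]
    push_cast
    ring
  have hNq : (NN a c : ℚ) ≠ 0 := by
    exact_mod_cast hN.ne'
  -- nonvanishing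
  have hninj : Function.Injective (nod n a) := by
    rw [hnod]
    intro i j hij
    have h3 : ((α i : ℤ) : ℚ) = ((α j : ℤ) : ℚ) := hij
    exact hαinj (by exact_mod_cast h3)
  obtain ⟨r, hr, hLL⟩ := h2 (nod n a) hninj k (1 / (NN a c : ℚ)) (by
      exact one_div_ne_zero hNq) (by
      intro j
      have h3 : 1 + nod n a j * (1 / (NN a c : ℚ)) = ((NN a c + α j : ℤ) : ℚ) / (NN a c : ℚ) := by
        rw [hnod]
        push_cast
        field_simp
      rw [h3]
      exact div_ne_zero (by exact_mod_cast hsum0 j) hNq)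
    (fun j => ((oth a j * zc j * zd j : ℤ) : ℚ)) ⟨0, by
      have h3 : (0 : ℤ) < oth a 0 * zc 0 * zd 0 :=
        mul_pos (mul_pos (oth_pos_LLI a hapos 0) (hzc 0)) (hzd 0)
      exact_mod_cast h3.ne'⟩
  refine ⟨r, by omega, hLL, ?_⟩
  -- integrality
  choose w hw using fun j => h1 α hαinj k r (NN a c) hN hsum0 j
  refine ⟨∑ j, (oth a j * zc j * zd j) * w j, ?_⟩
  have hΔ : (((α 0 - α 1) * (α 0 - α 2) * (α 1 - α 2) : ℤ) : ℚ) =
      (nod n a 0 - nod n a 1) * (nod n a 0 - nod n a 2) * (nod n a 1 - nod n a 2) := by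
    rw [hnod]
    push_cast
    ring
  rw [Int.cast_sum, LL, Finset.mul_sum]
  refine Finset.sum_congr rfl fun j _ => ?_
  have h4 := hw j
  rw [hΔ, ← hnod] at h4
  rw [Int.cast_mul, h4]
  generalize (nod n a 0 - nod n a 1) * (nod n a 0 - nod n a 2) * (nod n a 1 - nod n a 2) = D
  generalize psi (nod n a) k (1 / (NN a c : ℚ)) j r = Q
  ring

end Pool.Agent.Helper3.DW
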