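import Mathlib
import Pool.Agent.Helper3.DW.St

set_option autoImplicit false

namespace Pool.Agent.Helper3.DW

open Finset

theorem hLP (h1 : ST_REM) (h2 : ST_PSI) (h3 : ST_TH) : ST_LP := by
  intro K _ _ _ hbc b hb k r hr x A δ hδ hA hD hxA v e q0 q η hq hq0 hη hη2 he hv hs
  -- basic facts
  have hA0 : 0 ≤ A := le_trans (norm_nonneg _) (hA 0)
  set X : ℝ := ‖x‖ * A with hX
  have hX0 : 0 ≤ X := mul_nonneg (norm_nonneg _) hA0
  set a : Fin 3 → K := fun i => ((b i : ℚ) : K) with ha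
  have hbx : ∀ j, ‖a j * x‖ ≤ 1 / 64 := by
    intro j
    rw [norm_mul]
    calc ‖a j‖ * ‖x‖ ≤ A * ‖x‖ := mul_le_mul_of_nonneg_right (hA j) (norm_nonneg _)
      _ = X := by rw [hX]; ring
      _ ≤ 1 / 64 := hxA
  set t : Fin 3 → K := fun j => th (a j * x) with ht
  have ht2 : ∀ j, t j ^ 2 = 1 + a j * x := fun j => (h3 K hbc (a j * x) (hbx j)).1
  have ht1 : ∀ j, ‖t j - 1‖ ≤ 1 / 8 := by
    intro j
    have := (h3 K hbc (a j * x) (hbx j)).2
    have h := hbx j
    calc ‖t j - 1‖ ≤ 8 * ‖a j * x‖ := this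
      _ ≤ 1 / 8 := by linarith
  have htu : ∀ j, ‖t j‖ ≤ 9 / 8 := by
    intro j
    have h := norm_add_le (t j - 1) 1
    rw [sub_add_cancel, norm_one] at h
    have := ht1 j
    linarith
  have htl : ∀ j, 7 / 8 ≤ ‖t j‖ := by
    intro j
    have h := norm_sub_norm_le (1 : K) (1 - t j)
    rw [norm_one, sub_sub_cancel] at h
    have h' := ht1 j
    rw [norm_sub_rev] at h'
    linarith
  have ht0 : ∀ j, t j ≠ 0 := by
    intro j h
    have := htl j
    rw [h, norm_zero] at this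
    norm_num at this
  have h1b : ∀ j, 1 + a j * x ≠ 0 := by
    intro j h
    have := ht2 j
    rw [h] at this
    exact ht0 j (pow_eq_zero_iff (two_ne_zero) |>.1 this)
  set Q : Fin 3 → K := fun j => v j / t j with hQ
  have hvQ : ∀ j, v j = t j * Q j := by
    intro j
    rw [hQ]
    field_simp [ht0 j]
  have hQ2 : ∀ j, Q j ^ 2 = q0 * (1 + e j) := by
    intro j
    have h := hv j
    change v j ^ 2 = q0 * (1 + a j * x) * (1 + e j) at h
    rw [hvQ j, mul_pow, ← ht2 j] at h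
    have : t j ^ 2 * (Q j ^ 2 - q0 * (1 + e j)) = 0 := by linear_combination h
    rcases mul_eq_zero.1 this with h' | h'
    · exact absurd h' (pow_ne_zero _ (ht0 j))
    · exact sub_eq_zero.1 h'
  have hsQ : ∀ j, ‖Q 0‖ / 2 ≤ ‖Q j + Q 0‖ := by
    intro j
    have h := hs j
    change ‖v 0 * t j‖ / 2 ≤ ‖v j * t 0 + v 0 * t j‖ at h
    have e1 : v 0 * t j = (t 0 * t j) * Q 0 := by rw [hvQ 0]; ring
    have e2 : v j * t 0 + v 0 * t j = (t 0 * t j) * (Q j + Q 0) := by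
      rw [hvQ 0, hvQ j]; ring
    rw [e2, e1, norm_mul, norm_mul (t 0 * t j)] at h
    have hp : 0 < ‖t 0 * t j‖ := norm_pos_iff.2 (mul_ne_zero (ht0 0) (ht0 j))
    by_contra hc
    push Not at hc
    have := mul_lt_mul_of_pos_left hc hp
    linarith
  have he0 := he 0
  -- size of Q 0
  have hQn : ‖Q 0‖ ^ 2 = q ^ 2 * ‖1 + e 0‖ := by
    rw [← norm_pow, hQ2 0, norm_mul, hq0]
  have hu : ‖1 + e 0‖ ≤ 65 / 64 := by
    have h := norm_add_le (1 : K) (e 0)
    rw [norm_one] at h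
    linarith
  have hl : 63 / 64 ≤ ‖1 + e 0‖ := by
    have h := norm_sub_norm_le (1 : K) (-(e 0))
    rw [norm_one, norm_neg, sub_neg_eq_add] at h
    linarith
  have hQl : 7 / 8 * q ≤ ‖Q 0‖ := by
    apply le_of_sq_le_sq _ (norm_nonneg _)
    rw [hQn]
    have : 0 ≤ q ^ 2 := sq_nonneg q
    nlinarith
  have hQu : ‖Q 0‖ ≤ 2 * q := by
    apply le_of_sq_le_sq _ (by positivity)
    rw [hQn]
    have : 0 ≤ q ^ 2 := sq_nonneg q
    nlinarith
  have hdif : ∀ j, ‖Q j - Q 0‖ ≤ 5 * q * η := by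
    intro j
    have e1 : (Q j - Q 0) * (Q j + Q 0) = q0 * (e j - e 0) := by
      have h1 := hQ2 j
      have h2 := hQ2 0
      linear_combination h1 - h2
    have e2 : ‖Q j - Q 0‖ * ‖Q j + Q 0‖ ≤ q ^ 2 * (2 * η) := by
      rw [← norm_mul, e1, norm_mul, hq0]
      apply mul_le_mul_of_nonneg_left _ (sq_nonneg q)
      have h1 := norm_sub_le (e j) (e 0)
      have h2 := he j
      linarith
    have e3 : 7 / 16 * q ≤ ‖Q j + Q 0‖ := by
      have := hsQ j
      linarith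
    have e4 : ‖Q j - Q 0‖ * (7 / 16 * q) ≤ q ^ 2 * (2 * η) :=
      le_trans (mul_le_mul_of_nonneg_left e3 (norm_nonneg _)) e2
    have e5 : ‖Q j - Q 0‖ * 7 ≤ 32 * q * η := by
      have : (‖Q j - Q 0‖ * 7) * q ≤ (32 * q * η) * q := by nlinarith
      exact le_of_mul_le_mul_right this hq
    have : 0 ≤ q * η := mul_nonneg hq.le hη
    nlinarith
  -- decomposition
  have hdec : ∑ j, v j * psi a k x j r =
      Q 0 * (∑ j, t j * psi a k x j r) + ∑ j, t j * (Q j - Q 0) * psi a k x j r := by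
    rw [mul_sum, ← sum_add_distrib]
    apply sum_congr rfl
    intro j _
    rw [hvQ j]; ring
  have hrem := h1 K hbc b hb k r hr x A δ hδ hA hD hxA
  change ‖∑ j, t j * psi a k x j r‖ ≤ _ at hrem
  have hpsi : ∀ j, ‖psi a k x j r‖ ≤ 64 ^ (k + 1) * A ^ r * (1 / δ) ^ (3 * k + 2) := by
    intro j
    have h := h2 K hbc a k x A δ hδ hA hD h1b j r hr
    have hm : max 1 (‖x‖ * A) = 1 := max_eq_left (by linarith)
    rw [hm, one_pow, mul_one] at h
    exact h
  set W : ℝ := A ^ r * (1 / δ) ^ (3 * k + 2) with hW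
  have hW0 : 0 ≤ W := by positivity
  set M : ℝ := max (X ^ (3 * k + 2 - r)) η with hM
  have hM0 : 0 ≤ M := le_trans hη (le_max_right _ _)
  have hb1 : ‖Q 0 * (∑ j, t j * psi a k x j r)‖ ≤ 2 * q * (8192 ^ (k + 1) * (M * W)) := by
    rw [norm_mul]
    apply mul_le_mul hQu _ (norm_nonneg _) (by positivity)
    calc ‖∑ j, t j * psi a k x j r‖ ≤
        8192 ^ (k + 1) * X ^ (3 * k + 2 - r) * A ^ r * (1 / δ) ^ (3 * k + 2) := hrem
      _ = 8192 ^ (k + 1) * (X ^ (3 * k + 2 - r) * W) := by rw [hW]; ring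
      _ ≤ 8192 ^ (k + 1) * (M * W) := by
          apply mul_le_mul_of_nonneg_left _ (by positivity)
          exact mul_le_mul_of_nonneg_right (le_max_left _ _) hW0
  have hb2 : ‖∑ j, t j * (Q j - Q 0) * psi a k x j r‖ ≤ 17 * q * (64 ^ (k + 1) * (M * W)) := by
    have hone : ∀ j ∈ (univ : Finset (Fin 3)), ‖t j * (Q j - Q 0) * psi a k x j r‖ ≤
        9 / 8 * (5 * q * η) * (64 ^ (k + 1) * W) := by
      intro j _
      rw [norm_mul, norm_mul]
      apply mul_le_mul _ _ (norm_nonneg _) (by positivity)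
      · exact mul_le_mul (htu j) (hdif j) (norm_nonneg _) (by norm_num)
      · calc ‖psi a k x j r‖ ≤ 64 ^ (k + 1) * A ^ r * (1 / δ) ^ (3 * k + 2) := hpsi j
          _ = 64 ^ (k + 1) * W := by rw [hW]; ring
    calc ‖∑ j, t j * (Q j - Q 0) * psi a k x j r‖ ≤
        ∑ j : Fin 3, 9 / 8 * (5 * q * η) * (64 ^ (k + 1) * W) := norm_sum_le_of_le _ hone
      _ = 3 * (9 / 8 * (5 * q * η) * (64 ^ (k + 1) * W)) := by
          rw [sum_const, card_univ, Fintype.card_fin, nsmul_eq_mul]; norm_num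
      _ ≤ 17 * q * (64 ^ (k + 1) * (M * W)) := by
          have hηM : η ≤ M := le_max_right _ _
          have h64 : (0 : ℝ) ≤ 64 ^ (k + 1) * W := by positivity
          have : η * (64 ^ (k + 1) * W) ≤ M * (64 ^ (k + 1) * W) :=
            mul_le_mul_of_nonneg_right hηM h64
          have h0 : 0 ≤ η * (64 ^ (k + 1) * W) := mul_nonneg hη h64
          have h1' : 0 ≤ M * (64 ^ (k + 1) * W) := mul_nonneg hM0 h64
          calc 3 * (9 / 8 * (5 * q * η) * (64 ^ (k + 1) * W))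
              = 135 / 8 * q * (η * (64 ^ (k + 1) * W)) := by ring
            _ ≤ 17 * q * (η * (64 ^ (k + 1) * W)) := by
                apply mul_le_mul_of_nonneg_right _ h0
                nlinarith
            _ ≤ 17 * q * (M * (64 ^ (k + 1) * W)) :=
                mul_le_mul_of_nonneg_left this (by positivity)
            _ = _ := by ring
  have hcon : 2 * (8192 : ℝ) ^ (k + 1) + 17 * 64 ^ (k + 1) ≤ 32768 ^ (k + 1) := by
    have e1 : (8192 : ℝ) ^ (k + 1) = 128 ^ (k + 1) * 64 ^ (k + 1) := by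
      rw [← mul_pow]; norm_num
    have e2 : (32768 : ℝ) ^ (k + 1) = 4 ^ (k + 1) * 8192 ^ (k + 1) := by
      rw [← mul_pow]; norm_num
    have e3 : (128 : ℝ) ≤ 128 ^ (k + 1) := by
      calc (128 : ℝ) = 128 ^ 1 := by norm_num
        _ ≤ 128 ^ (k + 1) := pow_le_pow_right₀ (by norm_num) (by omega)
    have e4 : (4 : ℝ) ≤ 4 ^ (k + 1) := by
      calc (4 : ℝ) = 4 ^ 1 := by norm_num
        _ ≤ 4 ^ (k + 1) := pow_le_pow_right₀ (by norm_num) (by omega)
    have p1 : (0 : ℝ) < 64 ^ (k + 1) := by positivity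
    have p2 : (0 : ℝ) < 8192 ^ (k + 1) := by positivity
    have f1 : 17 * (64 : ℝ) ^ (k + 1) ≤ 8192 ^ (k + 1) := by
      rw [e1]
      apply mul_le_mul_of_nonneg_right _ p1.le
      linarith
    have f2 : 4 * (8192 : ℝ) ^ (k + 1) ≤ 32768 ^ (k + 1) := by
      rw [e2]
      exact mul_le_mul_of_nonneg_right e4 p2.le
    linarith
  change ‖∑ j, v j * psi a k x j r‖ ≤ 32768 ^ (k + 1) * q * M * A ^ r * (1 / δ) ^ (3 * k + 2)
  rw [hdec]
  calc ‖Q 0 * (∑ j, t j * psi a k x j r) + ∑ j, t j * (Q j - Q 0) * psi a k x j r‖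
      ≤ 2 * q * (8192 ^ (k + 1) * (M * W)) + 17 * q * (64 ^ (k + 1) * (M * W)) :=
        le_trans (norm_add_le _ _) (add_le_add hb1 hb2)
    _ = (2 * 8192 ^ (k + 1) + 17 * 64 ^ (k + 1)) * (q * (M * W)) := by ring
    _ ≤ 32768 ^ (k + 1) * (q * (M * W)) :=
        mul_le_mul_of_nonneg_right hcon (by positivity)
    _ = 32768 ^ (k + 1) * q * M * A ^ r * (1 / δ) ^ (3 * k + 2) := by rw [hW]; ring

end Pool.Agent.Helper3.DW
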