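import Mathlib
import Pool.Agent.Helper3.DW.St2

set_option autoImplicit false

/-! # Module LVK: local estimate at a place where everything is large -/

namespace Pool.Agent.Helper3.DW

open Finset

private theorem oth_mul_LVK (a : Fin 3 → ℤ) (j : Fin 3) : oth a j * a j = ∏ i, a i := by
  rw [oth, mul_comm]; exact Finset.mul_prod_erase univ a (Finset.mem_univ j)

private theorem oth_ne_LVK (a : Fin 3 → ℤ) (hpos : ∀ j, 0 < a j) (j : Fin 3) : oth a j ≠ 0 := by
  unfold oth
  exact Finset.prod_ne_zero_iff.2 (fun h _ => (hpos h).ne')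

private theorem nod_inj_LVK (n : ℤ) (a : Fin 3 → ℤ) (hn : n ≠ 0) (ha : Function.Injective a)
    (hpos : ∀ j, 0 < a j) : Function.Injective (nod n a) := by
  intro i j hij
  unfold nod at hij
  have hnq : (n : ℚ) ≠ 0 := by exact_mod_cast hn
  have h1 : (oth a i : ℚ) = oth a j := mul_left_cancel₀ hnq hij
  have h2 : oth a i = oth a j := by exact_mod_cast h1
  have h3 := oth_mul_LVK a i
  have h4 := oth_mul_LVK a j
  apply ha
  have h6 : oth a i * a i = oth a i * a j := by rw [h3, h2, h4]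
  exact mul_left_cancel₀ (oth_ne_LVK a hpos i) h6

private theorem le_AV_LVK (v : ℕ) (n : ℤ) (a : Fin 3 → ℤ) (j : Fin 3) :
    av v (nod n a j) ≤ AV v n a := by
  unfold AV
  fin_cases j
  · exact le_max_left _ _
  · exact le_trans (le_max_left _ _) (le_max_right _ _)
  · exact le_trans (le_max_right _ _) (le_max_right _ _)

private theorem AV_le_LVK (v : ℕ) (n : ℤ) (a : Fin 3 → ℤ) (B : ℝ)
    (h : ∀ j, av v (nod n a j) ≤ B) : AV v n a ≤ B := by
  unfold AV
  exact max_le (h 0) (max_le (h 1) (h 2))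

private theorem DV_le_LVK (v : ℕ) (hv : isPl v) (n : ℤ) (a : Fin 3 → ℤ) (i j : Fin 3)
    (hij : i ≠ j) : DV v n a ≤ av v (nod n a i - nod n a j) := by
  have h01 : DV v n a ≤ av v (nod n a 0 - nod n a 1) := min_le_left _ _
  have h02 : DV v n a ≤ av v (nod n a 0 - nod n a 2) :=
    le_trans (min_le_right _ _) (min_le_left _ _)
  have h12 : DV v n a ≤ av v (nod n a 1 - nod n a 2) :=
    le_trans (min_le_right _ _) (min_le_right _ _)
  have hs : ∀ x y : ℚ, av v (x - y) = av v (y - x) := fun x y => by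
    rw [← av_neg v hv (x - y), neg_sub]
  fin_cases i <;> fin_cases j
  · exact absurd rfl hij
  · exact h01
  · exact h02
  · show DV v n a ≤ av v (nod n a 1 - nod n a 0)
    rw [hs]; exact h01
  · exact absurd rfl hij
  · exact h12
  · show DV v n a ≤ av v (nod n a 2 - nod n a 0)
    rw [hs]; exact h02
  · show DV v n a ≤ av v (nod n a 2 - nod n a 1)
    rw [hs]; exact h12
  · exact absurd rfl hij

private theorem DV_pos_LVK (v : ℕ) (hv : isPl v) (n : ℤ) (a : Fin 3 → ℤ)
    (hinj : Function.Injective (nod n a)) : 0 < DV v n a := by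
  have h : ∀ i j : Fin 3, i ≠ j → 0 < av v (nod n a i - nod n a j) := fun i j hij =>
    av_pos v hv _ (sub_ne_zero.2 (fun h => hij (hinj h)))
  unfold DV
  exact lt_min (h 0 1 (by decide)) (lt_min (h 0 2 (by decide)) (h 1 2 (by decide)))

private theorem nodx_LVK (n : ℤ) (a : Fin 3 → ℤ) (c : ℤ) (hpos : ∀ j, 0 < a j) (hc : 0 < c)
    (j : Fin 3) : nod n a j * (1 / (NN a c : ℚ)) = (n : ℚ) / ((a j : ℚ) * (c : ℚ)) := by
  have h1 : (oth a j : ℚ) ≠ 0 := by exact_mod_cast oth_ne_LVK a hpos j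
  have h2 : (a j : ℚ) ≠ 0 := by exact_mod_cast (hpos j).ne'
  have h3 : (c : ℚ) ≠ 0 := by exact_mod_cast hc.ne'
  unfold nod NN
  rw [← oth_mul_LVK a j]
  push_cast
  field_simp

theorem hLVK (h1 : ST_BC) (h2 : ST_LP) (h3 : ST_MAP) : ST_LVK := by
  intro K _ _ _ v hK n a c d zc zd hconf hvn hha hhc hhd hsign k r hr hLL
  obtain ⟨hn, hainj, hapos, hcpos, hdpos, hzc, hzd, hzc2, hzd2⟩ := hconf
  have hv : isPl v := isPl_of_mem hvn
  have hninj := nod_inj_LVK n a hn hainj hapos
  have hnq : (n : ℚ) ≠ 0 := by exact_mod_cast hn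
  have haq : ∀ j, (a j : ℚ) ≠ 0 := fun j => by exact_mod_cast (hapos j).ne'
  have hcq : (c : ℚ) ≠ 0 := by exact_mod_cast hcpos.ne'
  have hdq : (d : ℚ) ≠ 0 := by exact_mod_cast hdpos.ne'
  have hlog64 : (0 : ℝ) ≤ Real.log 64 := Real.log_nonneg (by norm_num)
  -- the data for LP
  set A : ℝ := AV v n a with hA
  set δ : ℝ := DV v n a with hδ
  have hδpos : 0 < δ := DV_pos_LVK v hv n a hninj
  have hApos : 0 < A := lt_of_lt_of_le (av_pos v hv _ (by
    have := oth_ne_LVK a hapos 0
    have h' : (oth a 0 : ℚ) ≠ 0 := by exact_mod_cast this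
    exact mul_ne_zero hnq h')) (le_AV_LVK v n a 0)
  set x : ℚ := 1 / (NN a c : ℚ) with hx
  have hNNpos : 0 < NN a c := by
    unfold NN
    exact mul_pos (Finset.prod_pos fun j _ => hapos j) hcpos
  have hNNq : (NN a c : ℚ) ≠ 0 := by exact_mod_cast hNNpos.ne'
  have hxq : x ≠ 0 := by rw [hx]; exact one_div_ne_zero hNNq
  have hxpos : 0 < av v x := av_pos v hv x hxq
  have hbx : ∀ j, nod n a j * x = (n : ℚ) / ((a j : ℚ) * (c : ℚ)) := fun j =>
    nodx_LVK n a c hapos hcpos j
  -- size of `x * A`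
  have hu : av v x * A ≤ Real.exp (-(hh n v c)) := by
    rw [mul_comm]
    rw [← le_div_iff₀ hxpos]
    apply AV_le_LVK
    intro j
    rw [le_div_iff₀ hxpos, ← av_mul v hv, hbx j]
    have h5 : 0 < av v ((n : ℚ) / ((a j : ℚ) * (c : ℚ))) :=
      av_pos v hv _ (div_ne_zero hnq (mul_ne_zero (haq j) hcq))
    rw [← Real.log_le_log_iff h5 (Real.exp_pos _), Real.log_exp,
      log_av_ratio n v hv (a j) c hn (hapos j).ne' hcpos.ne']
    have := hha j
    linarith
  have hupos : 0 < av v x * A := mul_pos hxpos hApos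
  have hexp64 : Real.exp (-(Real.log 64)) = 1 / 64 := by
    rw [Real.exp_neg, Real.exp_log (by norm_num)]; norm_num
  have hu64 : av v x * A ≤ 1 / 64 := by
    refine le_trans hu ?_
    rw [← hexp64]
    exact Real.exp_le_exp.2 (by linarith)
  set q0 : ℚ := (∏ j, (a j : ℚ)) ^ 2 * c * d with hq0
  have hprodq : (∏ j, (a j : ℚ)) ≠ 0 := Finset.prod_ne_zero_iff.2 fun j _ => haq j
  have hq0ne : q0 ≠ 0 := mul_ne_zero (mul_ne_zero (pow_ne_zero _ hprodq) hcq) hdq
  have hq0pos : 0 < av v q0 := av_pos v hv q0 hq0ne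
  set η : ℝ := Real.exp (-(hh n v d)) with hη
  have hη64 : η ≤ 1 / 64 := by
    rw [hη, ← hexp64]
    exact Real.exp_le_exp.2 (by linarith)
  have hBC : ∀ k l : ℕ, ‖((bc k l : ℚ) : K)‖ ≤ 2 ^ k * 4 ^ l := fun k l => by
    rw [hK]; exact h1.2 v hv k l
  have hprodK : ∀ j, ((oth a j : ℤ) : K) * (a j : K) = ∏ i, (a i : K) := fun j => by
    rw [← Int.cast_mul, oth_mul_LVK a j]; push_cast; rfl
  have haK : ∀ j, (a j : K) ≠ 0 := fun j => by exact_mod_cast (hapos j).ne'
  have hcK : (c : K) ≠ 0 := by exact_mod_cast hcpos.ne'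
  have hdK : (d : K) ≠ 0 := by exact_mod_cast hdpos.ne'
  have hbxK : ∀ j, ((nod n a j : ℚ) : K) * (x : K) = (n : K) / (a j * c) := fun j => by
    have := hbx j
    have h6 : ((nod n a j * x : ℚ) : K) = (((n : ℚ) / ((a j : ℚ) * (c : ℚ)) : ℚ) : K) := by
      rw [this]
    push_cast at h6
    exact h6
  have hmain := h2 K hBC (nod n a) hninj k r hr (x : K) A δ hδpos
    (fun j => by rw [hK]; exact le_AV_LVK v n a j)
    (fun i j hij => by
      rw [← Rat.cast_sub, hK]; exact DV_le_LVK v hv n a i j hij)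
    (by rw [hK]; exact hu64)
    (fun j => ((oth a j * (zc j * zd j) : ℤ) : K)) (fun j => (n : K) / (a j * d)) ((q0 : ℚ) : K)
    (Real.sqrt (av v q0)) η (Real.sqrt_pos.2 hq0pos)
    (by rw [hK, Real.sq_sqrt hq0pos.le]) (Real.exp_pos _).le hη64
    (fun j => by
      have h7 : (n : K) / (a j * d) = (((n : ℚ) / ((a j : ℚ) * (d : ℚ)) : ℚ) : K) := by
        push_cast; rfl
      rw [h7, hK]
      have h5 : 0 < av v ((n : ℚ) / ((a j : ℚ) * (d : ℚ))) :=
        av_pos v hv _ (div_ne_zero hnq (mul_ne_zero (haq j) hdq))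
      rw [hη, ← Real.log_le_log_iff h5 (Real.exp_pos _), Real.log_exp,
        log_av_ratio n v hv (a j) d hn (hapos j).ne' hdpos.ne']
      have := hha j
      linarith)
    (fun j => by
      rw [hbxK j]
      have e1 : ((zc j : ℤ) : K) ^ 2 = a j * c + n := by exact_mod_cast congrArg (Int.cast : ℤ → K) (hzc2 j)
      have e2 : ((zd j : ℤ) : K) ^ 2 = a j * d + n := by exact_mod_cast congrArg (Int.cast : ℤ → K) (hzd2 j)
      have e3 : ((q0 : ℚ) : K) = (((oth a j : ℤ) : K) * (a j : K)) ^ 2 * c * d := by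
        rw [hprodK j, hq0]; push_cast; rfl
      rw [e3]
      have hha' := haK j
      have e4 : (((oth a j * (zc j * zd j) : ℤ) : K)) ^ 2 =
          ((oth a j : ℤ) : K) ^ 2 * (((zc j : ℤ) : K) ^ 2 * ((zd j : ℤ) : K) ^ 2) := by
        push_cast; ring
      rw [e4, e1, e2]
      field_simp)
    (fun j => by
      rw [hbxK j, hbxK 0]
      exact hsign j)
  -- identify the sum
  have hsum : ∑ j, ((oth a j * (zc j * zd j) : ℤ) : K) *
      psi (fun i => ((nod n a i : ℚ) : K)) k (x : K) j r = ((LL n a c zc zd k r : ℚ) : K) := by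
    unfold LL
    push_cast
    refine Finset.sum_congr rfl fun j _ => ?_
    have h8 := (h3 K (nod n a) k).1 x j r
    rw [h8, hx]
    push_cast
    ring
  rw [hsum, hK] at hmain
  have hLLpos : 0 < av v (LL n a c zc zd k r) := av_pos v hv _ hLL
  -- bound for the max
  have hmax : max ((‖(x : K)‖ * A) ^ (3 * k + 2 - r)) η ≤
      Real.exp (max (-(3 * k * hh n v c)) (-(hh n v d))) := by
    rw [hK]
    apply max_le
    · calc (av v x * A) ^ (3 * k + 2 - r) ≤ (Real.exp (-(hh n v c))) ^ (3 * k + 2 - r) :=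
            pow_le_pow_left₀ hupos.le hu _
        _ = Real.exp (((3 * k + 2 - r : ℕ) : ℝ) * (-(hh n v c))) := by
            rw [← Real.exp_nat_mul]
        _ ≤ Real.exp (max (-(3 * k * hh n v c)) (-(hh n v d))) := by
            apply Real.exp_le_exp.2
            refine le_trans ?_ (le_max_left _ _)
            have h9 : ((3 * k : ℕ) : ℝ) ≤ ((3 * k + 2 - r : ℕ) : ℝ) := by
              exact_mod_cast (by omega : 3 * k ≤ 3 * k + 2 - r)
            push_cast at h9
            have h10 : 0 ≤ hh n v c := le_trans hlog64 hhc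
            nlinarith
    · rw [hη]
      exact Real.exp_le_exp.2 (le_max_right _ _)
  have hfin : av v (LL n a c zc zd k r) ≤ 32768 ^ (k + 1) * Real.sqrt (av v q0) *
      Real.exp (max (-(3 * k * hh n v c)) (-(hh n v d))) * A ^ r * (1 / δ) ^ (3 * k + 2) := by
    refine le_trans hmain ?_
    have h11 : 0 ≤ (1 / δ) ^ (3 * k + 2) := by positivity
    have h12 : 0 ≤ A ^ r := by positivity
    have h13 : (0 : ℝ) ≤ 32768 ^ (k + 1) * Real.sqrt (av v q0) := by positivity
    exact mul_le_mul_of_nonneg_right (mul_le_mul_of_nonneg_right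
      (mul_le_mul_of_nonneg_left hmax h13) h12) h11
  have hlog := Real.log_le_log hLLpos hfin
  have hs : 0 < Real.sqrt (av v q0) := Real.sqrt_pos.2 hq0pos
  rw [Real.log_mul (by positivity) (by positivity), Real.log_mul (by positivity) (by positivity),
    Real.log_mul (by positivity) (by positivity), Real.log_mul (by positivity) (by positivity),
    Real.log_pow, Real.log_exp, Real.log_pow, Real.log_pow, Real.log_sqrt hq0pos.le, one_div,
    Real.log_inv] at hlog
  have hlogq : Real.log (av v q0) = 2 * ∑ j, hh n v (a j) + hh n v c + hh n v d +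
      4 * Real.log (av v (n : ℚ)) := by
    rw [hq0, log_av_mul v hv _ _ (mul_ne_zero (pow_ne_zero _ hprodq) hcq) hdq,
      log_av_mul v hv _ _ (pow_ne_zero _ hprodq) hcq, log_av_pow v hv, Fin.prod_univ_three,
      log_av_mul v hv _ _ (mul_ne_zero (haq 0) (haq 1)) (haq 2),
      log_av_mul v hv _ _ (haq 0) (haq 1), log_av_eq n v (a 0), log_av_eq n v (a 1),
      log_av_eq n v (a 2), log_av_eq n v c, log_av_eq n v d, Fin.sum_univ_three]
    push_cast
    ring
  have hB : Bv n a c d v = Real.log (av v q0) / 2 := by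
    rw [hlogq]
    unfold Bv
    have h10 : 0 ≤ hh n v c := le_trans hlog64 hhc
    have h14 : 0 ≤ hh n v d := le_trans hlog64 hhd
    rw [max_eq_left h10, max_eq_left h14, Finset.sum_congr rfl (fun j _ => max_eq_left (hha j))]
    ring
  have hc15 : Real.log 32768 ≤ 15 := by
    have h15 : (32768 : ℝ) = 2 ^ 15 := by norm_num
    rw [h15, Real.log_pow]
    have := Real.log_two_lt_d9
    push_cast
    linarith
  have hc15' : ((k + 1 : ℕ) : ℝ) * Real.log 32768 ≤ 15 * (k + 1) := by
    push_cast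
    have : (0 : ℝ) ≤ (k : ℝ) + 1 := by positivity
    nlinarith
  rw [hB]
  push_cast at hlog hc15' ⊢
  linarith

end Pool.Agent.Helper3.DW
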