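import Mathlib
import Pool.Agent.Helper3.DW.St2

set_option autoImplicit false

/-! # Module LVM: the trivial local estimate for the linear form -/

namespace Pool.Agent.Helper3.DW

open Finset

private theorem z_LVM (v : ℕ) (hv : isPl v) (n a c z : ℤ) (hn : n ≠ 0) (ha : a ≠ 0) (hc : c ≠ 0)
    (hz : z ≠ 0) (h : z ^ 2 = a * c + n) : Real.log (av v (z : ℚ)) ≤
      (Real.log 2 + Real.log (av v (n : ℚ)) + max (hh n v a) 0 + max (hh n v c) 0) / 2 := by
  have hn' : (n : ℚ) ≠ 0 := by exact_mod_cast hn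
  have ha' : (a : ℚ) ≠ 0 := by exact_mod_cast ha
  have hc' : (c : ℚ) ≠ 0 := by exact_mod_cast hc
  have hz' : (z : ℚ) ≠ 0 := by exact_mod_cast hz
  have h1 : (z : ℚ) ^ 2 = (a : ℚ) * c + n := by exact_mod_cast h
  obtain ⟨T, hT⟩ : ∃ T, T = Real.log (av v (n : ℚ)) + max (hh n v a) 0 + max (hh n v c) 0 :=
    ⟨_, rfl⟩
  have h2 : av v ((a : ℚ) * c) ≤ Real.exp T := by
    rw [← Real.log_le_iff_le_exp (av_pos v hv _ (mul_ne_zero ha' hc')),
      log_av_mul v hv _ _ ha' hc', log_av_eq n v a, log_av_eq n v c]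
    have := le_max_left (hh n v a) 0
    have := le_max_left (hh n v c) 0
    rw [hT]
    linarith
  have h3 : av v (n : ℚ) ≤ Real.exp T := by
    rw [← Real.log_le_iff_le_exp (av_pos v hv _ hn')]
    have := le_max_right (hh n v a) 0
    have := le_max_right (hh n v c) 0
    rw [hT]
    linarith
  have h4 : av v (z : ℚ) ^ 2 ≤ 2 * Real.exp T := by
    rw [← av_pow v hv, h1]
    linarith [av_add v hv ((a : ℚ) * c) n]
  have h5 := Real.log_le_log (pow_pos (av_pos v hv _ hz') 2) h4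
  rw [Real.log_pow, Real.log_mul (by norm_num) (Real.exp_pos T).ne', Real.log_exp] at h5
  push_cast at h5
  linarith

private theorem psiK_LVM (h1 : ST_BC) (h2 : ST_PSI) (h3 : ST_MAP) (v : ℕ) (hv : isPl v)
    (K : Type) [NormedField K] [CharZero K] (hK : ∀ x : ℚ, ‖(x : K)‖ = av v x)
    (b : Fin 3 → ℚ) (k : ℕ) (x : ℚ) (A δ : ℝ) (hδ : 0 < δ) (hA : ∀ j, av v (b j) ≤ A)
    (hd : ∀ i j, i ≠ j → δ ≤ av v (b i - b j)) (hx : ∀ j, 1 + b j * x ≠ 0) (j : Fin 3) (r : ℕ)
    (hr : r ≤ 2) :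
    av v (psi b k x j r) ≤
      64 ^ (k + 1) * (max 1 (av v x * A)) ^ k * A ^ r * (1 / δ) ^ (3 * k + 2) := by
  have h := h2 K (fun k l => by rw [hK]; exact h1.2 v hv k l) (fun i => ((b i : ℚ) : K)) k
    (x : K) A δ hδ (fun j => by rw [hK]; exact hA j)
    (fun i j hij => by rw [← Rat.cast_sub, hK]; exact hd i j hij)
    (fun j => by
      have h4 := hx j
      exact_mod_cast h4) j r hr
  rw [(h3 K b k).1 x j r, hK, hK] at h
  exact h

private theorem psi_LVM (h1 : ST_BC) (h2 : ST_PSI) (h3 : ST_MAP) (v : ℕ) (hv : isPl v)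
    (b : Fin 3 → ℚ) (k : ℕ) (x : ℚ) (A δ : ℝ) (hδ : 0 < δ) (hA : ∀ j, av v (b j) ≤ A)
    (hd : ∀ i j, i ≠ j → δ ≤ av v (b i - b j)) (hx : ∀ j, 1 + b j * x ≠ 0) (j : Fin 3) (r : ℕ)
    (hr : r ≤ 2) :
    av v (psi b k x j r) ≤
      64 ^ (k + 1) * (max 1 (av v x * A)) ^ k * A ^ r * (1 / δ) ^ (3 * k + 2) := by
  rcases hv with rfl | hv'
  · exact psiK_LVM h1 h2 h3 0 (Or.inl rfl) ℝ (fun x => (av_real x).symm) b k x A δ hδ hA hd hx j r
      hr
  · have := Fact.mk hv'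
    exact psiK_LVM h1 h2 h3 v (Or.inr hv') ℚ_[v] (fun x => (av_padic v x).symm) b k x A δ hδ hA hd
      hx j r hr

private theorem oth_LVM (a : Fin 3 → ℤ) :
    oth a 0 = a 1 * a 2 ∧ oth a 1 = a 0 * a 2 ∧ oth a 2 = a 0 * a 1 := by
  have e0 : (univ : Finset (Fin 3)).erase 0 = {1, 2} := by decide
  have e1 : (univ : Finset (Fin 3)).erase 1 = {0, 2} := by decide
  have e2 : (univ : Finset (Fin 3)).erase 2 = {0, 1} := by decide
  refine ⟨?_, ?_, ?_⟩
  · rw [oth, e0, Finset.prod_pair (by decide)]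
  · rw [oth, e1, Finset.prod_pair (by decide)]
  · rw [oth, e2, Finset.prod_pair (by decide)]

private theorem oth_mul_LVM (a : Fin 3 → ℤ) (j : Fin 3) : oth a j * a j = ∏ i, a i :=
  Finset.prod_erase_mul univ a (Finset.mem_univ j)

private theorem DV_LVM (v : ℕ) (hv : isPl v) (n : ℤ) (a : Fin 3 → ℤ) (hn : n ≠ 0)
    (ha : Function.Injective a) (ha0 : ∀ j, 0 < a j) : 0 < DV v n a := by
  obtain ⟨e0, e1, e2⟩ := oth_LVM a
  have hn' : (n : ℚ) ≠ 0 := by exact_mod_cast hn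
  have hp : ∀ j, (a j : ℚ) ≠ 0 := fun j => by exact_mod_cast (ha0 j).ne'
  have hd : ∀ i j, i ≠ j → (a i : ℚ) - a j ≠ 0 := by
    intro i j hij h
    apply hij
    apply ha
    have h4 : (a i : ℚ) = a j := by linarith
    exact_mod_cast h4
  have k1 : nod n a 0 - nod n a 1 ≠ 0 := by
    rw [nod, nod, e0, e1]
    have : (n : ℚ) * ((a 1 * a 2 : ℤ) : ℚ) - n * ((a 0 * a 2 : ℤ) : ℚ) =
        n * (a 2 * ((a 1 : ℚ) - a 0)) := by
      push_cast
      ring
    rw [this]
    exact mul_ne_zero hn' (mul_ne_zero (hp 2) (hd 1 0 (by decide)))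
  have k2 : nod n a 0 - nod n a 2 ≠ 0 := by
    rw [nod, nod, e0, e2]
    have : (n : ℚ) * ((a 1 * a 2 : ℤ) : ℚ) - n * ((a 0 * a 1 : ℤ) : ℚ) =
        n * (a 1 * ((a 2 : ℚ) - a 0)) := by
      push_cast
      ring
    rw [this]
    exact mul_ne_zero hn' (mul_ne_zero (hp 1) (hd 2 0 (by decide)))
  have k3 : nod n a 1 - nod n a 2 ≠ 0 := by
    rw [nod, nod, e1, e2]
    have : (n : ℚ) * ((a 0 * a 2 : ℤ) : ℚ) - n * ((a 0 * a 1 : ℤ) : ℚ) =
        n * (a 0 * ((a 2 : ℚ) - a 1)) := by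
      push_cast
      ring
    rw [this]
    exact mul_ne_zero hn' (mul_ne_zero (hp 0) (hd 2 1 (by decide)))
  exact lt_min (av_pos v hv _ k1) (lt_min (av_pos v hv _ k2) (av_pos v hv _ k3))

private theorem DV_le_LVM (v : ℕ) (hv : isPl v) (n : ℤ) (a : Fin 3 → ℤ) (i j : Fin 3)
    (hij : i ≠ j) : DV v n a ≤ av v (nod n a i - nod n a j) := by
  have hs : ∀ x y : ℚ, av v (x - y) = av v (y - x) := by
    intro x y
    rw [← av_neg v hv]
    congr 1
    ring
  have d1 : DV v n a ≤ av v (nod n a 0 - nod n a 1) := min_le_left _ _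
  have d2 : DV v n a ≤ av v (nod n a 0 - nod n a 2) := (min_le_right _ _).trans (min_le_left _ _)
  have d3 : DV v n a ≤ av v (nod n a 1 - nod n a 2) := (min_le_right _ _).trans (min_le_right _ _)
  fin_cases i <;> fin_cases j
  · exact absurd rfl hij
  · exact d1
  · exact d2
  · change DV v n a ≤ av v (nod n a 1 - nod n a 0)
    rw [hs]
    exact d1
  · exact absurd rfl hij
  · exact d3
  · change DV v n a ≤ av v (nod n a 2 - nod n a 0)
    rw [hs]
    exact d2
  · change DV v n a ≤ av v (nod n a 2 - nod n a 1)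
    rw [hs]
    exact d3
  · exact absurd rfl hij

private theorem AV_le_LVM (v : ℕ) (n : ℤ) (a : Fin 3 → ℤ) (j : Fin 3) :
    av v (nod n a j) ≤ AV v n a := by
  fin_cases j
  · exact le_max_left _ _
  · exact (le_max_left _ _).trans (le_max_right _ _)
  · exact (le_max_right _ _).trans (le_max_right _ _)

/-- the coefficient `oth_j zc_j zd_j` -/
private theorem coeff_LVM (n : ℤ) (a : Fin 3 → ℤ) (c d : ℤ) (zc zd : Fin 3 → ℤ)
    (h : Conf n a c d zc zd) (v : ℕ) (hv : isPl v) (j : Fin 3) :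
    av v ((oth a j * zc j * zd j : ℤ) : ℚ) ≤ 2 * Real.exp (Bv n a c d v) := by
  obtain ⟨hn, -, ha, hc, hd, hzc, hzd, h1, h2⟩ := h
  have hn' : (n : ℚ) ≠ 0 := by exact_mod_cast hn
  have hp : ∀ j, (a j : ℚ) ≠ 0 := fun j => by exact_mod_cast (ha j).ne'
  have ho : ∀ j, oth a j ≠ 0 := fun j => (Finset.prod_pos fun i _ => ha i).ne'
  have ho' : (oth a j : ℚ) ≠ 0 := by exact_mod_cast ho j
  have hz1 : (zc j : ℚ) ≠ 0 := by exact_mod_cast (hzc j).ne'
  have hz2 : (zd j : ℚ) ≠ 0 := by exact_mod_cast (hzd j).ne'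
  have l1 := z_LVM v hv n (a j) c (zc j) hn (ha j).ne' hc.ne' (hzc j).ne' (h1 j)
  have l2 := z_LVM v hv n (a j) d (zd j) hn (ha j).ne' hd.ne' (hzd j).ne' (h2 j)
  have l3 : Real.log (av v (oth a j : ℚ)) + Real.log (av v (a j : ℚ)) =
      ∑ i, Real.log (av v (a i : ℚ)) := by
    rw [← log_av_mul v hv _ _ ho' (hp j)]
    have : (oth a j : ℚ) * (a j : ℚ) = (a 0 : ℚ) * a 1 * a 2 := by
      have := oth_mul_LVM a j
      rw [Fin.prod_univ_three] at this
      exact_mod_cast this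
    rw [this, log_av_mul v hv _ _ (mul_ne_zero (hp 0) (hp 1)) (hp 2),
      log_av_mul v hv _ _ (hp 0) (hp 1), Fin.sum_univ_three]
  have l4 : (∑ i, Real.log (av v (a i : ℚ))) + max (hh n v (a j)) 0 ≤
      Real.log (av v (a j : ℚ)) + Real.log (av v (n : ℚ)) + ∑ i, max (hh n v (a i)) 0 := by
    rw [Fin.sum_univ_three, Fin.sum_univ_three]
    have m0 := le_max_left (hh n v (a 0)) 0
    have m1 := le_max_left (hh n v (a 1)) 0
    have m2 := le_max_left (hh n v (a 2)) 0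
    have q0 := log_av_eq n v (a 0)
    have q1 := log_av_eq n v (a 1)
    have q2 := log_av_eq n v (a 2)
    fin_cases j
    · change _ + max (hh n v (a 0)) 0 ≤ Real.log (av v (a 0 : ℚ)) + _ + _
      linarith
    · change _ + max (hh n v (a 1)) 0 ≤ Real.log (av v (a 1 : ℚ)) + _ + _
      linarith
    · change _ + max (hh n v (a 2)) 0 ≤ Real.log (av v (a 2 : ℚ)) + _ + _
      linarith
  have e1 : ((oth a j * zc j * zd j : ℤ) : ℚ) = (oth a j : ℚ) * zc j * zd j := by push_cast; ring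
  have hne : (oth a j : ℚ) * zc j * zd j ≠ 0 := mul_ne_zero (mul_ne_zero ho' hz1) hz2
  rw [e1, ← Real.log_le_log_iff (av_pos v hv _ hne) (by positivity),
    Real.log_mul (by norm_num) (Real.exp_pos _).ne', Real.log_exp,
    log_av_mul v hv _ _ (mul_ne_zero ho' hz1) hz2, log_av_mul v hv _ _ ho' hz1, Bv]
  linarith

/-- the evaluation point times the size of the nodes -/
private theorem xA_LVM (n : ℤ) (a : Fin 3 → ℤ) (c : ℤ) (hn : n ≠ 0) (ha : ∀ j, 0 < a j)
    (hc : 0 < c) (v : ℕ) (hv : isPl v) :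
    max 1 (av v (1 / (NN a c : ℚ)) * AV v n a) ≤
      Real.exp (max (-(hh n v c)) 0 + ∑ j, max (-(hh n v (a j))) 0) := by
  have hn' : (n : ℚ) ≠ 0 := by exact_mod_cast hn
  have hc' : (c : ℚ) ≠ 0 := by exact_mod_cast hc.ne'
  have hp : ∀ j, (a j : ℚ) ≠ 0 := fun j => by exact_mod_cast (ha j).ne'
  have hj : ∀ j, av v (1 / (NN a c : ℚ)) * av v (nod n a j) ≤
      Real.exp (max (-(hh n v c)) 0 + ∑ j, max (-(hh n v (a j))) 0) := by
    intro j
    have ho' : (oth a j : ℚ) ≠ 0 := by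
      have : oth a j ≠ 0 := (Finset.prod_pos fun i _ => ha i).ne'
      exact_mod_cast this
    have e1 : 1 / (NN a c : ℚ) * nod n a j = (n : ℚ) / ((a j : ℚ) * (c : ℚ)) := by
      have e2 : (NN a c : ℚ) = (oth a j : ℚ) * a j * c := by
        rw [NN, ← oth_mul_LVM a j]
        push_cast
        ring
      rw [e2, nod]
      have := hp j
      field_simp
    rw [← av_mul v hv, e1, ← Real.log_le_iff_le_exp
      (av_pos v hv _ (div_ne_zero hn' (mul_ne_zero (hp j) hc'))),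
      log_av_ratio n v hv _ _ hn (ha j).ne' hc.ne']
    have m1 := le_max_left (-(hh n v c)) 0
    have m2 := le_max_left (-(hh n v (a j))) 0
    have m3 := Finset.single_le_sum (f := fun j => max (-(hh n v (a j))) 0)
      (fun _ _ => le_max_right _ _) (Finset.mem_univ j)
    have m4 : max (-(hh n v (a j))) 0 ≤ ∑ j, max (-(hh n v (a j))) 0 := m3
    linarith
  have h0 : 0 ≤ max (-(hh n v c)) 0 + ∑ j, max (-(hh n v (a j))) 0 :=
    add_nonneg (le_max_right _ _) (Finset.sum_nonneg fun _ _ => le_max_right _ _)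
  apply max_le
  · exact Real.one_le_exp h0
  · have hx : 0 ≤ av v (1 / (NN a c : ℚ)) := av_nonneg v hv _
    rw [AV, mul_max_of_nonneg _ _ hx, mul_max_of_nonneg _ _ hx]
    exact max_le (hj 0) (max_le (hj 1) (hj 2))

theorem hLVM (h1 : ST_BC) (h2 : ST_PSI) (h3 : ST_MAP) : ST_LVM := by
  intro n a c d zc zd hconf v hv' k r hr hne
  have hv : isPl v := isPl_of_mem hv'
  have hconf' := hconf
  obtain ⟨hn, hinj, ha, hc, hd, hzc, hzd, hz1, hz2⟩ := hconf
  have hn' : (n : ℚ) ≠ 0 := by exact_mod_cast hn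
  have hc' : (c : ℚ) ≠ 0 := by exact_mod_cast hc.ne'
  have hp : ∀ j, (a j : ℚ) ≠ 0 := fun j => by exact_mod_cast (ha j).ne'
  have hDV := DV_LVM v hv n a hn hinj ha
  have hAV : 0 < AV v n a := by
    have ho : oth a 0 ≠ 0 := (Finset.prod_pos fun i _ => ha i).ne'
    have ho' : (oth a 0 : ℚ) ≠ 0 := by exact_mod_cast ho
    exact lt_of_lt_of_le (av_pos v hv _ (mul_ne_zero hn' ho')) (AV_le_LVM v n a 0)
  have hx : ∀ j, 1 + nod n a j * (1 / (NN a c : ℚ)) ≠ 0 := by
    intro j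
    have ho' : (oth a j : ℚ) ≠ 0 := by
      have : oth a j ≠ 0 := (Finset.prod_pos fun i _ => ha i).ne'
      exact_mod_cast this
    have hz : (zc j : ℚ) ≠ 0 := by exact_mod_cast (hzc j).ne'
    have e3 : (zc j : ℚ) ^ 2 = a j * c + n := by exact_mod_cast hz1 j
    have e1 : 1 + nod n a j * (1 / (NN a c : ℚ)) = (zc j : ℚ) ^ 2 / ((a j : ℚ) * c) := by
      have e2 : (NN a c : ℚ) = (oth a j : ℚ) * a j * c := by
        rw [NN, ← oth_mul_LVM a j]
        push_cast
        ring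
      rw [e2, nod, e3]
      have := hp j
      field_simp
    rw [e1]
    exact div_ne_zero (pow_ne_zero 2 hz) (mul_ne_zero (hp j) hc')
  obtain ⟨M, hM⟩ : ∃ M, M = max (-(hh n v c)) 0 + ∑ j, max (-(hh n v (a j))) 0 := ⟨_, rfl⟩
  have hxA : max 1 (av v (1 / (NN a c : ℚ)) * AV v n a) ≤ Real.exp M := by
    rw [hM]
    exact xA_LVM n a c hn ha hc v hv
  have hpsi : ∀ j, av v (psi (nod n a) k (1 / (NN a c : ℚ)) j r) ≤
      64 ^ (k + 1) * (Real.exp M) ^ k * AV v n a ^ r * (1 / DV v n a) ^ (3 * k + 2) := by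
    intro j
    refine (psi_LVM h1 h2 h3 v hv (nod n a) k (1 / (NN a c : ℚ)) (AV v n a) (DV v n a) hDV
      (AV_le_LVM v n a) (DV_le_LVM v hv n a) hx j r hr).trans ?_
    have h0 : (0 : ℝ) ≤ max 1 (av v (1 / (NN a c : ℚ)) * AV v n a) :=
      zero_le_one.trans (le_max_left _ _)
    gcongr
  have hterm : ∀ j, av v (((oth a j * zc j * zd j : ℤ) : ℚ) *
      psi (nod n a) k (1 / (NN a c : ℚ)) j r) ≤ 2 * Real.exp (Bv n a c d v) *
      (64 ^ (k + 1) * (Real.exp M) ^ k * AV v n a ^ r * (1 / DV v n a) ^ (3 * k + 2)) := by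
    intro j
    rw [av_mul v hv]
    exact mul_le_mul (coeff_LVM n a c d zc zd hconf' v hv j) (hpsi j) (av_nonneg v hv _)
      (by positivity)
  have hLL : av v (LL n a c zc zd k r) ≤ 6 * Real.exp (Bv n a c d v) *
      (64 ^ (k + 1) * (Real.exp M) ^ k * AV v n a ^ r * (1 / DV v n a) ^ (3 * k + 2)) := by
    rw [LL, Fin.sum_univ_three]
    have t0 := hterm 0
    have t1 := hterm 1
    have t2 := hterm 2
    have s1 := av_add v hv (((oth a 0 * zc 0 * zd 0 : ℤ) : ℚ) *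
      psi (nod n a) k (1 / (NN a c : ℚ)) 0 r + ((oth a 1 * zc 1 * zd 1 : ℤ) : ℚ) *
      psi (nod n a) k (1 / (NN a c : ℚ)) 1 r) (((oth a 2 * zc 2 * zd 2 : ℤ) : ℚ) *
      psi (nod n a) k (1 / (NN a c : ℚ)) 2 r)
    have s2 := av_add v hv (((oth a 0 * zc 0 * zd 0 : ℤ) : ℚ) *
      psi (nod n a) k (1 / (NN a c : ℚ)) 0 r) (((oth a 1 * zc 1 * zd 1 : ℤ) : ℚ) *
      psi (nod n a) k (1 / (NN a c : ℚ)) 1 r)
    linarith
  have hlog := Real.log_le_log (av_pos v hv _ hne) hLL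
  have hDV' : (0 : ℝ) < (1 / DV v n a) ^ (3 * k + 2) := by positivity
  have e4 : Real.log (6 * Real.exp (Bv n a c d v) *
      (64 ^ (k + 1) * (Real.exp M) ^ k * AV v n a ^ r * (1 / DV v n a) ^ (3 * k + 2))) =
      Real.log 6 + Bv n a c d v + ((k + 1) * Real.log 64 + k * M + r * Real.log (AV v n a) -
        (3 * k + 2) * Real.log (DV v n a)) := by
    rw [Real.log_mul (by positivity) (by positivity), Real.log_mul (by norm_num) (by positivity),
      Real.log_exp, Real.log_mul (by positivity) hDV'.ne', Real.log_mul (by positivity)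
      (by positivity), Real.log_mul (by positivity) (by positivity), Real.log_pow, Real.log_pow,
      Real.log_pow, Real.log_pow, Real.log_exp, one_div, Real.log_inv]
    push_cast
    ring
  rw [e4] at hlog
  have l2 : Real.log 2 < 1 := by
    have := Real.log_two_lt_d9
    linarith
  have l6 : Real.log 6 ≤ 3 := by
    have : Real.log 6 ≤ Real.log (2 ^ 3) := Real.log_le_log (by norm_num) (by norm_num)
    rw [Real.log_pow] at this
    push_cast at this
    linarith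
  have l64 : Real.log 64 ≤ 6 := by
    have : Real.log 64 = Real.log (2 ^ 6) := by norm_num
    rw [this, Real.log_pow]
    push_cast
    linarith
  have hk : (0 : ℝ) ≤ k := Nat.cast_nonneg k
  have l7 : ((k : ℝ) + 1) * Real.log 64 ≤ (k + 1) * 6 :=
    mul_le_mul_of_nonneg_left l64 (by linarith)
  rw [← hM]
  nlinarith

end Pool.Agent.Helper3.DW
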