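import Mathlib
import Pool.Agent.Helper3.DW.St2

set_option autoImplicit false

/-! # Project DW, module LVP: the local estimate at a place where everything is large -/

namespace Pool.Agent.Helper3.DW

open Finset

theorem cast_LVP {K : Type} [NormedField K] {v : ℕ} (hK : ∀ x : ℚ, ‖(x : K)‖ = av v x) (z : ℤ) :
    ‖(z : K)‖ = av v (z : ℚ) := by
  rw [← hK, Rat.cast_intCast]

theorem small_LVP {K : Type} [NormedField K] [CharZero K] {v : ℕ}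
    (hK : ∀ x : ℚ, ‖(x : K)‖ = av v x) {n a c : ℤ} (hn : n ≠ 0) (ha : a ≠ 0) (hc : c ≠ 0)
    (h1 : 0 ≤ hh n v a) (h2 : Real.log 64 ≤ hh n v c) :
    ‖(n : K) / ((a : K) * (c : K))‖ ≤ 1 / 64 := by
  have pn : 0 < ‖(n : K)‖ := norm_pos_iff.2 (Int.cast_ne_zero.2 hn)
  have pa : 0 < ‖(a : K)‖ := norm_pos_iff.2 (Int.cast_ne_zero.2 ha)
  have pc : 0 < ‖(c : K)‖ := norm_pos_iff.2 (Int.cast_ne_zero.2 hc)
  rw [hh, ← cast_LVP hK, ← cast_LVP hK] at h1 h2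
  rw [norm_div, norm_mul, div_le_iff₀ (mul_pos pa pc)]
  have h3 : Real.log (64 * ‖(n : K)‖) ≤ Real.log (‖(a : K)‖ * ‖(c : K)‖) := by
    rw [Real.log_mul (by norm_num) pn.ne', Real.log_mul pa.ne' pc.ne']
    linarith
  have h4 := (Real.log_le_log_iff (by positivity) (by positivity)).1 h3
  linarith

theorem sgn_real_LVP {n : ℤ} {a : Fin 3 → ℤ} {c d : ℤ} {zc zd : Fin 3 → ℤ}
    (hC : Conf n a c d zc zd) (t : Fin 3 → ℝ) (ht : ∀ j, ‖t j - 1‖ ≤ 1 / 8) (j : Fin 3) :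
    ‖((oth a 0 * (zc 0 * zd 0) : ℤ) : ℝ) * t j‖ / 2 ≤
      ‖((oth a j * (zc j * zd j) : ℤ) : ℝ) * t 0 + ((oth a 0 * (zc 0 * zd 0) : ℤ) : ℝ) * t j‖ := by
  obtain ⟨-, -, ha, -, -, hzc, hzd, -, -⟩ := hC
  have hpos : ∀ i, (0 : ℝ) < ((oth a i * (zc i * zd i) : ℤ) : ℝ) := by
    intro i
    have h1 : 0 < oth a i := Finset.prod_pos fun h _ => ha h
    have h2 : 0 < oth a i * (zc i * zd i) := mul_pos h1 (mul_pos (hzc i) (hzd i))
    exact_mod_cast h2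
  have htp : ∀ i, 0 < t i := by
    intro i
    have h1 := ht i
    rw [Real.norm_eq_abs, abs_le] at h1
    linarith [h1.1]
  have h1 : 0 < ((oth a j * (zc j * zd j) : ℤ) : ℝ) * t 0 := mul_pos (hpos j) (htp 0)
  have h2 : 0 < ((oth a 0 * (zc 0 * zd 0) : ℤ) : ℝ) * t j := mul_pos (hpos 0) (htp j)
  rw [Real.norm_eq_abs, Real.norm_eq_abs, abs_of_pos h2, abs_of_pos (add_pos h1 h2)]
  linarith

theorem hLVP (h1 : ST_LVK) (h2 : ST_SLP) (h3 : ST_TH) (h4 : ST_BC) : ST_LVP := by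
  intro n a c d zc zd hC v hv ha hc hd hs k r hr hL
  have hC' := hC
  obtain ⟨hn, -, hap, hcp, hdp, hzc, hzd, hzc2, hzd2⟩ := hC'
  rcases isPl_of_mem hv with rfl | hp
  · have hK : ∀ x : ℚ, ‖(x : ℝ)‖ = av 0 x := fun x => (av_real x).symm
    refine h1 ℝ 0 hK n a c d zc zd hC hv ha hc hd ?_ k r hr hL
    have hb : ∀ k l : ℕ, ‖((bc k l : ℚ) : ℝ)‖ ≤ 2 ^ k * 4 ^ l := by
      intro k l
      rw [hK]
      exact h4.2 0 (Or.inl rfl) k l
    refine sgn_real_LVP hC (fun i => th ((n : ℝ) / (a i * c))) fun i => ?_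
    have h5 := small_LVP (K := ℝ) hK hn (hap i).ne' hcp.ne' (ha i) hc
    have h6 := (h3 ℝ hb _ h5).2
    refine h6.trans ?_
    linarith
  · have := Fact.mk hp
    have hK : ∀ x : ℚ, ‖(x : ℚ_[v])‖ = av v x := fun x => (av_padic v x).symm
    refine h1 ℚ_[v] v hK n a c d zc zd hC hv ha hc hd ?_ k r hr hL
    have hb : ∀ k l : ℕ, ‖((bc k l : ℚ) : ℚ_[v])‖ ≤ 2 ^ k * 4 ^ l := by
      intro k l
      rw [hK]
      exact h4.2 v (Or.inr hp) k l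
    have ht : ∀ i, (th ((n : ℚ_[v]) / (a i * c))) ^ 2 = 1 + (n : ℚ_[v]) / (a i * c) ∧
        ‖th ((n : ℚ_[v]) / (a i * c)) - 1‖ ≤ 1 / 8 := by
      intro i
      have h5 := small_LVP (K := ℚ_[v]) hK hn (hap i).ne' hcp.ne' (ha i) hc
      have h6 := h3 ℚ_[v] hb _ h5
      refine ⟨h6.1, h6.2.trans ?_⟩
      linarith
    intro j
    have h7 : ‖((zc j * zd 0 - zd j * zc 0 : ℤ) : ℚ_[v])‖ <
        ‖((zc j * zd 0 : ℤ) : ℚ_[v])‖ / 2 := by
      rw [cast_LVP hK, cast_LVP hK]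
      exact hs hp.ne_zero j
    have h8 := h2 v n c d (a 0) (a j) (zc 0) (zc j) (zd 0) (zd j) (th ((n : ℚ_[v]) / (a 0 * c)))
      (th ((n : ℚ_[v]) / (a j * c))) hn hcp.ne' hdp.ne' (hap 0).ne' (hap j).ne' (hzc2 0) (hzc2 j)
      (hzd2 0) (hzd2 j) (hzc 0).ne' (hzc j).ne' (hzd 0).ne' (hzd j).ne' (ht 0).1 (ht j).1
      (ht 0).2 (ht j).2 h7
    have e1 : ∀ i, oth a i * a i = ∏ h, a h := fun i => by
      rw [oth, Finset.prod_erase_mul _ _ (Finset.mem_univ i)]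
    have ne0 : ∀ i, ((a i : ℤ) : ℚ_[v]) ≠ 0 := fun i => Int.cast_ne_zero.2 (hap i).ne'
    have e2 : ∀ i, ((oth a i : ℤ) : ℚ_[v]) * ((a i : ℤ) : ℚ_[v]) = ((∏ h, a h : ℤ) : ℚ_[v]) := by
      intro i
      rw [← e1 i]
      push_cast
      ring
    set M : ℚ_[v] := ((∏ h, a h : ℤ) : ℚ_[v]) / (((a 0 : ℤ) : ℚ_[v]) * ((a j : ℤ) : ℚ_[v]))
      with hM
    have e3 : ((oth a 0 * (zc 0 * zd 0) : ℤ) : ℚ_[v]) =
        M * ((a j * (zc 0 * zd 0) : ℤ) : ℚ_[v]) := by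
      rw [hM, ← e2 0]
      push_cast
      have := ne0 0
      have := ne0 j
      field_simp
    have e4 : ((oth a j * (zc j * zd j) : ℤ) : ℚ_[v]) =
        M * ((a 0 * (zc j * zd j) : ℤ) : ℚ_[v]) := by
      rw [hM, ← e2 j]
      push_cast
      have := ne0 0
      have := ne0 j
      field_simp
    rw [e3, e4, mul_assoc M, mul_assoc M, ← mul_add, norm_mul M, norm_mul M, mul_div_assoc]
    exact mul_le_mul_of_nonneg_left h8 (norm_nonneg M)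

end Pool.Agent.Helper3.DW
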