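import Mathlib
import Pool.Agent.Helper3.DW.St

set_option autoImplicit false

/-!
Project DW, module MAP: `psi` and `rho` commute with the embedding of `ℚ` in a field of
characteristic zero.
-/

namespace Pool.Agent.Helper3.DW

open Finset PowerSeries

section

variable {K : Type} [Field K] [CharZero K]

private lemma map_U_MAP (δ : ℚ) :
    PowerSeries.map (Rat.castHom K) (U δ) = U ((δ : ℚ) : K) := by
  ext m
  unfold U
  rw [coeff_map, coeff_mk, coeff_mk]
  simp

private lemma map_G_MAP (k : ℕ) (x α : ℚ) :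
    PowerSeries.map (Rat.castHom K) (G k x α) = G k ((x : ℚ) : K) ((α : ℚ) : K) := by
  ext l
  unfold G
  rw [coeff_map, coeff_mk, coeff_mk]
  simp

private lemma map_XC_MAP (α : ℚ) (r : ℕ) :
    PowerSeries.map (Rat.castHom K) ((X + C α) ^ r) = (X + C ((α : ℚ) : K)) ^ r := by
  rw [map_pow, map_add, PowerSeries.map_X, PowerSeries.map_C]
  rfl

private lemma map_UU_MAP (a : Fin 3 → ℚ) (j : Fin 3) :
    PowerSeries.map (Rat.castHom K) (UU a j) = UU (fun i => ((a i : ℚ) : K)) j := by
  unfold UU
  rw [map_prod]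
  apply Finset.prod_congr rfl
  intro h _
  rw [map_U_MAP]
  congr 1
  push_cast
  rfl

end

theorem hMAP : ST_MAP := by
  intro K _ _ a k
  constructor
  · intro x j r
    unfold psi
    have h : G k ((x : ℚ) : K) ((a j : ℚ) : K) * (X + C ((a j : ℚ) : K)) ^ r *
        UU (fun i => ((a i : ℚ) : K)) j ^ (k + 1) =
        PowerSeries.map (Rat.castHom K) (G k x (a j) * (X + C (a j)) ^ r * UU a j ^ (k + 1)) := by
      rw [map_mul, map_mul, map_pow (PowerSeries.map (Rat.castHom K)) (UU a j), map_G_MAP,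
        map_XC_MAP, map_UU_MAP]
    rw [h, coeff_map]
    rfl
  · intro m
    unfold rho
    rw [Rat.cast_sum]
    apply Finset.sum_congr rfl
    intro j _
    have h : (X + C ((a j : ℚ) : K)) ^ m * UU (fun i => ((a i : ℚ) : K)) j ^ (k + 1) =
        PowerSeries.map (Rat.castHom K) ((X + C (a j)) ^ m * UU a j ^ (k + 1)) := by
      rw [map_mul, map_pow (PowerSeries.map (Rat.castHom K)) (UU a j), map_XC_MAP, map_UU_MAP]
    rw [h, coeff_map]
    rfl

end Pool.Agent.Helper3.DW
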