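import Mathlib
import Pool.Agent.Helper3.DW.St
import Pool.Agent.Helper15.Nonvanish

set_option autoImplicit false

/-! # Module NV of project DW -/

namespace Pool.Agent.Helper3.DW

open Finset PowerSeries

private theorem G_eq_NV (h1 : ST_BC) (k : ℕ) (x α : ℝ) :
    Pool.Agent.Helper15.Pade.G k x α = G k x α := by
  unfold Pool.Agent.Helper15.Pade.G G
  ext l
  rw [coeff_mk, coeff_mk, h1.1 k l]

private theorem UU_eq_NV (a : Fin 3 → ℝ) (j : Fin 3) :
    Pool.Agent.Helper15.Pade.UU a j = UU a j := rfl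

private theorem psi_eq_NV (h1 : ST_BC) (a : Fin 3 → ℝ) (k : ℕ) (x : ℝ) (j : Fin 3) (r : ℕ) :
    Pool.Agent.Helper15.Pade.psi a k x j (Polynomial.X ^ r) = psi a k x j r := by
  rw [Pool.Agent.Helper15.Pade.psi_apply, map_pow, Pool.Agent.Helper15.Pade.sh_X, G_eq_NV h1,
    UU_eq_NV]
  rfl

theorem hNV (h1 : ST_BC) (h2 : ST_MAP) : ST_NV := by
  intro a ha k x hx hax v hv
  by_contra hcon
  push Not at hcon
  obtain ⟨j, hj⟩ := hv
  refine hj ?_
  have hinj : Function.Injective (fun i => ((a i : ℚ) : ℝ)) := fun i i' h =>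
    ha (Rat.cast_injective h)
  have key := Pool.Agent.Helper15.Pade.nonvanish (fun i => ((a i : ℚ) : ℝ)) hinj k (x : ℝ)
    (by exact_mod_cast hx) (fun j => by
      have := hax j
      exact_mod_cast this) (fun j => ((v j : ℚ) : ℝ)) (fun r hr => by
      have h3 := hcon r hr
      have h4 : ((∑ j, v j * psi a k x j r : ℚ) : ℝ) = 0 := by rw [h3]; norm_num
      rw [← h4]
      push_cast
      refine Finset.sum_congr rfl fun j _ => ?_
      rw [psi_eq_NV h1, (h2 ℝ a k).1 x j r]) j
  exact_mod_cast key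

end Pool.Agent.Helper3.DW
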