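import Mathlib
import Pool.Agent.Helper3.DW.St2

set_option autoImplicit false

/-! # Product formula at the places of `n` -/

namespace Pool.Agent.Helper3.DW

open Finset

private theorem log_av_PF {p : ℕ} (hp : p.Prime) (D : ℤ) (hD : D ≠ 0) :
    Real.log (av p (D : ℚ)) = -((D.natAbs.factorization p : ℝ) * Real.log p) := by
  have : Fact p.Prime := ⟨hp⟩
  have h1 : padicNorm p (D : ℚ) = (p : ℚ) ^ (-(D.natAbs.factorization p : ℤ)) := by
    rw [padicNorm.eq_zpow_of_nonzero (Int.cast_ne_zero.2 hD), padicValRat.of_int]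
    unfold padicValInt
    rw [Nat.factorization_def _ hp]
  unfold av
  rw [if_neg hp.ne_zero, h1]
  push_cast
  rw [Real.log_zpow]
  push_cast
  ring

private theorem sum_av_PF (n D : ℤ) (hD : D ≠ 0) :
    ∑ v ∈ Pl n, Real.log (av v (D : ℚ)) = Real.log (D.natAbs : ℝ) -
      ∑ p ∈ n.natAbs.primeFactors, (D.natAbs.factorization p : ℝ) * Real.log p := by
  unfold Pl
  have h0 : (0 : ℕ) ∉ n.natAbs.primeFactors := fun h => Nat.not_prime_zero (Nat.prime_of_mem_primeFactors h)
  rw [Finset.sum_insert h0]
  have h1 : Real.log (av 0 (D : ℚ)) = Real.log (D.natAbs : ℝ) := by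
    unfold av
    rw [if_pos rfl, Nat.cast_natAbs]
    push_cast
    rfl
  rw [h1, sub_eq_add_neg, ← Finset.sum_neg_distrib]
  congr 1
  exact Finset.sum_congr rfl fun p hp => log_av_PF (Nat.prime_of_mem_primeFactors hp) D hD

private theorem log_nat_PF (m : ℕ) :
    Real.log (m : ℝ) = ∑ p ∈ m.primeFactors, (m.factorization p : ℝ) * Real.log p := by
  rw [Real.log_nat_eq_sum_factorization m, Finsupp.sum, Nat.support_factorization]

theorem hPF : ST_PF := by
  intro n hn
  refine ⟨?_, fun D hD => ?_⟩
  · rw [sum_av_PF n n hn, log_nat_PF, sub_self]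
  · rw [sum_av_PF n D hD, log_nat_PF, sub_nonneg]
    have h1 : ∑ p ∈ n.natAbs.primeFactors, (D.natAbs.factorization p : ℝ) * Real.log p ≤
        ∑ p ∈ n.natAbs.primeFactors ∪ D.natAbs.primeFactors,
          (D.natAbs.factorization p : ℝ) * Real.log p := by
      refine Finset.sum_le_sum_of_subset_of_nonneg Finset.subset_union_left fun p _ _ => ?_
      exact mul_nonneg (Nat.cast_nonneg _) (Real.log_natCast_nonneg p)
    refine h1.trans (le_of_eq ?_)
    symm
    refine Finset.sum_subset Finset.subset_union_right fun p _ hp => ?_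
    have h2 : D.natAbs.factorization p = 0 := by
      by_contra h
      exact hp (by rw [← Nat.support_factorization]; exact Finsupp.mem_support_iff.2 h)
    rw [h2]
    simp

end Pool.Agent.Helper3.DW
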