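import Mathlib
import Pool.Agent.Helper3.DW.St3

set_option autoImplicit false

/-! # Module PRF: profile classes -/

namespace Pool.Agent.Helper3.DW

open Finset

/-- The class of `a` at the place `v`. -/
noncomputable def mm_PRF (n : ℤ) (R : ℕ) (a : ℤ) (v : ℕ) : ℕ :=
  ⌊24 * (R : ℝ) * max (hh n v a) 0 / HH n a⌋₊

private lemma lo_PRF (n : ℤ) (R : ℕ) (a : ℤ) (v : ℕ) (h : 0 < HH n a) (hR : 1 ≤ R) :
    (mm_PRF n R a v : ℝ) / (24 * (R : ℝ)) * HH n a ≤ max (hh n v a) 0 := by
  have hR' : (0 : ℝ) < 24 * (R : ℝ) := by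
    have : (1 : ℝ) ≤ (R : ℝ) := by exact_mod_cast hR
    linarith
  have h0 : 0 ≤ 24 * (R : ℝ) * max (hh n v a) 0 / HH n a := by positivity
  have h1 : (mm_PRF n R a v : ℝ) ≤ 24 * (R : ℝ) * max (hh n v a) 0 / HH n a := Nat.floor_le h0
  rw [le_div_iff₀ h] at h1
  rw [div_mul_eq_mul_div, div_le_iff₀ hR']
  linarith

private lemma hi_PRF (n : ℤ) (R : ℕ) (a : ℤ) (v : ℕ) (h : 0 < HH n a) (hR : 1 ≤ R) :
    max (hh n v a) 0 ≤ ((mm_PRF n R a v : ℝ) / (24 * (R : ℝ)) + 1 / (24 * (R : ℝ))) * HH n a := by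
  have hR' : (0 : ℝ) < 24 * (R : ℝ) := by
    have : (1 : ℝ) ≤ (R : ℝ) := by exact_mod_cast hR
    linarith
  have h1 : 24 * (R : ℝ) * max (hh n v a) 0 / HH n a < (mm_PRF n R a v : ℝ) + 1 :=
    Nat.lt_floor_add_one _
  rw [div_lt_iff₀ h] at h1
  rw [← add_div, div_mul_eq_mul_div, le_div_iff₀ hR']
  linarith

private lemma mx_PRF (n : ℤ) (a : ℤ) (v : ℕ) (hv : v ∈ Pl n) : max (hh n v a) 0 ≤ HH n a :=
  Finset.single_le_sum (f := fun v => max (hh n v a) 0) (fun _ _ => le_max_right _ _) hv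

private lemma le_PRF (n : ℤ) (R : ℕ) (a : ℤ) (v : ℕ) (h : 0 < HH n a) (hv : v ∈ Pl n) :
    mm_PRF n R a v ≤ 24 * R := by
  have h1 : 24 * (R : ℝ) * max (hh n v a) 0 / HH n a ≤ ((24 * R : ℕ) : ℝ) := by
    rw [div_le_iff₀ h]
    push_cast
    exact mul_le_mul_of_nonneg_left (mx_PRF n a v hv) (by positivity)
  calc mm_PRF n R a v ≤ ⌊((24 * R : ℕ) : ℝ)⌋₊ := Nat.floor_le_floor h1
    _ = 24 * R := Nat.floor_natCast _

/-- The class of `a`, as a function to a finite type. -/
noncomputable def cl_PRF (n : ℤ) (R : ℕ) (a : ℤ) : Pl n → Fin (24 * R + 1) :=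
  fun v => ⟨min (mm_PRF n R a v) (24 * R), by omega⟩

private lemma big_PRF {α β : Type*} [DecidableEq β] [Fintype β] (P : Finset α) (f : α → β)
    (hP : P.Nonempty) : ∃ a₀ ∈ P, P.card ≤ Fintype.card β * (P.filter (fun a => f a = f a₀)).card := by
  obtain ⟨a₀, ha₀, hmax⟩ := Finset.exists_max_image P
    (fun a => (P.filter (fun b => f b = f a)).card) hP
  refine ⟨a₀, ha₀, ?_⟩
  have h := Finset.card_le_mul_card_image (f := f) P (P.filter (fun b => f b = f a₀)).card (by
    intro b hb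
    obtain ⟨a, ha, rfl⟩ := Finset.mem_image.1 hb
    exact hmax a ha)
  have h2 : (P.image f).card ≤ Fintype.card β := Finset.card_le_univ _
  calc P.card ≤ (P.filter (fun b => f b = f a₀)).card * (P.image f).card := h
    _ ≤ (P.filter (fun b => f b = f a₀)).card * Fintype.card β := Nat.mul_le_mul_left _ h2
    _ = _ := Nat.mul_comm _ _

theorem hPRFX : ST_PRFX := by
  classical
  intro R hR n hn hcard P hP
  have hR1 : (1 : ℝ) ≤ (R : ℝ) := by exact_mod_cast hR
  have hR' : (0 : ℝ) < 24 * (R : ℝ) := by linarith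
  rcases P.eq_empty_or_nonempty with rfl | hne
  · refine ⟨∅, subset_rfl, by simp, {0}, fun _ => 1, ?_, ?_, ?_, ?_, ?_⟩
    · intro v hv
      rw [Finset.mem_singleton] at hv
      subst hv
      exact Finset.mem_insert_self _ _
    · intro v _
      rw [div_le_one hR']
      linarith
    · simp; norm_num
    · simp
    · intro a ha
      simp at ha
  · obtain ⟨a₀, ha₀, hbig⟩ := big_PRF P (cl_PRF n R) hne
    have hmm : ∀ a ∈ P, cl_PRF n R a = cl_PRF n R a₀ → ∀ v ∈ Pl n,
        mm_PRF n R a v = mm_PRF n R a₀ v := by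
      intro a ha h v hv
      have h1 := congrFun h ⟨v, hv⟩
      have h2 : min (mm_PRF n R a v) (24 * R) = min (mm_PRF n R a₀ v) (24 * R) := by
        simpa [cl_PRF] using h1
      rwa [min_eq_left (le_PRF n R a v (hP a ha) hv),
        min_eq_left (le_PRF n R a₀ v (hP a₀ ha₀) hv)] at h2
    have hH0 := hP a₀ ha₀
    refine ⟨P.filter (fun a => cl_PRF n R a = cl_PRF n R a₀), Finset.filter_subset _ _, ?_,
      (Pl n).filter (fun v => 1 ≤ mm_PRF n R a₀ v),
      fun v => (mm_PRF n R a₀ v : ℝ) / (24 * (R : ℝ)), Finset.filter_subset _ _, ?_, ?_, ?_, ?_⟩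
    · refine hbig.trans (Nat.mul_le_mul_right _ ?_)
      rw [Fintype.card_fun, Fintype.card_fin, Fintype.card_coe]
      exact Nat.pow_le_pow_right (by omega) hcard
    · intro v hv
      have h1 := (Finset.mem_filter.1 hv).2
      have h2 : (1 : ℝ) ≤ (mm_PRF n R a₀ v : ℝ) := by exact_mod_cast h1
      exact div_le_div_of_nonneg_right h2 hR'.le
    · -- lower bound for the sum of the weights
      have hs : ∑ v ∈ (Pl n).filter (fun v => 1 ≤ mm_PRF n R a₀ v),
          (mm_PRF n R a₀ v : ℝ) / (24 * (R : ℝ)) =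
          ∑ v ∈ Pl n, (mm_PRF n R a₀ v : ℝ) / (24 * (R : ℝ)) := by
        apply Finset.sum_filter_of_ne
        intro v _ hne
        by_contra hlt
        have : mm_PRF n R a₀ v = 0 := by omega
        rw [this] at hne
        simp at hne
      rw [hs]
      have h1 : HH n a₀ ≤ ∑ v ∈ Pl n,
          ((mm_PRF n R a₀ v : ℝ) / (24 * (R : ℝ)) + 1 / (24 * (R : ℝ))) * HH n a₀ :=
        Finset.sum_le_sum (fun v _ => hi_PRF n R a₀ v hH0 hR)
      rw [← Finset.sum_mul] at h1
      have h2 : (1 : ℝ) ≤ ∑ v ∈ Pl n,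
          ((mm_PRF n R a₀ v : ℝ) / (24 * (R : ℝ)) + 1 / (24 * (R : ℝ))) := by
        by_contra hlt
        push Not at hlt
        have := mul_lt_mul_of_pos_right hlt hH0
        linarith
      rw [Finset.sum_add_distrib, Finset.sum_const, nsmul_eq_mul] at h2
      have h3 : ((Pl n).card : ℝ) * (1 / (24 * (R : ℝ))) ≤ 1 / 24 := by
        have hc : ((Pl n).card : ℝ) ≤ (R : ℝ) := by exact_mod_cast hcard
        rw [mul_one_div, div_le_iff₀ hR']
        linarith
      linarith
    · -- upper bound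
      have h1 : ∑ v ∈ (Pl n).filter (fun v => 1 ≤ mm_PRF n R a₀ v),
          (mm_PRF n R a₀ v : ℝ) / (24 * (R : ℝ)) ≤
          ∑ v ∈ Pl n, (mm_PRF n R a₀ v : ℝ) / (24 * (R : ℝ)) :=
        Finset.sum_le_sum_of_subset_of_nonneg (Finset.filter_subset _ _)
          (fun _ _ _ => by positivity)
      have h2 : ∑ v ∈ Pl n, (mm_PRF n R a₀ v : ℝ) / (24 * (R : ℝ)) * HH n a₀ ≤ HH n a₀ :=
        Finset.sum_le_sum (fun v _ => lo_PRF n R a₀ v hH0 hR)
      rw [← Finset.sum_mul] at h2
      have h3 : ∑ v ∈ Pl n, (mm_PRF n R a₀ v : ℝ) / (24 * (R : ℝ)) ≤ 1 := by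
        by_contra hlt
        push Not at hlt
        have := mul_lt_mul_of_pos_right hlt hH0
        linarith
      exact h1.trans h3
    · intro a ha
      obtain ⟨haP, hcl⟩ := Finset.mem_filter.1 ha
      have hHa := hP a haP
      have hm := hmm a haP hcl
      constructor
      · intro v hv
        obtain ⟨hvP, hv1⟩ := Finset.mem_filter.1 hv
        have hlo := lo_PRF n R a v hHa hR
        have hhi := hi_PRF n R a v hHa hR
        rw [hm v hvP] at hlo hhi
        have h2 : (1 : ℝ) ≤ (mm_PRF n R a₀ v : ℝ) := by exact_mod_cast hv1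
        have hpos : 0 < (mm_PRF n R a₀ v : ℝ) / (24 * (R : ℝ)) * HH n a := by positivity
        have hmx : max (hh n v a) 0 = hh n v a := by
          apply max_eq_left
          by_contra hlt
          push Not at hlt
          rw [max_eq_right hlt.le] at hlo
          linarith
        rw [hmx] at hlo hhi
        exact ⟨hlo, hhi⟩
      · intro v hv hvV
        have h0 : mm_PRF n R a₀ v = 0 := by
          by_contra hne'
          exact hvV (Finset.mem_filter.2 ⟨hv, by omega⟩)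
        have hhi := hi_PRF n R a v hHa hR
        rw [hm v hv, h0] at hhi
        have := le_max_left (hh n v a) 0
        calc hh n v a ≤ max (hh n v a) 0 := this
          _ ≤ _ := hhi
          _ = HH n a / (24 * (R : ℝ)) := by push_cast; ring

theorem hPRF : ST_PRF := fun R hR => ⟨(24 * R + 1) ^ R, fun n hn hc P hP => hPRFX R hR n hn hc P hP⟩

end Pool.Agent.Helper3.DW
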