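import Mathlib
import Pool.Agent.Helper3.DW.St

set_option autoImplicit false

namespace Pool.Agent.Helper3.DW

open PowerSeries Finset

section PSI

variable {K : Type} [NormedField K]

/-- truncated weighted norm -/
noncomputable def nrm_PSI (s : ℝ) (k : ℕ) (F : PowerSeries K) : ℝ :=
  ∑ m ∈ range (k + 1), ‖coeff m F‖ * s ^ m

theorem nrm_nonneg_PSI (s : ℝ) (hs : 0 ≤ s) (k : ℕ) (F : PowerSeries K) :
    0 ≤ nrm_PSI s k F :=
  Finset.sum_nonneg (fun _ _ => by positivity)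

theorem nrm_one_PSI (s : ℝ) (k : ℕ) : nrm_PSI s k (1 : PowerSeries K) = 1 := by
  rw [nrm_PSI, Finset.sum_range_succ']
  simp [coeff_one]

theorem nrm_mul_PSI (s : ℝ) (hs : 0 ≤ s) (k : ℕ) (F G : PowerSeries K) :
    nrm_PSI s k (F * G) ≤ nrm_PSI s k F * nrm_PSI s k G := by
  classical
  set f : ℕ × ℕ → ℝ := fun p => (‖coeff p.1 F‖ * s ^ p.1) * (‖coeff p.2 G‖ * s ^ p.2)
    with hf
  have hf0 : ∀ p, 0 ≤ f p := fun p => by rw [hf]; positivity
  have h1 : nrm_PSI s k (F * G) ≤ ∑ m ∈ range (k + 1), ∑ p ∈ antidiagonal m, f p := by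
    refine Finset.sum_le_sum (fun m _ => ?_)
    rw [coeff_mul]
    calc ‖∑ p ∈ antidiagonal m, coeff p.1 F * coeff p.2 G‖ * s ^ m
        ≤ (∑ p ∈ antidiagonal m, ‖coeff p.1 F * coeff p.2 G‖) * s ^ m :=
          mul_le_mul_of_nonneg_right (norm_sum_le _ _) (by positivity)
      _ = ∑ p ∈ antidiagonal m, f p := by
          rw [Finset.sum_mul]
          refine Finset.sum_congr rfl (fun p hp => ?_)
          have : p.1 + p.2 = m := HasAntidiagonal.mem_antidiagonal.1 hp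
          rw [hf, norm_mul, ← this, pow_add]
          ring
  set t : Finset (ℕ × ℕ) := (range (k + 1) ×ˢ range (k + 1)).filter (fun p => p.1 + p.2 ≤ k) with ht
  have h2 : ∑ m ∈ range (k + 1), ∑ p ∈ antidiagonal m, f p = ∑ p ∈ t, f p := by
    rw [← Finset.sum_fiberwise_of_maps_to (s := t) (t := range (k + 1)) (g := fun p => p.1 + p.2)]
    · refine Finset.sum_congr rfl (fun m hm => ?_)
      refine Finset.sum_congr ?_ (fun _ _ => rfl)
      ext p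
      simp only [ht, HasAntidiagonal.mem_antidiagonal, Finset.mem_filter, Finset.mem_product, Finset.mem_range] at hm ⊢
      constructor
      · intro h; refine ⟨⟨⟨?_, ?_⟩, ?_⟩, h⟩ <;> omega
      · intro h; exact h.2
    · intro p hp
      simp only [ht, Finset.mem_filter, Finset.mem_product, Finset.mem_range] at hp ⊢
      omega
  have h3 : ∑ p ∈ t, f p ≤ ∑ p ∈ range (k + 1) ×ˢ range (k + 1), f p :=
    Finset.sum_le_sum_of_subset_of_nonneg (Finset.filter_subset _ _) (fun p _ _ => hf0 p)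
  have h4 : ∑ p ∈ range (k + 1) ×ˢ range (k + 1), f p = nrm_PSI s k F * nrm_PSI s k G := by
    rw [nrm_PSI, nrm_PSI, Finset.sum_mul_sum, Finset.sum_product]
  linarith

theorem nrm_pow_PSI (s : ℝ) (hs : 0 ≤ s) (k : ℕ) (F : PowerSeries K) (n : ℕ) :
    nrm_PSI s k (F ^ n) ≤ nrm_PSI s k F ^ n := by
  induction n with
  | zero => rw [pow_zero, pow_zero, nrm_one_PSI]
  | succ n ih =>
    rw [pow_succ, pow_succ]
    exact le_trans (nrm_mul_PSI s hs k _ _)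
      (mul_le_mul_of_nonneg_right ih (nrm_nonneg_PSI s hs k F))

theorem nrm_prod_PSI (s : ℝ) (hs : 0 ≤ s) (k : ℕ) {ι : Type} (S : Finset ι)
    (F : ι → PowerSeries K) :
    nrm_PSI s k (∏ i ∈ S, F i) ≤ ∏ i ∈ S, nrm_PSI s k (F i) := by
  classical
  induction S using Finset.induction_on with
  | empty => simp [nrm_one_PSI]
  | insert a S ha ih =>
    rw [Finset.prod_insert ha, Finset.prod_insert ha]
    exact le_trans (nrm_mul_PSI s hs k _ _)
      (mul_le_mul_of_nonneg_left ih (nrm_nonneg_PSI s hs k _))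

theorem coeff_le_PSI (s : ℝ) (hs : 0 ≤ s) (k : ℕ) (F : PowerSeries K) :
    ‖coeff k F‖ * s ^ k ≤ nrm_PSI s k F := by
  rw [nrm_PSI]
  exact Finset.single_le_sum (f := fun m => ‖coeff m F‖ * s ^ m)
    (fun _ _ => by positivity) (Finset.mem_range.2 (by omega))

theorem nrm_X_PSI (s : ℝ) (hs : 0 ≤ s) (k : ℕ) (a : K) :
    nrm_PSI s k (X + C a) ≤ ‖a‖ + s := by
  rw [nrm_PSI]
  have h : ∀ m ∈ range (k + 1), ‖coeff m (X + C a : PowerSeries K)‖ * s ^ m ≤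
      (if m = 0 then ‖a‖ else 0) + (if m = 1 then s else 0) := by
    intro m _
    rw [map_add, coeff_X, coeff_C]
    rcases m with _ | m
    · simp
    · rcases m with _ | m
      · simp
      · simp
  refine le_trans (Finset.sum_le_sum h) ?_
  rw [Finset.sum_add_distrib, Finset.sum_ite_eq', Finset.sum_ite_eq']
  have h0 : (0 : ℕ) ∈ range (k + 1) := Finset.mem_range.2 (by omega)
  rw [if_pos h0]
  split_ifs
  · exact le_refl _
  · have := hs
    linarith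

theorem geom_PSI (k : ℕ) : ∑ m ∈ range (k + 1), (1 / 2 : ℝ) ^ m ≤ 2 := by
  have h : ∀ k : ℕ, ∑ m ∈ range k, (1 / 2 : ℝ) ^ m = 2 - 2 * (1 / 2) ^ k := by
    intro k
    induction k with
    | zero => simp
    | succ k ih => rw [Finset.sum_range_succ, ih, pow_succ]; ring
  rw [h]
  have : (0 : ℝ) ≤ (1 / 2) ^ (k + 1) := by positivity
  linarith

theorem nrm_U_PSI (δ : ℝ) (hδ : 0 < δ) (k : ℕ) (t : K) (ht : δ ≤ ‖t‖) :
    nrm_PSI (δ / 2) k (U t) ≤ 2 / δ := by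
  have ht0 : 0 < ‖t‖ := lt_of_lt_of_le hδ ht
  rw [nrm_PSI]
  have h : ∀ m ∈ range (k + 1), ‖coeff m (U t)‖ * (δ / 2) ^ m ≤ (1 / δ) * (1 / 2) ^ m := by
    intro m _
    rw [U, coeff_mk, norm_mul, norm_pow, norm_neg, norm_one, one_pow, one_mul, norm_pow, norm_inv]
    have h1 : ‖t‖⁻¹ ^ (m + 1) ≤ (1 / δ) ^ (m + 1) := by
      apply pow_le_pow_left₀ (by positivity)
      rw [one_div]
      exact inv_anti₀ hδ ht
    calc ‖t‖⁻¹ ^ (m + 1) * (δ / 2) ^ m ≤ (1 / δ) ^ (m + 1) * (δ / 2) ^ m :=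
          mul_le_mul_of_nonneg_right h1 (by positivity)
      _ = (1 / δ) * (1 / 2) ^ m := by
          have h2 : (δ / 2) = δ * (1 / 2) := by ring
          rw [h2, mul_pow, pow_succ]
          have h3 : (1 / δ) ^ m * δ ^ m = 1 := by
            rw [← mul_pow, one_div, inv_mul_cancel₀ hδ.ne', one_pow]
          calc (1 / δ) ^ m * (1 / δ) * (δ ^ m * (1 / 2) ^ m)
              = ((1 / δ) ^ m * δ ^ m) * ((1 / δ) * (1 / 2) ^ m) := by ring
            _ = _ := by rw [h3, one_mul]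
  refine le_trans (Finset.sum_le_sum h) ?_
  rw [← Finset.mul_sum]
  calc 1 / δ * ∑ m ∈ range (k + 1), (1 / 2 : ℝ) ^ m ≤ 1 / δ * 2 :=
        mul_le_mul_of_nonneg_left (geom_PSI k) (by positivity)
    _ = 2 / δ := by ring

theorem nrm_UU_PSI (δ : ℝ) (hδ : 0 < δ) (k : ℕ) (a : Fin 3 → K)
    (ha : ∀ i j, i ≠ j → δ ≤ ‖a i - a j‖) (j : Fin 3) :
    nrm_PSI (δ / 2) k (UU a j) ≤ (2 / δ) ^ 2 := by
  have hs : (0 : ℝ) ≤ δ / 2 := by positivity
  have h1 := nrm_prod_PSI (δ / 2) hs k (univ.erase j) (fun h => U (a j - a h))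
  have h2 : ∏ h ∈ univ.erase j, nrm_PSI (δ / 2) k (U (a j - a h)) ≤
      ∏ h ∈ univ.erase j, (2 / δ) := by
    apply Finset.prod_le_prod (fun h _ => nrm_nonneg_PSI _ hs k _)
    intro h hh
    exact nrm_U_PSI δ hδ k _ (ha j h (Finset.ne_of_mem_erase hh).symm)
  have h3 : ∏ h ∈ (univ : Finset (Fin 3)).erase j, (2 / δ) = (2 / δ) ^ 2 := by
    rw [Finset.prod_const, Finset.card_erase_of_mem (Finset.mem_univ j)]
    simp
  calc nrm_PSI (δ / 2) k (UU a j) ≤ _ := h1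
    _ ≤ _ := h2
    _ = _ := h3

theorem geom2_PSI (k : ℕ) : ∑ l ∈ range (k + 1), (2 : ℝ) ^ (k - l) * 4 ^ l ≤ 2 * 4 ^ k := by
  have h1 : ∀ l ∈ range (k + 1), (2 : ℝ) ^ (k - l) * 4 ^ l = 2 ^ k * 2 ^ l := by
    intro l hl
    have hl' : l ≤ k := by
      have := Finset.mem_range.1 hl
      omega
    have h4 : (4 : ℝ) = 2 * 2 := by norm_num
    rw [h4, mul_pow, ← mul_assoc, ← pow_add]
    congr 2
    omega
  rw [Finset.sum_congr rfl h1, ← Finset.mul_sum]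
  have h2 : ∀ n : ℕ, ∑ l ∈ range n, (2 : ℝ) ^ l = 2 ^ n - 1 := by
    intro n
    induction n with
    | zero => simp
    | succ n ih => rw [Finset.sum_range_succ, ih, pow_succ]; ring
  rw [h2]
  have h4 : (4 : ℝ) = 2 * 2 := by norm_num
  have h5 : (0 : ℝ) < 2 ^ k := by positivity
  rw [h4, mul_pow, pow_succ]
  nlinarith

theorem nrm_G_PSI (hbc : ∀ k l : ℕ, ‖((bc k l : ℚ) : K)‖ ≤ 2 ^ k * 4 ^ l) (δ A : ℝ)
    (hδ : 0 < δ) (hA : δ ≤ 2 * A) (k : ℕ) (x α : K) (hα : ‖α‖ ≤ A) (h1 : 1 + α * x ≠ 0) :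
    nrm_PSI (δ / 2) k (G k x α) ≤ 2 * 8 ^ k * (max 1 (‖x‖ * A)) ^ k := by
  set M : ℝ := max 1 (‖x‖ * A) with hM
  have hM1 : 1 ≤ M := le_max_left _ _
  have hM0 : 0 ≤ M := by linarith
  have hMx : ‖x‖ * A ≤ M := le_max_right _ _
  have hn1 : ‖1 + α * x‖ ≤ 2 * M := by
    have h2 : ‖1 + α * x‖ ≤ 1 + ‖α‖ * ‖x‖ := by
      have h3 := norm_add_le (1 : K) (α * x)
      rw [norm_one, norm_mul] at h3
      exact h3
    have h4 : ‖α‖ * ‖x‖ ≤ ‖x‖ * A := by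
      rw [mul_comm]
      exact mul_le_mul_of_nonneg_left hα (norm_nonneg _)
    linarith
  have hnp : 0 < ‖1 + α * x‖ := norm_pos_iff.2 h1
  have hxd : ‖x‖ * (δ / 2) ≤ M := by
    have h3 : ‖x‖ * (δ / 2) ≤ ‖x‖ * A :=
      mul_le_mul_of_nonneg_left (by linarith) (norm_nonneg _)
    linarith
  rw [nrm_PSI]
  have h : ∀ l ∈ range (k + 1), ‖coeff l (G k x α)‖ * (δ / 2) ^ l ≤
      (2 ^ k * M ^ k) * (2 ^ (k - l) * 4 ^ l) := by
    intro l hl
    have hl' : l ≤ k := by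
      have := Finset.mem_range.1 hl
      omega
    rw [G, coeff_mk, norm_mul, norm_mul, norm_pow, norm_pow, norm_div]
    have e1 : ‖1 + α * x‖ ^ k = ‖1 + α * x‖ ^ (k - l) * ‖1 + α * x‖ ^ l := by
      rw [← pow_add]
      congr 1
      omega
    have e2 : ‖1 + α * x‖ ^ k * (‖((bc k l : ℚ) : K)‖ * (‖x‖ / ‖1 + α * x‖) ^ l) * (δ / 2) ^ l =
        ‖1 + α * x‖ ^ (k - l) * ‖((bc k l : ℚ) : K)‖ * (‖x‖ * (δ / 2)) ^ l := by
      rw [e1, div_pow, mul_pow]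
      have : ‖1 + α * x‖ ^ l ≠ 0 := by positivity
      field_simp
    rw [e2]
    have f1 : ‖1 + α * x‖ ^ (k - l) ≤ (2 * M) ^ (k - l) := pow_le_pow_left₀ (by positivity) hn1 _
    have f3 : (‖x‖ * (δ / 2)) ^ l ≤ M ^ l := pow_le_pow_left₀ (by positivity) hxd _
    calc ‖1 + α * x‖ ^ (k - l) * ‖((bc k l : ℚ) : K)‖ * (‖x‖ * (δ / 2)) ^ l
        ≤ (2 * M) ^ (k - l) * (2 ^ k * 4 ^ l) * M ^ l := by
          apply mul_le_mul _ f3 (by positivity) (by positivity)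
          exact mul_le_mul f1 (hbc k l) (norm_nonneg _) (by positivity)
      _ = (2 ^ k * (M ^ (k - l) * M ^ l)) * (2 ^ (k - l) * 4 ^ l) := by
          rw [mul_pow]; ring
      _ = (2 ^ k * M ^ k) * (2 ^ (k - l) * 4 ^ l) := by
          rw [← pow_add, Nat.sub_add_cancel hl']
  refine le_trans (Finset.sum_le_sum h) ?_
  rw [← Finset.mul_sum]
  calc (2 ^ k * M ^ k) * ∑ l ∈ range (k + 1), (2 : ℝ) ^ (k - l) * 4 ^ l
      ≤ (2 ^ k * M ^ k) * (2 * 4 ^ k) :=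
        mul_le_mul_of_nonneg_left (geom2_PSI k) (by positivity)
    _ = 2 * 8 ^ k * M ^ k := by
        have h8 : (8 : ℝ) = 2 * 4 := by norm_num
        rw [h8, mul_pow]; ring

end PSI

theorem hPSI : ST_PSI := by
  intro K _ hbc a k x A δ hδ hA hd h1 j r hr
  have hA0 : 0 ≤ A := le_trans (norm_nonneg _) (hA 0)
  have hdA : δ ≤ 2 * A := by
    have h := hd 0 1 (by decide)
    have h2 := norm_sub_le (a 0) (a 1)
    have h3 := hA 0
    have h4 := hA 1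
    linarith
  have hs : (0 : ℝ) ≤ δ / 2 := by positivity
  set M : ℝ := max 1 (‖x‖ * A) with hM
  have hM1 : 1 ≤ M := le_max_left _ _
  have hM0 : 0 ≤ M := by linarith
  have hG := nrm_G_PSI hbc δ A hδ hdA k x (a j) (hA j) (h1 j)
  have hX : nrm_PSI (δ / 2) k ((X + C (a j)) ^ r) ≤ (2 * A) ^ r := by
    refine le_trans (nrm_pow_PSI _ hs k _ r) ?_
    apply pow_le_pow_left₀ (nrm_nonneg_PSI _ hs k _)
    have h2 := nrm_X_PSI (δ / 2) hs k (a j)
    have h3 := hA j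
    linarith
  have hU : nrm_PSI (δ / 2) k (UU a j ^ (k + 1)) ≤ ((2 / δ) ^ 2) ^ (k + 1) := by
    refine le_trans (nrm_pow_PSI _ hs k _ _) ?_
    exact pow_le_pow_left₀ (nrm_nonneg_PSI _ hs k _) (nrm_UU_PSI δ hδ k a hd j) _
  have hT : nrm_PSI (δ / 2) k (G k x (a j) * (X + C (a j)) ^ r * UU a j ^ (k + 1)) ≤
      (2 * 8 ^ k * M ^ k) * (2 * A) ^ r * ((2 / δ) ^ 2) ^ (k + 1) := by
    refine le_trans (nrm_mul_PSI _ hs k _ _) ?_
    apply mul_le_mul _ hU (nrm_nonneg_PSI _ hs k _) (by positivity)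
    refine le_trans (nrm_mul_PSI _ hs k _ _) ?_
    exact mul_le_mul hG hX (nrm_nonneg_PSI _ hs k _) (by positivity)
  have hc := coeff_le_PSI (δ / 2) hs k (G k x (a j) * (X + C (a j)) ^ r * UU a j ^ (k + 1))
  have hpsi : ‖psi a k x j r‖ * (δ / 2) ^ k ≤
      (2 * 8 ^ k * M ^ k) * (2 * A) ^ r * ((2 / δ) ^ 2) ^ (k + 1) := le_trans hc hT
  have hsk : (0 : ℝ) < (δ / 2) ^ k := by positivity
  have h2r : (2 : ℝ) ^ r ≤ 4 := by
    calc (2 : ℝ) ^ r ≤ 2 ^ 2 := pow_le_pow_right₀ (by norm_num) hr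
      _ = 4 := by norm_num
  have hfin : ‖psi a k x j r‖ ≤
      (2 * 8 ^ k * M ^ k) * (2 * A) ^ r * ((2 / δ) ^ 2) ^ (k + 1) * (2 / δ) ^ k := by
    have e : (δ / 2) ^ k * (2 / δ) ^ k = 1 := by
      rw [← mul_pow]
      have : δ / 2 * (2 / δ) = 1 := by field_simp
      rw [this, one_pow]
    calc ‖psi a k x j r‖ = (‖psi a k x j r‖ * (δ / 2) ^ k) * (2 / δ) ^ k := by
          rw [mul_assoc, e, mul_one]
      _ ≤ _ := mul_le_mul_of_nonneg_right hpsi (by positivity)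
  refine le_trans hfin ?_
  have e3 : (2 * 8 ^ k * M ^ k) * (2 * A) ^ r * ((2 / δ) ^ 2) ^ (k + 1) * (2 / δ) ^ k =
      (2 ^ r * (8 * 64 ^ k)) * (M ^ k * A ^ r * (1 / δ) ^ (3 * k + 2)) := by
    have e4 : ((2 / δ) ^ 2) ^ (k + 1) * (2 / δ) ^ k = (2 / δ) ^ (3 * k + 2) := by
      rw [← pow_mul, ← pow_add]
      congr 1
      ring
    have e5 : (2 / δ) = 2 * (1 / δ) := by ring
    have e6 : (2 : ℝ) ^ (3 * k + 2) = 8 ^ k * 4 := by
      rw [pow_add, pow_mul]; norm_num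
    have e7 : (64 : ℝ) ^ k = 8 ^ k * 8 ^ k := by
      rw [← mul_pow]; norm_num
    rw [mul_assoc, e4, e5, mul_pow, mul_pow, e6, e7]
    ring
  rw [e3]
  have hB : 0 ≤ M ^ k * A ^ r * (1 / δ) ^ (3 * k + 2) := by positivity
  have h64 : (2 : ℝ) ^ r * (8 * 64 ^ k) ≤ 64 ^ (k + 1) := by
    have hp : (0 : ℝ) < 64 ^ k := by positivity
    rw [pow_succ]
    nlinarith
  calc (2 ^ r * (8 * 64 ^ k)) * (M ^ k * A ^ r * (1 / δ) ^ (3 * k + 2))
      ≤ 64 ^ (k + 1) * (M ^ k * A ^ r * (1 / δ) ^ (3 * k + 2)) :=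
        mul_le_mul_of_nonneg_right h64 hB
    _ = 64 ^ (k + 1) * M ^ k * A ^ r * (1 / δ) ^ (3 * k + 2) := by ring

end Pool.Agent.Helper3.DW
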