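import Mathlib
import Pool.Agent.Helper3.DW.St

set_option autoImplicit false

/-! # Project DW, module REM: bound for the Padé remainder -/

namespace Pool.Agent.Helper3.DW

open Finset

private theorem term_zero_REM (h3 : ST_RZ) (h4 : ST_MAP) (K : Type) [Field K] [CharZero K]
    (b : Fin 3 → ℚ) (hb : Function.Injective b) (k m : ℕ) (hm : m < 3 * k + 2) :
    rho (fun i => ((b i : ℚ) : K)) k m = 0 := by
  rw [(h4 K b k).2 m, h3 b hb k m hm]
  simp

theorem hREM (h1 : ST_SUM) (h2 : ST_RHO) (h3 : ST_RZ) (h4 : ST_MAP) : ST_REM := by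
  intro K _ _ _ hbc b hb k r hr x A δ hδ hA hd hxA
  have hA0 : 0 ≤ A := (norm_nonneg _).trans (hA 0)
  have hX0 : 0 ≤ ‖x‖ := norm_nonneg x
  have ht0 : 0 ≤ ‖x‖ * A := mul_nonneg hX0 hA0
  have hδ0 : 0 ≤ 1 / δ := by positivity
  -- the expansion
  have hsum := h1 K hbc (fun i => ((b i : ℚ) : K)) k r x (fun j => by
    rw [norm_mul]
    calc ‖((b j : ℚ) : K)‖ * ‖x‖ ≤ A * ‖x‖ := mul_le_mul_of_nonneg_right (hA j) hX0
      _ = ‖x‖ * A := mul_comm _ _
      _ ≤ 1 / 64 := hxA)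
  set S : K := ∑ j, th (((b j : ℚ) : K) * x) * psi (fun i => ((b i : ℚ) : K)) k x j r with hS
  set f : ℕ → K := fun m => ((bc k m : ℚ) : K) * x ^ m *
    rho (fun i => ((b i : ℚ) : K)) k (m + r) with hf
  have hsum' : HasSum f S := hsum
  -- the first terms vanish
  have hM : 3 * k + 2 - r + r = 3 * k + 2 := by omega
  have hz : ∑ i ∈ range (3 * k + 2 - r), f i = 0 := by
    refine Finset.sum_eq_zero fun i hi => ?_
    have hi' : i + r < 3 * k + 2 := by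
      have := Finset.mem_range.1 hi
      omega
    simp only [hf]
    rw [term_zero_REM h3 h4 K b hb k (i + r) hi', mul_zero]
  have hshift : HasSum (fun m => f (m + (3 * k + 2 - r))) S := by
    have := (hasSum_nat_add_iff' (3 * k + 2 - r)).2 hsum'
    rwa [hz, sub_zero] at this
  -- the bound of the other terms
  have hterm : ∀ m, ‖f (m + (3 * k + 2 - r))‖ ≤
      (12 * 16 ^ k * (8 * (‖x‖ * A)) ^ (3 * k + 2 - r) * (2 * A) ^ r * (1 / δ) ^ (3 * k + 2)) *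
        (8 * (‖x‖ * A)) ^ m := by
    intro m
    have hr1 := h2 K (fun i => ((b i : ℚ) : K)) k (m + (3 * k + 2 - r) + r) A δ hδ hA hd
    have hb1 := hbc k (m + (3 * k + 2 - r))
    simp only [hf]
    rw [norm_mul, norm_mul, norm_pow]
    calc ‖((bc k (m + (3 * k + 2 - r)) : ℚ) : K)‖ * ‖x‖ ^ (m + (3 * k + 2 - r)) *
          ‖rho (fun i => ((b i : ℚ) : K)) k (m + (3 * k + 2 - r) + r)‖
        ≤ (2 ^ k * 4 ^ (m + (3 * k + 2 - r))) * ‖x‖ ^ (m + (3 * k + 2 - r)) *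
          (12 * 8 ^ k * (2 * A) ^ (m + (3 * k + 2 - r) + r) * (1 / δ) ^ (3 * k + 2)) := by
          refine mul_le_mul (mul_le_mul_of_nonneg_right hb1 (by positivity)) hr1
            (norm_nonneg _) (by positivity)
      _ = (12 * 16 ^ k * (8 * (‖x‖ * A)) ^ (3 * k + 2 - r) * (2 * A) ^ r *
            (1 / δ) ^ (3 * k + 2)) * (8 * (‖x‖ * A)) ^ m := by
          have e1 : (16 : ℝ) ^ k = 2 ^ k * 8 ^ k := by
            rw [← mul_pow]; norm_num
          have e2 : ∀ n : ℕ, (8 * (‖x‖ * A)) ^ n = 4 ^ n * ‖x‖ ^ n * (2 * A) ^ n := by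
            intro n
            rw [← mul_pow, ← mul_pow]
            congr 1
            ring
          rw [e1, e2, e2]
          ring
  have h8 : 8 * (‖x‖ * A) ≤ 1 / 8 := by linarith
  have h80 : 0 ≤ 8 * (‖x‖ * A) := by positivity
  have hgeo : HasSum (fun m : ℕ =>
      (12 * 16 ^ k * (8 * (‖x‖ * A)) ^ (3 * k + 2 - r) * (2 * A) ^ r * (1 / δ) ^ (3 * k + 2)) *
        (8 * (‖x‖ * A)) ^ m)
      ((12 * 16 ^ k * (8 * (‖x‖ * A)) ^ (3 * k + 2 - r) * (2 * A) ^ r * (1 / δ) ^ (3 * k + 2)) *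
        (1 - 8 * (‖x‖ * A))⁻¹) :=
    (hasSum_geometric_of_lt_one h80 (by linarith)).mul_left _
  have hle := tsum_of_norm_bounded hgeo hterm
  rw [hshift.tsum_eq] at hle
  refine hle.trans ?_
  -- the constants
  have hinv : (1 - 8 * (‖x‖ * A))⁻¹ ≤ 8 / 7 := by
    rw [inv_le_comm₀ (by linarith) (by norm_num)]
    norm_num
    linarith
  have hinv0 : 0 ≤ (1 - 8 * (‖x‖ * A))⁻¹ := by
    apply inv_nonneg.2
    linarith
  have hpow : (8 : ℝ) ^ (3 * k + 2 - r) * 2 ^ r ≤ 64 * 512 ^ k := by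
    calc (8 : ℝ) ^ (3 * k + 2 - r) * 2 ^ r ≤ 8 ^ (3 * k + 2 - r) * 8 ^ r := by
          apply mul_le_mul_of_nonneg_left _ (by positivity)
          exact pow_le_pow_left₀ (by norm_num) (by norm_num) _
      _ = 8 ^ (3 * k + 2) := by rw [← pow_add, hM]
      _ = 64 * 512 ^ k := by
          rw [pow_add, pow_mul]
          norm_num
          ring
  have e3 : (8192 : ℝ) ^ (k + 1) = 8192 * (16 ^ k * 512 ^ k) := by
    rw [← mul_pow, pow_succ]
    norm_num
    ring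
  have hC0 : 0 ≤ 16 ^ k * ((‖x‖ * A) ^ (3 * k + 2 - r) * A ^ r * (1 / δ) ^ (3 * k + 2)) := by
    positivity
  calc (12 * 16 ^ k * (8 * (‖x‖ * A)) ^ (3 * k + 2 - r) * (2 * A) ^ r * (1 / δ) ^ (3 * k + 2)) *
        (1 - 8 * (‖x‖ * A))⁻¹
      = 12 * (8 ^ (3 * k + 2 - r) * 2 ^ r) * (1 - 8 * (‖x‖ * A))⁻¹ *
        (16 ^ k * ((‖x‖ * A) ^ (3 * k + 2 - r) * A ^ r * (1 / δ) ^ (3 * k + 2))) := by
        rw [mul_pow, mul_pow 2 A]
        ring
    _ ≤ 12 * (64 * 512 ^ k) * (8 / 7) *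
        (16 ^ k * ((‖x‖ * A) ^ (3 * k + 2 - r) * A ^ r * (1 / δ) ^ (3 * k + 2))) := by
        apply mul_le_mul_of_nonneg_right _ hC0
        apply mul_le_mul _ hinv hinv0 (by positivity)
        exact mul_le_mul_of_nonneg_left hpow (by norm_num)
    _ ≤ 8192 * 512 ^ k *
        (16 ^ k * ((‖x‖ * A) ^ (3 * k + 2 - r) * A ^ r * (1 / δ) ^ (3 * k + 2))) := by
        apply mul_le_mul_of_nonneg_right _ hC0
        have : (0 : ℝ) < 512 ^ k := by positivity
        nlinarith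
    _ = 8192 ^ (k + 1) * (‖x‖ * A) ^ (3 * k + 2 - r) * A ^ r * (1 / δ) ^ (3 * k + 2) := by
        rw [e3]
        ring

end Pool.Agent.Helper3.DW
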