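import Mathlib
import Pool.Agent.Helper3.DW.St2

set_option autoImplicit false

/-! # Module RG2 of project DW -/

namespace Pool.Agent.Helper3.DW

open Finset

theorem Cls.hh_ge_RG2 {n : ℤ} {R : ℕ} {V : Finset ℕ} {w : ℕ → ℝ} {P : Finset ℤ}
    (h : Cls n R V w P) {a : ℤ} (ha : a ∈ P) {v : ℕ} (hv : v ∈ V) : 1000 / 24 ≤ hh n v a := by
  obtain ⟨hn, hR, hcard, hVP, hw, hws, hws1, hpos, hsq, hbig, hprof⟩ := h
  have hR' : (1 : ℝ) ≤ (R : ℝ) := by exact_mod_cast hR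
  have h1 := hw v hv
  have h2 := hbig a ha
  have h3 := ((hprof a ha).1 v hv).1
  have hw0 : (0 : ℝ) ≤ w v := le_trans (by positivity) h1
  calc (1000 / 24 : ℝ) = 1 / (24 * (R : ℝ)) * (1000 * (R : ℝ)) := by field_simp
    _ ≤ w v * HH n a := mul_le_mul h1 h2 (by positivity) hw0
    _ ≤ hh n v a := h3

theorem Cls.large_RG2 {n : ℤ} {R : ℕ} {V : Finset ℕ} {w : ℕ → ℝ} {P : Finset ℤ}
    (h : Cls n R V w P) {a x : ℤ} (ha : a ∈ P) (hx : x ∈ P) {v : ℕ} (hv : v ∈ V) :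
    64 * av v (n : ℚ) ≤ av v ((a * x : ℤ) : ℚ) := by
  have h1 := h.hh_ge_RG2 ha hv
  have h2 := h.hh_ge_RG2 hx hv
  obtain ⟨hn, hR, hcard, hVP, hw, hws, hws1, hpos, hsq, hbig, hprof⟩ := h
  have hPl : isPl v := isPl_of_mem (hVP hv)
  have hn' : (n : ℚ) ≠ 0 := by exact_mod_cast hn
  have ha' : (a : ℚ) ≠ 0 := by exact_mod_cast (hpos a ha).ne'
  have hx' : (x : ℚ) ≠ 0 := by exact_mod_cast (hpos x hx).ne'
  have hnp := av_pos v hPl _ hn'
  have hlog : Real.log (64 * av v (n : ℚ)) ≤ Real.log (av v ((a * x : ℤ) : ℚ)) := by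
    rw [Real.log_mul (by norm_num) hnp.ne', Int.cast_mul, log_av_mul v hPl _ _ ha' hx',
      log_av_eq n v a, log_av_eq n v x]
    have h64 : Real.log 64 = 6 * Real.log 2 := by
      rw [show (64 : ℝ) = 2 ^ 6 by norm_num, Real.log_pow]; norm_num
    have h2' := Real.log_two_lt_d9
    rw [h64]
    linarith
  have hax : ((a * x : ℤ) : ℚ) ≠ 0 := by
    push_cast
    exact mul_ne_zero ha' hx'
  exact (Real.log_le_log_iff (by positivity) (av_pos v hPl _ hax)).1 hlog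

theorem Cls.root_RG2 {n : ℤ} {R : ℕ} {V : Finset ℕ} {w : ℕ → ℝ} {P : Finset ℤ}
    (h : Cls n R V w P) {a x : ℤ} (ha : a ∈ P) (hx : x ∈ P) (hax : a ≠ x) :
    0 < Int.sqrt (a * x + n) ∧ (Int.sqrt (a * x + n)) ^ 2 = a * x + n := by
  have hlarge := fun {v : ℕ} (hv : v ∈ V) => h.large_RG2 ha hx hv
  obtain ⟨hn, hR, hcard, hVP, hw, hws, hws1, hpos, hsq, hbig, hprof⟩ := h
  have hVne : V.Nonempty := by
    rw [Finset.nonempty_iff_ne_empty]
    rintro rfl
    rw [Finset.sum_empty] at hws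
    norm_num at hws
  obtain ⟨v, hv⟩ := hVne
  have hPl : isPl v := isPl_of_mem (hVP hv)
  have hn' : (n : ℚ) ≠ 0 := by exact_mod_cast hn
  have hne : a * x + n ≠ 0 := by
    intro h0
    have h1 : ((a * x : ℤ) : ℚ) = -(n : ℚ) := by
      have : a * x = -n := by linarith
      rw [this]; push_cast; ring
    have h2 := hlarge hv
    rw [h1, av_neg v hPl] at h2
    have := av_pos v hPl _ hn'
    linarith
  obtain ⟨r, hr⟩ := hsq a ha x hx hax
  have hr0 : r ≠ 0 := by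
    rintro rfl
    exact hne (by simpa using hr)
  rw [hr, Int.sqrt_eq]
  refine ⟨by exact_mod_cast Int.natAbs_pos.2 hr0, ?_⟩
  rw [Int.natCast_natAbs, sq_abs, sq]

theorem hRG2 (h1 : ST_RNG) (h2 : ST_SGC) (h3 : ST_SGN) : ST_RG2 := by
  classical
  intro n R V w P hC m hm hP
  by_contra hcon
  push Not at hcon
  have hC' := hC
  obtain ⟨hn, hR, hcard, hVP, hw, hws, hws1, hpos, hsq, hbig, hprof⟩ := hC'
  -- three rows
  have hP3 : 3 ≤ P.card := (Nat.le_add_right 3 _).trans hcon.le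
  obtain ⟨A, hAP, hA3⟩ := Finset.exists_subset_card_eq hP3
  obtain ⟨ea⟩ : Nonempty (Fin 3 ≃ A) := ⟨(Finset.equivFinOfCardEq hA3).symm⟩
  set a : Fin 3 → ℤ := fun i => ((ea i : A) : ℤ) with ha
  have hainj : Function.Injective a := fun i i' h => ea.injective (Subtype.ext h)
  have haA : ∀ i, a i ∈ A := fun i => (ea i).2
  have haP : ∀ i, a i ∈ P := fun i => hAP (haA i)
  set X := P \ A with hX
  have hXP : ∀ x ∈ X, x ∈ P := fun x hx => (Finset.mem_sdiff.1 hx).1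
  have hax : ∀ i, ∀ x ∈ X, a i ≠ x := fun i x hx h =>
    (Finset.mem_sdiff.1 hx).2 (h ▸ haA i)
  have hXcard : P.card = 3 + X.card := by
    rw [hX, Finset.card_sdiff_of_subset hAP, hA3]; omega
  set z : Fin 3 → ℤ → ℤ := fun i x => Int.sqrt (a i * x + n) with hz
  have hzpos : ∀ i, ∀ x ∈ X, 0 < z i x := fun i x hx =>
    (hC.root_RG2 (haP i) (hXP x hx) (hax i x hx)).1
  have hzsq : ∀ i, ∀ x ∈ X, z i x ^ 2 = a i * x + n := fun i x hx =>
    (hC.root_RG2 (haP i) (hXP x hx) (hax i x hx)).2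
  have hVpl : ∀ v ∈ V, isPl v := fun v hv => isPl_of_mem (hVP hv)
  have hlarge : ∀ v ∈ V, v ≠ 0 → ∀ i, ∀ x ∈ X, 64 * av v (n : ℚ) ≤ av v ((a i * x : ℤ) : ℚ) :=
    fun v hv _ i x hx => hC.large_RG2 (haP i) (hXP x hx) hv
  obtain ⟨X', hX'X, hX'card, hgood⟩ := h2 n a z X R V hn
    ((Finset.card_le_card hVP).trans hcard) hVpl hzsq hlarge
  have hX'3 : 3 ≤ X'.card := by
    by_contra hlt
    push Not at hlt
    have h5 : X.card ≤ 2 ^ (9 * R) * 2 :=
      hX'card.trans (Nat.mul_le_mul_left _ (by omega))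
    rw [pow_succ] at hcon
    omega
  obtain ⟨B, hBX, hB3⟩ := Finset.exists_subset_card_eq hX'3
  obtain ⟨eb⟩ : Nonempty (Fin 3 ≃ B) := ⟨(Finset.equivFinOfCardEq hB3).symm⟩
  set x : Fin 3 → ℤ := fun i => ((eb i : B) : ℤ) with hx
  have hxinj : Function.Injective x := fun i i' h => eb.injective (Subtype.ext h)
  have hxX' : ∀ j, x j ∈ X' := fun j => hBX (eb j).2
  have hxX : ∀ j, x j ∈ X := fun j => hX'X (hxX' j)
  have hxP : ∀ j, x j ∈ P := fun j => hXP _ (hxX j)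
  refine h1 n a x (fun i j => z i (x j)) R V w m hn hR hcard hVP hw hws hws1 hm hainj hxinj
    (fun i => hpos _ (haP i)) (fun i => hpos _ (hxP i)) (fun i j => hzpos i _ (hxX j))
    (fun i j => hzsq i _ (hxX j)) ?_ ?_
  · intro y hy
    have hyP : y ∈ P := by
      rcases hy with ⟨i, rfl⟩ | ⟨j, rfl⟩
      · exact haP i
      · exact hxP j
    exact ⟨(hP y hyP).1, (hP y hyP).2, (hprof y hyP).1, (hprof y hyP).2⟩
  · intro v hv hv0 i k j l _ _
    have hvp : v.Prime := by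
      rcases hVpl v hv with h | h
      · exact absurd h hv0
      · exact h
    have h6 := (h3 v hvp n (a i) (a k) (z i) (z k) X' hn
      (fun x hx => ⟨hzsq i x (hX'X hx), hzsq k x (hX'X hx)⟩)
      (fun x hx => ⟨hlarge v hv hv0 i x (hX'X hx), hlarge v hv hv0 k x (hX'X hx)⟩)).2
      (x j) (hxX' j) (x l) (hxX' l) (hgood v hv hv0 i k (x j) (hxX' j) (x l) (hxX' l))
    exact h6

end Pool.Agent.Helper3.DW
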