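import Mathlib
import Pool.Agent.Helper3.DW.St

set_option autoImplicit false

/-! # Project DW, module RHO: bound for the residue sums -/

namespace Pool.Agent.Helper3.DW

open Finset PowerSeries

section

variable {K : Type} [NormedField K]

/-- truncated weighted norm -/
noncomputable def nrm_RHO (s : ℝ) (N : ℕ) (F : PowerSeries K) : ℝ :=
  ∑ m ∈ range (N + 1), ‖coeff m F‖ * s ^ m

theorem nrm_nonneg_RHO {s : ℝ} (hs : 0 < s) (N : ℕ) (F : PowerSeries K) :
    0 ≤ nrm_RHO s N F :=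
  Finset.sum_nonneg (fun _ _ => by positivity)

theorem nrm_one_RHO (s : ℝ) (N : ℕ) : nrm_RHO s N (1 : PowerSeries K) = 1 := by
  rw [nrm_RHO, Finset.sum_range_succ']
  simp [coeff_one]

theorem nrm_mul_RHO {s : ℝ} (hs : 0 < s) (N : ℕ) (F G : PowerSeries K) :
    nrm_RHO s N (F * G) ≤ nrm_RHO s N F * nrm_RHO s N G := by
  classical
  set f : ℕ × ℕ → ℝ := fun p => (‖coeff p.1 F‖ * s ^ p.1) * (‖coeff p.2 G‖ * s ^ p.2)
    with hf
  have hf0 : ∀ p, 0 ≤ f p := fun p => by rw [hf]; positivity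
  have h1 : nrm_RHO s N (F * G) ≤ ∑ m ∈ range (N + 1), ∑ p ∈ antidiagonal m, f p := by
    refine Finset.sum_le_sum (fun m _ => ?_)
    rw [coeff_mul]
    calc ‖∑ p ∈ antidiagonal m, coeff p.1 F * coeff p.2 G‖ * s ^ m
        ≤ (∑ p ∈ antidiagonal m, ‖coeff p.1 F * coeff p.2 G‖) * s ^ m :=
          mul_le_mul_of_nonneg_right (norm_sum_le _ _) (by positivity)
      _ = ∑ p ∈ antidiagonal m, f p := by
          rw [Finset.sum_mul]
          refine Finset.sum_congr rfl (fun p hp => ?_)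
          have : p.1 + p.2 = m := HasAntidiagonal.mem_antidiagonal.1 hp
          rw [hf, norm_mul, ← this, pow_add]
          ring
  set t : Finset (ℕ × ℕ) := (range (N + 1) ×ˢ range (N + 1)).filter (fun p => p.1 + p.2 ≤ N)
    with ht
  have h2 : ∑ m ∈ range (N + 1), ∑ p ∈ antidiagonal m, f p = ∑ p ∈ t, f p := by
    rw [← Finset.sum_fiberwise_of_maps_to (s := t) (t := range (N + 1)) (g := fun p => p.1 + p.2)]
    · refine Finset.sum_congr rfl (fun m hm => ?_)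
      refine Finset.sum_congr ?_ (fun _ _ => rfl)
      ext p
      simp only [ht, HasAntidiagonal.mem_antidiagonal, Finset.mem_filter, Finset.mem_product,
        Finset.mem_range] at hm ⊢
      constructor
      · intro h; refine ⟨⟨⟨?_, ?_⟩, ?_⟩, h⟩ <;> omega
      · intro h; exact h.2
    · intro p hp
      simp only [ht, Finset.mem_filter, Finset.mem_product, Finset.mem_range] at hp ⊢
      omega
  have h3 : ∑ p ∈ t, f p ≤ ∑ p ∈ range (N + 1) ×ˢ range (N + 1), f p :=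
    Finset.sum_le_sum_of_subset_of_nonneg (Finset.filter_subset _ _) (fun p _ _ => hf0 p)
  have h4 : ∑ p ∈ range (N + 1) ×ˢ range (N + 1), f p = nrm_RHO s N F * nrm_RHO s N G := by
    rw [nrm_RHO, nrm_RHO, Finset.sum_mul_sum, Finset.sum_product]
  linarith

theorem nrm_pow_RHO {s : ℝ} (hs : 0 < s) (N : ℕ) (F : PowerSeries K) (n : ℕ) :
    nrm_RHO s N (F ^ n) ≤ nrm_RHO s N F ^ n := by
  induction n with
  | zero => rw [pow_zero, pow_zero, nrm_one_RHO]
  | succ n ih =>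
    rw [pow_succ, pow_succ]
    exact le_trans (nrm_mul_RHO hs N _ _) (mul_le_mul_of_nonneg_right ih (nrm_nonneg_RHO hs N F))

theorem coeff_le_nrm_RHO {s : ℝ} (hs : 0 < s) (N : ℕ) (F : PowerSeries K) :
    ‖coeff N F‖ ≤ (1 / s) ^ N * nrm_RHO s N F := by
  have h1 : ‖coeff N F‖ * s ^ N ≤ nrm_RHO s N F := by
    rw [nrm_RHO]
    exact Finset.single_le_sum (f := fun m => ‖coeff m F‖ * s ^ m)
      (fun _ _ => by positivity) (Finset.mem_range.2 (by omega))
  have h2 : ‖coeff N F‖ = (1 / s) ^ N * (‖coeff N F‖ * s ^ N) := by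
    rw [one_div, inv_pow]; field_simp
  rw [h2]
  exact mul_le_mul_of_nonneg_left h1 (by positivity)

theorem nrm_X_add_C_RHO {s : ℝ} (hs : 0 < s) (N : ℕ) (c : K) :
    nrm_RHO s N (X + C c : PowerSeries K) ≤ ‖c‖ + s := by
  rw [nrm_RHO]
  have h : ∀ m ∈ range (N + 1), ‖coeff m (X + C c : PowerSeries K)‖ * s ^ m ≤
      (if m = 0 then ‖c‖ else 0) + (if m = 1 then s else 0) := by
    intro m _
    rw [map_add, coeff_X, coeff_C]
    rcases m with _ | _ | m
    · simp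
    · simp
    · simp
  refine le_trans (Finset.sum_le_sum h) ?_
  rw [Finset.sum_add_distrib, Finset.sum_ite_eq', Finset.sum_ite_eq', if_pos (by simp)]
  split_ifs <;> linarith

theorem sum_half_pow_RHO (N : ℕ) : ∑ m ∈ range (N + 1), (1 / 2 : ℝ) ^ m ≤ 2 := by
  rw [geom_sum_eq (by norm_num)]
  have : (0 : ℝ) < (1 / 2) ^ (N + 1) := by positivity
  rw [div_le_iff_of_neg (by norm_num)]
  linarith

theorem nrm_U_RHO {δ : ℝ} (hδ : 0 < δ) (N : ℕ) (c : K) (hc : δ ≤ ‖c‖) :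
    nrm_RHO (δ / 2) N (U c) ≤ 2 / δ := by
  have h0 : nrm_RHO (δ / 2) N (U c) ≤ ∑ m ∈ range (N + 1), (1 / δ) * (1 / 2 : ℝ) ^ m := by
    refine Finset.sum_le_sum (fun m _ => ?_)
    rw [U, coeff_mk, norm_mul, norm_pow, norm_pow, norm_neg, norm_one, one_pow, one_mul,
      norm_inv]
    have hc0 : 0 < ‖c‖ := lt_of_lt_of_le hδ hc
    have h1 : ‖c‖⁻¹ ≤ δ⁻¹ := inv_anti₀ hδ hc
    have h2 : ‖c‖⁻¹ ^ (m + 1) ≤ δ⁻¹ ^ (m + 1) := pow_le_pow_left₀ (by positivity) h1 _
    calc ‖c‖⁻¹ ^ (m + 1) * (δ / 2) ^ m ≤ δ⁻¹ ^ (m + 1) * (δ / 2) ^ m :=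
          mul_le_mul_of_nonneg_right h2 (by positivity)
      _ = (1 / δ) * (1 / 2 : ℝ) ^ m := by
          rw [pow_succ, div_pow, div_pow, one_pow, inv_pow]
          field_simp
  refine le_trans h0 ?_
  rw [← Finset.mul_sum]
  have h3 := sum_half_pow_RHO N
  have h4 : (0 : ℝ) < 1 / δ := by positivity
  calc (1 / δ) * ∑ m ∈ range (N + 1), (1 / 2 : ℝ) ^ m ≤ (1 / δ) * 2 :=
        mul_le_mul_of_nonneg_left h3 h4.le
    _ = 2 / δ := by ring

theorem nrm_UU_RHO {δ : ℝ} (hδ : 0 < δ) (N : ℕ) (a : Fin 3 → K)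
    (ha : ∀ i j, i ≠ j → δ ≤ ‖a i - a j‖) (j : Fin 3) :
    nrm_RHO (δ / 2) N (UU a j) ≤ (2 / δ) ^ 2 := by
  have hs : 0 < δ / 2 := by positivity
  have hprod : ∀ s : Finset (Fin 3), (∀ h ∈ s, h ≠ j) →
      nrm_RHO (δ / 2) N (∏ h ∈ s, U (a j - a h)) ≤ (2 / δ) ^ s.card := by
    intro s
    induction s using Finset.induction_on with
    | empty => intro _; simp [nrm_one_RHO]
    | insert b s hb ih =>
      intro hs'
      rw [Finset.prod_insert hb, Finset.card_insert_of_notMem hb, pow_succ']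
      refine le_trans (nrm_mul_RHO hs N _ _) (mul_le_mul ?_ (ih (fun h hh => hs' h (by simp [hh])))
        (nrm_nonneg_RHO hs N _) (by positivity))
      exact nrm_U_RHO hδ N _ (ha j b (fun e => hs' b (by simp) e.symm))
  have := hprod (univ.erase j) (fun h hh => (Finset.mem_erase.1 hh).1)
  rw [Finset.card_erase_of_mem (Finset.mem_univ j)] at this
  rw [UU]
  norm_num at this
  exact this

end

theorem hRHO : ST_RHO := by
  intro K _ a k m A δ hδ hA hsep
  have hs : 0 < δ / 2 := by positivity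
  have hA2 : δ ≤ 2 * A := by
    have h1 := hsep 0 1 (by decide)
    have h2 := norm_sub_le (a 0) (a 1)
    have h3 := hA 0
    have h4 := hA 1
    linarith
  have hone : ∀ j : Fin 3, ‖coeff k ((X + C (a j)) ^ m * UU a j ^ (k + 1))‖ ≤
      (2 / δ) ^ k * ((2 * A) ^ m * ((2 / δ) ^ 2) ^ (k + 1)) := by
    intro j
    have h1 := coeff_le_nrm_RHO hs k ((X + C (a j)) ^ m * UU a j ^ (k + 1) : PowerSeries K)
    have h2 : nrm_RHO (δ / 2) k ((X + C (a j)) ^ m * UU a j ^ (k + 1) : PowerSeries K) ≤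
        (2 * A) ^ m * ((2 / δ) ^ 2) ^ (k + 1) := by
      refine le_trans (nrm_mul_RHO hs k _ _) (mul_le_mul ?_ ?_ (nrm_nonneg_RHO hs k _)
        (by have : 0 < 2 * A := lt_of_lt_of_le hδ hA2
            positivity))
      · refine le_trans (nrm_pow_RHO hs k _ _) (pow_le_pow_left₀ (nrm_nonneg_RHO hs k _) ?_ _)
        refine le_trans (nrm_X_add_C_RHO hs k _) ?_
        have := hA j
        linarith
      · exact le_trans (nrm_pow_RHO hs k _ _) (pow_le_pow_left₀ (nrm_nonneg_RHO hs k _)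
          (nrm_UU_RHO hδ k a hsep j) _)
    have h3 : (1 / (δ / 2)) = 2 / δ := by field_simp
    rw [h3] at h1
    exact le_trans h1 (mul_le_mul_of_nonneg_left h2 (by positivity))
  have h5 : ‖rho a k m‖ ≤ ∑ _j : Fin 3, (2 / δ) ^ k * ((2 * A) ^ m * ((2 / δ) ^ 2) ^ (k + 1)) := by
    rw [rho]
    exact le_trans (norm_sum_le _ _) (Finset.sum_le_sum fun j _ => hone j)
  refine le_trans h5 (le_of_eq ?_)
  rw [Finset.sum_const, Finset.card_univ, Fintype.card_fin, nsmul_eq_mul]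
  have e1 : (2 / δ) = 2 * (1 / δ) := by ring
  have e2 : (8 : ℝ) ^ k = 2 ^ k * 2 ^ k * 2 ^ k := by
    rw [← mul_pow, ← mul_pow]; norm_num
  rw [e1, e2, mul_pow, mul_pow, mul_pow, mul_pow]
  have e3 : (1 / δ) ^ (3 * k + 2) = (1 / δ) ^ k * ((1 / δ) ^ 2) ^ (k + 1) := by
    rw [← pow_mul, ← pow_add]
    congr 1
    ring
  have e4 : ((2 : ℝ) ^ 2) ^ (k + 1) = 4 * (2 ^ k * 2 ^ k) := by
    rw [← mul_pow, pow_succ]
    norm_num
    ring
  rw [e3, e4]
  push_cast
  ring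

end Pool.Agent.Helper3.DW
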