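import Mathlib
import Pool.Agent.Helper3.DW.St2

set_option autoImplicit false

namespace Pool.Agent.Helper3.DW

open Finset

/-- `|a|_v = exp (hh + L/2)` -/
private theorem av_exp_RNG (n : ℤ) (v : ℕ) (hv : isPl v) (a : ℤ) (ha : a ≠ 0) :
    av v (a : ℚ) = Real.exp (hh n v a + Real.log (av v (n : ℚ)) / 2) := by
  rw [← log_av_eq, Real.exp_log]
  exact av_pos v hv _ (by exact_mod_cast ha)

private theorem vV_RNG (h2 : ST_DET) (K : Type) [NormedField K] (v : ℕ) (hv : isPl v)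
    (hK : ∀ x : ℚ, ‖(x : K)‖ = av v x) (n : ℤ) (hn : n ≠ 0) (a x : Fin 3 → ℤ)
    (z : Fin 3 → Fin 3 → ℤ) (ha : ∀ i, a i ≠ 0) (hx : ∀ i, x i ≠ 0) (s t : ℝ)
    (hs : Real.log 64 ≤ 2 * s) (hsa : ∀ i, s ≤ hh n v (a i) ∧ hh n v (a i) ≤ t)
    (hsx : ∀ i, s ≤ hh n v (x i) ∧ hh n v (x i) ≤ t)
    (hz : ∀ i j, z i j ^ 2 = a i * x j + n)
    (sgn : ∀ i k j l, i ≠ k → j ≠ l → av v (((z i j * z k l : ℤ)) : ℚ) / 2 ≤
      av v (((z i j * z k l + z i l * z k j : ℤ)) : ℚ)) (hD : det3 z ≠ 0) :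
    Real.log (av v ((det3 z : ℤ) : ℚ)) ≤
      20 * Real.log 2 + 3 / 2 * Real.log (av v (n : ℚ)) + 7 * t - 10 * s := by
  set L : ℝ := Real.log (av v (n : ℚ)) with hL
  have hK' : ∀ y : ℤ, ‖((y : ℤ) : K)‖ = av v (y : ℚ) := by
    intro y
    rw [← hK (y : ℚ)]
    congr 1
    exact (Rat.cast_intCast y).symm
  have hnu : av v (n : ℚ) = Real.exp L := by
    rw [hL, Real.exp_log]
    exact av_pos v hv _ (by exact_mod_cast hn)
  have hnK : ((n : ℤ) : K) ≠ 0 := by
    intro h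
    have h1 := hK' n
    rw [h, norm_zero, hnu] at h1
    exact absurd h1.symm (Real.exp_pos _).ne'
  have hdet := h2 K (fun i => ((a i : ℤ) : K)) (fun i => ((x i : ℤ) : K)) ((n : ℤ) : K)
    (fun i j => ((z i j : ℤ) : K)) (Real.exp (s + L / 2)) (Real.exp (t + L / 2))
    (Real.exp (s + L / 2)) (Real.exp (t + L / 2)) (Real.exp_pos _) (Real.exp_pos _) hnK
    (by
      intro i
      show Real.exp (s + L / 2) ≤ ‖((a i : ℤ) : K)‖ ∧ ‖((a i : ℤ) : K)‖ ≤ Real.exp (t + L / 2)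
      rw [hK' (a i), av_exp_RNG n v hv (a i) (ha i), ← hL]
      exact ⟨Real.exp_le_exp.2 (by linarith [(hsa i).1]), Real.exp_le_exp.2 (by linarith [(hsa i).2])⟩)
    (by
      intro i
      show Real.exp (s + L / 2) ≤ ‖((x i : ℤ) : K)‖ ∧ ‖((x i : ℤ) : K)‖ ≤ Real.exp (t + L / 2)
      rw [hK' (x i), av_exp_RNG n v hv (x i) (hx i), ← hL]
      exact ⟨Real.exp_le_exp.2 (by linarith [(hsx i).1]), Real.exp_le_exp.2 (by linarith [(hsx i).2])⟩)
    (by
      rw [hK' n, hnu, ← Real.exp_add]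
      have h64 : (64 : ℝ) = Real.exp (Real.log 64) := (Real.exp_log (by norm_num)).symm
      rw [h64, ← Real.exp_add]
      exact Real.exp_le_exp.2 (by linarith))
    (by
      intro i j
      show ((z i j : ℤ) : K) ^ 2 = ((a i : ℤ) : K) * ((x j : ℤ) : K) + ((n : ℤ) : K)
      have := congrArg (fun q : ℤ => (q : K)) (hz i j)
      simpa using this)
    (by
      intro i k j l hik hjl
      show ‖((z i j : ℤ) : K) * ((z k l : ℤ) : K)‖ / 2 ≤
        ‖((z i j : ℤ) : K) * ((z k l : ℤ) : K) + ((z i l : ℤ) : K) * ((z k j : ℤ) : K)‖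
      have e1 : ((z i j : ℤ) : K) * ((z k l : ℤ) : K) = ((z i j * z k l : ℤ) : K) := by push_cast; ring
      have e2 : ((z i j : ℤ) : K) * ((z k l : ℤ) : K) + ((z i l : ℤ) : K) * ((z k j : ℤ) : K) =
          ((z i j * z k l + z i l * z k j : ℤ) : K) := by push_cast; ring
      rw [e2, e1, hK', hK']
      exact sgn i k j l hik hjl)
  have eD : det3 (fun i j => ((z i j : ℤ) : K)) = ((det3 z : ℤ) : K) := by
    simp only [det3]
    push_cast
    ring
  rw [eD, hK', hK' n, hnu, ← Real.exp_add, ← Real.exp_add, ← Real.exp_nat_mul, ← Real.exp_nat_mul,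
    ← Real.exp_nat_mul] at hdet
  set D : ℝ := av v ((det3 z : ℤ) : ℚ) with hDdef
  have hDpos : 0 < D := av_pos v hv _ (by exact_mod_cast hD)
  have h3 := Real.log_le_log (by positivity) hdet
  rw [Real.log_mul (by positivity) (by positivity), Real.log_mul (by positivity) (by positivity),
    Real.log_mul (by positivity) (by positivity), Real.log_exp, Real.log_exp, Real.log_exp,
    Real.log_pow, Real.log_pow] at h3
  push_cast at h3
  linarith

private theorem vW_RNG (v : ℕ) (hv : isPl v) (n : ℤ) (hn : n ≠ 0) (a x : Fin 3 → ℤ)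
    (z : Fin 3 → Fin 3 → ℤ) (ha : ∀ i, a i ≠ 0) (hx : ∀ i, x i ≠ 0) (u : ℝ) (hu : 0 ≤ u)
    (hsa : ∀ i, hh n v (a i) ≤ u) (hsx : ∀ i, hh n v (x i) ≤ u)
    (hz : ∀ i j, z i j ^ 2 = a i * x j + n) (hD : det3 z ≠ 0) :
    Real.log (av v ((det3 z : ℤ) : ℚ)) ≤
      9 / 2 * Real.log 2 + 3 / 2 * Real.log (av v (n : ℚ)) + 3 * u := by
  set L : ℝ := Real.log (av v (n : ℚ)) with hL
  have hnu : av v (n : ℚ) = Real.exp L := by
    rw [hL, Real.exp_log]
    exact av_pos v hv _ (by exact_mod_cast hn)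
  set M : ℝ := Real.exp (Real.log 2 / 2 + u + L / 2) with hM
  have hMpos : 0 < M := Real.exp_pos _
  have hM2 : M ^ 2 = 2 * Real.exp (2 * u + L) := by
    rw [hM, ← Real.exp_nat_mul]
    have : ((2 : ℕ) : ℝ) * (Real.log 2 / 2 + u + L / 2) = Real.log 2 + (2 * u + L) := by
      push_cast; ring
    rw [this, Real.exp_add, Real.exp_log (by norm_num)]
  have hzM : ∀ i j, av v ((z i j : ℤ) : ℚ) ≤ M := by
    intro i j
    have h1 : av v ((z i j : ℤ) : ℚ) ^ 2 ≤ M ^ 2 := by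
      rw [← av_pow v hv, hM2]
      have e1 : ((z i j : ℤ) : ℚ) ^ 2 = (a i : ℚ) * (x j : ℚ) + (n : ℚ) := by
        have := congrArg (fun q : ℤ => (q : ℚ)) (hz i j)
        simpa using this
      rw [e1]
      refine le_trans (av_add v hv _ _) ?_
      rw [av_mul v hv, hnu, av_exp_RNG n v hv (a i) (ha i), av_exp_RNG n v hv (x j) (hx j), ← hL,
        ← Real.exp_add]
      have e2 : Real.exp (hh n v (a i) + L / 2 + (hh n v (x j) + L / 2)) ≤ Real.exp (2 * u + L) :=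
        Real.exp_le_exp.2 (by linarith [hsa i, hsx j])
      have e3 : Real.exp L ≤ Real.exp (2 * u + L) := Real.exp_le_exp.2 (by linarith)
      linarith
    exact (sq_le_sq₀ (av_nonneg v hv _) hMpos.le).1 h1
  have htri : ∀ i j k l m o, av v (((z i j : ℤ) : ℚ) * (((z k l : ℤ) : ℚ) * ((z m o : ℤ) : ℚ))) ≤
      M * (M * M) := by
    intro i j k l m o
    rw [av_mul v hv, av_mul v hv]
    have p1 := hzM i j
    have p2 := hzM k l
    have p3 := hzM m o
    have q1 := av_nonneg v hv ((z i j : ℤ) : ℚ)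
    have q2 := av_nonneg v hv ((z k l : ℤ) : ℚ)
    have q3 := av_nonneg v hv ((z m o : ℤ) : ℚ)
    refine mul_le_mul p1 (mul_le_mul p2 p3 q3 hMpos.le) (mul_nonneg q2 q3) hMpos.le
  have hsub : ∀ p q : ℚ, av v (p - q) ≤ av v p + av v q := by
    intro p q
    have := av_add v hv p (-q)
    rwa [av_neg v hv, ← sub_eq_add_neg] at this
  have hDle : av v ((det3 z : ℤ) : ℚ) ≤ 6 * (M * (M * M)) := by
    have e : ((det3 z : ℤ) : ℚ) =
        (((z 0 0 : ℤ) : ℚ) * (((z 1 1 : ℤ) : ℚ) * ((z 2 2 : ℤ) : ℚ)) -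
          ((z 0 0 : ℤ) : ℚ) * (((z 1 2 : ℤ) : ℚ) * ((z 2 1 : ℤ) : ℚ)) -
          ((z 0 1 : ℤ) : ℚ) * (((z 1 0 : ℤ) : ℚ) * ((z 2 2 : ℤ) : ℚ)) +
          ((z 0 1 : ℤ) : ℚ) * (((z 1 2 : ℤ) : ℚ) * ((z 2 0 : ℤ) : ℚ)) +
          ((z 0 2 : ℤ) : ℚ) * (((z 1 0 : ℤ) : ℚ) * ((z 2 1 : ℤ) : ℚ)) -
          ((z 0 2 : ℤ) : ℚ) * (((z 1 1 : ℤ) : ℚ) * ((z 2 0 : ℤ) : ℚ))) := by
      simp only [det3]
      push_cast
      ring
    rw [e]
    have t1 := htri 0 0 1 1 2 2
    have t2 := htri 0 0 1 2 2 1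
    have t3 := htri 0 1 1 0 2 2
    have t4 := htri 0 1 1 2 2 0
    have t5 := htri 0 2 1 0 2 1
    have t6 := htri 0 2 1 1 2 0
    refine le_trans (hsub _ _) ?_
    refine le_trans (add_le_add_left (av_add v hv _ _) _) ?_
    refine le_trans (add_le_add_left (add_le_add_left (av_add v hv _ _) _) _) ?_
    refine le_trans (add_le_add_left (add_le_add_left (add_le_add_left (hsub _ _) _) _) _) ?_
    refine le_trans (add_le_add_left (add_le_add_left (add_le_add_left (add_le_add_left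
      (hsub _ _) _) _) _) _) ?_
    linarith
  have hDpos : 0 < av v ((det3 z : ℤ) : ℚ) := av_pos v hv _ (by exact_mod_cast hD)
  have h3 := Real.log_le_log hDpos hDle
  rw [Real.log_mul (by norm_num) (by positivity), Real.log_mul (by positivity) (by positivity),
    Real.log_mul (by positivity) (by positivity)] at h3
  have h4 : Real.log M = Real.log 2 / 2 + u + L / 2 := by rw [hM, Real.log_exp]
  have h6 : Real.log 6 ≤ 3 * Real.log 2 := by
    have e : (3 : ℝ) * Real.log 2 = Real.log 8 := by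
      rw [show (8 : ℝ) = 2 ^ (3 : ℕ) by norm_num, Real.log_pow]
      push_cast; ring
    rw [e]
    exact Real.log_le_log (by norm_num) (by norm_num)
  rw [h4] at h3
  linarith

theorem hRNG (h1 : ST_PF) (h2 : ST_DET) (h3 : ST_DNZ) : ST_RNG := by
  intro n a x z R V w m hn hR hcard hV hw hw1 hw2 hm hai hxi hap hxp hzp hz hy hsg
  have hD : det3 z ≠ 0 := h3 a x n z hn hai hxi hap hxp hzp hz
  have hR1 : (1 : ℝ) ≤ (R : ℝ) := by exact_mod_cast hR
  have hRpos : (0 : ℝ) < (R : ℝ) := by linarith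
  set ε : ℝ := 1 / (24 * (R : ℝ)) with hε
  have hεpos : 0 < ε := by positivity
  have hm0 : 0 ≤ m := by linarith
  have hεR : ε * (24 * (R : ℝ)) = 1 := by
    rw [hε]; field_simp
  have ha0 : ∀ i, a i ≠ 0 := fun i => (hap i).ne'
  have hx0 : ∀ i, x i ≠ 0 := fun i => (hxp i).ne'
  have hya : ∀ i, m ≤ HH n (a i) ∧ HH n (a i) ≤ 5 / 4 * m ∧
      (∀ v ∈ V, w v * HH n (a i) ≤ hh n v (a i) ∧ hh n v (a i) ≤ (w v + ε) * HH n (a i)) ∧
      (∀ v ∈ Pl n, v ∉ V → hh n v (a i) ≤ HH n (a i) / (24 * (R : ℝ))) :=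
    fun i => hy (a i) (Or.inl ⟨i, rfl⟩)
  have hyx : ∀ i, m ≤ HH n (x i) ∧ HH n (x i) ≤ 5 / 4 * m ∧
      (∀ v ∈ V, w v * HH n (x i) ≤ hh n v (x i) ∧ hh n v (x i) ≤ (w v + ε) * HH n (x i)) ∧
      (∀ v ∈ Pl n, v ∉ V → hh n v (x i) ≤ HH n (x i) / (24 * (R : ℝ))) :=
    fun i => hy (x i) (Or.inr ⟨i, rfl⟩)
  have hlog2 : Real.log 2 < 0.6931471808 := Real.log_two_lt_d9
  have hlog2' : 0 < Real.log 2 := Real.log_pos (by norm_num)
  -- the local bound
  have hloc : ∀ v ∈ Pl n, Real.log (av v ((det3 z : ℤ) : ℚ)) ≤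
      (14 + 35 / 4 * (m * ε)) + 3 / 2 * Real.log (av v (n : ℚ)) +
        (if v ∈ V then -(5 / 4 * m) * w v else 0) := by
    intro v hv
    have hpl := isPl_of_mem hv
    by_cases hvV : v ∈ V
    · rw [if_pos hvV]
      have hwv : ε ≤ w v := hw v hvV
      have hs : Real.log 64 ≤ 2 * (w v * m) := by
        have e : Real.log 64 = 6 * Real.log 2 := by
          rw [show (64 : ℝ) = 2 ^ (6 : ℕ) by norm_num, Real.log_pow]
          push_cast; ring
        have h5 : ε * (1000 * (R : ℝ)) ≤ w v * m := mul_le_mul hwv hm (by positivity) (by linarith)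
        have h6 : ε * (1000 * (R : ℝ)) = 1000 / 24 := by
          have : ε * (1000 * (R : ℝ)) = ε * (24 * (R : ℝ)) * (1000 / 24) := by ring
          rw [this, hεR, one_mul]
        rw [h6] at h5
        rw [e]
        linarith
      have hbd : ∀ y : ℤ, m ≤ HH n y → HH n y ≤ 5 / 4 * m →
          w v * HH n y ≤ hh n v y ∧ hh n v y ≤ (w v + ε) * HH n y →
          w v * m ≤ hh n v y ∧ hh n v y ≤ (w v + ε) * (5 / 4 * m) := by
        intro y h7 h8 h9
        refine ⟨le_trans (mul_le_mul_of_nonneg_left h7 (by linarith)) h9.1,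
          le_trans h9.2 (mul_le_mul_of_nonneg_left h8 (by linarith))⟩
      have hA : ∀ i, w v * m ≤ hh n v (a i) ∧ hh n v (a i) ≤ (w v + ε) * (5 / 4 * m) :=
        fun i => hbd (a i) (hya i).1 (hya i).2.1 ((hya i).2.2.1 v hvV)
      have hX : ∀ i, w v * m ≤ hh n v (x i) ∧ hh n v (x i) ≤ (w v + ε) * (5 / 4 * m) :=
        fun i => hbd (x i) (hyx i).1 (hyx i).2.1 ((hyx i).2.2.1 v hvV)
      have hmain : Real.log (av v ((det3 z : ℤ) : ℚ)) ≤
          20 * Real.log 2 + 3 / 2 * Real.log (av v (n : ℚ)) + 7 * ((w v + ε) * (5 / 4 * m)) -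
            10 * (w v * m) := by
        rcases hpl with rfl | hp
        · refine vV_RNG h2 ℝ 0 (Or.inl rfl) (fun y => (av_real y).symm) n hn a x z ha0 hx0 _ _ hs
            hA hX hz ?_ hD
          intro i k j l _ _
          rw [av_zero_eq, av_zero_eq]
          have p1 : (0 : ℝ) < ((z i j : ℤ) : ℝ) := by exact_mod_cast hzp i j
          have p2 : (0 : ℝ) < ((z k l : ℤ) : ℝ) := by exact_mod_cast hzp k l
          have p3 : (0 : ℝ) < ((z i l : ℤ) : ℝ) := by exact_mod_cast hzp i l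
          have p4 : (0 : ℝ) < ((z k j : ℤ) : ℝ) := by exact_mod_cast hzp k j
          push_cast
          have q1 := mul_pos p1 p2
          have q2 := mul_pos p3 p4
          rw [abs_of_pos q1, abs_of_pos (add_pos q1 q2)]
          linarith
        · have := Fact.mk hp
          refine vV_RNG h2 ℚ_[v] v (Or.inr hp) (fun y => (av_padic v y).symm) n hn a x z ha0 hx0
            _ _ hs hA hX hz (hsg v hvV hp.ne_zero) hD
      nlinarith [hmain]
    · rw [if_neg hvV]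
      have hbd : ∀ y : ℤ, HH n y ≤ 5 / 4 * m → hh n v y ≤ HH n y / (24 * (R : ℝ)) →
          hh n v y ≤ 5 / 4 * (m * ε) := by
        intro y h8 h9
        have e : HH n y / (24 * (R : ℝ)) = HH n y * ε := by rw [hε]; ring
        rw [e] at h9
        have := mul_le_mul_of_nonneg_right h8 hεpos.le
        linarith
      have hmain := vW_RNG v hpl n hn a x z ha0 hx0 (5 / 4 * (m * ε)) (by positivity)
        (fun i => hbd (a i) (hya i).2.1 ((hya i).2.2.2 v hv hvV))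
        (fun i => hbd (x i) (hyx i).2.1 ((hyx i).2.2.2 v hv hvV)) hz hD
      have : 0 ≤ m * ε := by positivity
      linarith
  have hsum := Finset.sum_le_sum hloc
  obtain ⟨hp1, hp2⟩ := h1 n hn
  have h0 := hp2 (det3 z) hD
  rw [Finset.sum_add_distrib, Finset.sum_add_distrib, ← Finset.mul_sum, hp1, mul_zero, add_zero,
    Finset.sum_const, nsmul_eq_mul] at hsum
  have hite : ∑ v ∈ Pl n, (if v ∈ V then -(5 / 4 * m) * w v else 0) =
      -(5 / 4 * m) * ∑ v ∈ V, w v := by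
    rw [Finset.sum_ite_mem, Finset.inter_eq_right.2 hV, Finset.mul_sum]
  rw [hite] at hsum
  have hc : ((Pl n).card : ℝ) ≤ (R : ℝ) := by exact_mod_cast hcard
  have hcm : ((Pl n).card : ℝ) * (14 + 35 / 4 * (m * ε)) ≤ (R : ℝ) * (14 + 35 / 4 * (m * ε)) :=
    mul_le_mul_of_nonneg_right hc (by positivity)
  have e5 : (R : ℝ) * (14 + 35 / 4 * (m * ε)) = 14 * R + 35 / 96 * m := by
    have : (R : ℝ) * (35 / 4 * (m * ε)) = 35 / 96 * m * (ε * (24 * (R : ℝ))) := by ring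
    rw [mul_add, this, hεR]; ring
  have e6 : 5 / 4 * m * (23 / 24) ≤ 5 / 4 * m * ∑ v ∈ V, w v :=
    mul_le_mul_of_nonneg_left hw1 (by positivity)
  nlinarith [hsum, h0, hcm, e5, e6, hm, hR1]

end Pool.Agent.Helper3.DW
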