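import Mathlib
import Pool.Agent.Helper3.DW.St
import Pool.Agent.Helper15.Small

set_option autoImplicit false

/-! # Project DW, module RZ: vanishing of the residue sums -/

namespace Pool.Agent.Helper3.DW

open Finset PowerSeries

theorem U_eq_RZ (δ : ℝ) : U δ = Pool.Agent.Helper15.Pade.U δ := rfl

theorem UU_eq_RZ (a : Fin 3 → ℝ) (j : Fin 3) : UU a j = Pool.Agent.Helper15.Pade.UU a j := rfl

theorem rho_eq_RZ (a : Fin 3 → ℝ) (k m : ℕ) :
    rho a k m = Pool.Agent.Helper15.Pade.phi a (fun _ => k + 1) (Polynomial.X ^ m) := by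
  rw [rho, Pool.Agent.Helper15.Pade.phi]
  refine Finset.sum_congr rfl fun j _ => ?_
  rw [if_neg (Nat.succ_ne_zero k), Nat.add_sub_cancel, Pool.Agent.Helper15.Pade.W_const, map_pow,
    Pool.Agent.Helper15.Pade.sh_X, UU_eq_RZ]

theorem hRZ (h1 : ST_MAP) : ST_RZ := by
  intro a ha k m hm
  have hinj : Function.Injective (fun i => ((a i : ℚ) : ℝ)) := by
    intro i j hij
    have h3 : ((a i : ℚ) : ℝ) = ((a j : ℚ) : ℝ) := hij
    exact ha (by exact_mod_cast h3)
  have h2 := (h1 ℝ a k).2 m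
  rw [rho_eq_RZ, Pool.Agent.Helper15.Pade.phi_zero _ hinj k m hm] at h2
  exact_mod_cast h2.symm

end Pool.Agent.Helper3.DW
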