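import Mathlib
import Pool.Agent.Helper3.DW.St2

set_option autoImplicit false

namespace Pool.Agent.Helper3.DW

open Finset

theorem hSGC (h1 : ST_SGN) : ST_SGC := by
  classical
  intro n a z X R V hn hV hpl hz hbig
  rcases X.eq_empty_or_nonempty with rfl | ⟨w, hw⟩
  · exact ⟨∅, Finset.Subset.refl _, by simp, by simp⟩
  · set T : ℤ → Finset (ℕ × Fin 3 × Fin 3) := fun x =>
      (V ×ˢ (univ : Finset (Fin 3 × Fin 3))).filter
        (fun q => q.1 ≠ 0 ∧ good q.1 (z q.2.1) (z q.2.2) x w) with hT
    set P : Finset (Finset (ℕ × Fin 3 × Fin 3)) :=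
      (V ×ˢ (univ : Finset (Fin 3 × Fin 3))).powerset with hP
    have hmaps : ∀ x ∈ X, T x ∈ P := fun x _ => mem_powerset.2 (filter_subset _ _)
    have hPne : P.Nonempty := ⟨∅, empty_mem_powerset _⟩
    have hPcard : P.card ≤ 2 ^ (9 * R) := by
      rw [hP, card_powerset, card_product]
      have : (univ : Finset (Fin 3 × Fin 3)).card = 9 := by decide
      rw [this, mul_comm]
      exact Nat.pow_le_pow_right (by norm_num) (Nat.mul_le_mul_left 9 hV)
    obtain ⟨t, ht, hmax⟩ := exists_max_image P (fun y => (X.filter (fun x => T x = y)).card) hPne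
    refine ⟨X.filter (fun x => T x = t), filter_subset _ _, ?_, ?_⟩
    · calc X.card = ∑ y ∈ P, (X.filter (fun x => T x = y)).card :=
            card_eq_sum_card_fiberwise hmaps
        _ ≤ ∑ _y ∈ P, (X.filter (fun x => T x = t)).card := sum_le_sum hmax
        _ = P.card * (X.filter (fun x => T x = t)).card := by rw [sum_const, smul_eq_mul]
        _ ≤ 2 ^ (9 * R) * (X.filter (fun x => T x = t)).card := Nat.mul_le_mul_right _ hPcard
    · intro v hv hv0 i k x hx y hy
      have hx' := mem_filter.1 hx
      have hy' := mem_filter.1 hy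
      have hpr : v.Prime := (hpl v hv).resolve_left hv0
      have hS := (h1 v hpr n (a i) (a k) (z i) (z k) X hn
        (fun s hs => ⟨hz i s hs, hz k s hs⟩)
        (fun s hs => ⟨hbig v hv hv0 i s hs, hbig v hv hv0 k s hs⟩)).1
      refine hS x hx'.1 y hy'.1 w hw ?_
      have e : T x = T y := hx'.2.trans hy'.2.symm
      have key : ∀ s : ℤ, (v, i, k) ∈ T s ↔ good v (z i) (z k) s w := by
        intro s
        simp only [hT, mem_filter, mem_product, mem_univ, and_true]
        constructor
        · intro h; exact h.2.2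
        · intro h; exact ⟨hv, hv0, h⟩
      rw [← key x, ← key y, e]

end Pool.Agent.Helper3.DW
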