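import Mathlib
import Pool.Agent.Helper3.DW.St

set_option autoImplicit false

namespace Pool.Agent.Helper3.DW

open Finset

/-- the `p`-adic value of an integer, properties -/
private theorem nu_SGN (p : ℕ) (hp : p.Prime) :
    ∃ ν : ℤ → ℝ, (∀ z, ν z = av p (z : ℚ)) ∧ (∀ z, 0 ≤ ν z) ∧ (∀ z, z ≠ 0 → 0 < ν z) ∧
      (∀ z w, ν (z * w) = ν z * ν w) ∧ (∀ z w, ν (z + w) ≤ max (ν z) (ν w)) ∧
      (∀ z w, ν (z - w) ≤ max (ν z) (ν w)) ∧ 1 / 2 ≤ ν 2 ∧ ν 0 = 0 := by
  have : Fact p.Prime := ⟨hp⟩
  have hp0 : p ≠ 0 := hp.ne_zero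
  have hav : ∀ z : ℤ, av p (z : ℚ) = ((padicNorm p (z : ℚ) : ℚ) : ℝ) := by
    intro z; simp [av, hp0]
  refine ⟨fun z => av p (z : ℚ), fun z => rfl, ?_, ?_, ?_, ?_, ?_, ?_, ?_⟩
  · intro z
    show 0 ≤ av p (z : ℚ)
    rw [hav]; exact_mod_cast padicNorm.nonneg _
  · intro z hz
    show 0 < av p (z : ℚ)
    rw [hav]
    have h1 : padicNorm p (z : ℚ) ≠ 0 := padicNorm.nonzero (by exact_mod_cast hz)
    have h2 : 0 ≤ padicNorm p (z : ℚ) := padicNorm.nonneg _
    exact_mod_cast lt_of_le_of_ne h2 (Ne.symm h1)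
  · intro z w
    show av p ((z * w : ℤ) : ℚ) = av p (z : ℚ) * av p (w : ℚ)
    rw [hav, hav, hav]; push_cast
    rw [padicNorm.mul]; push_cast; ring
  · intro z w
    show av p ((z + w : ℤ) : ℚ) ≤ max (av p (z : ℚ)) (av p (w : ℚ))
    rw [hav, hav, hav]
    have h : padicNorm p ((z : ℚ) + (w : ℚ)) ≤ max (padicNorm p (z : ℚ)) (padicNorm p (w : ℚ)) :=
      padicNorm.nonarchimedean
    have e : ((z + w : ℤ) : ℚ) = (z : ℚ) + (w : ℚ) := by push_cast; ring
    rw [e]
    exact_mod_cast h
  · intro z w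
    show av p ((z - w : ℤ) : ℚ) ≤ max (av p (z : ℚ)) (av p (w : ℚ))
    rw [hav, hav, hav]
    have h : padicNorm p ((z : ℚ) - (w : ℚ)) ≤ max (padicNorm p (z : ℚ)) (padicNorm p (w : ℚ)) :=
      padicNorm.sub
    have e : ((z - w : ℤ) : ℚ) = (z : ℚ) - (w : ℚ) := by push_cast; ring
    rw [e]
    exact_mod_cast h
  · show 1 / 2 ≤ av p ((2 : ℤ) : ℚ)
    rw [hav]
    by_cases h2 : p = 2
    · subst h2
      have : padicNorm 2 ((2 : ℤ) : ℚ) = 1 / 2 := by
        have := padicNorm.padicNorm_p (p := 2) (by norm_num)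
        push_cast at this ⊢
        rw [this]; norm_num
      rw [this]; norm_num
    · have hnd : ¬ (p : ℤ) ∣ 2 := by
        intro h
        have h' : p ∣ 2 := by exact_mod_cast h
        have h3 := (Nat.prime_dvd_prime_iff_eq hp Nat.prime_two).1 h'
        exact h2 h3
      have := (padicNorm.int_eq_one_iff (p := p) 2).2 hnd
      rw [this]; norm_num
  · show av p ((0 : ℤ) : ℚ) = 0
    rw [hav]; simp

theorem hSGN : ST_SGN := by
  intro p hp n a b f g X hn hfg hbig
  obtain ⟨ν, hν, hν0, hνp, hmul, hadd, hsub, htwo, hzero⟩ := nu_SGN p hp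
  have hgood : ∀ x y, good p f g x y ↔ ν (f x * g y - f y * g x) < ν (f x * g y) / 2 := by
    intro x y
    unfold good
    rw [hν, hν]
  have hbig' : ∀ x ∈ X, 64 * ν n ≤ ν (a * x) ∧ 64 * ν n ≤ ν (b * x) := by
    intro x hx
    rw [hν, hν, hν]; exact hbig x hx
  have hnp : 0 < ν n := hνp n hn
  -- squares
  have hsq : ∀ s t : ℤ, 64 * ν t ≤ ν s → 0 < ν t → ν (s + t) = ν s := by
    intro s t h ht
    have hs : ν t < ν s := by linarith
    apply le_antisymm
    · exact le_trans (hadd s t) (max_le le_rfl hs.le)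
    · have h1 : ν s ≤ max (ν (s + t)) (ν t) := by
        have := hsub (s + t) t
        rwa [add_sub_cancel_right] at this
      rcases le_max_iff.1 h1 with h2 | h2
      · exact h2
      · linarith
  have hF : ∀ x ∈ X, ν (f x) ^ 2 = ν (a * x) := by
    intro x hx
    have h1 := (hfg x hx).1
    have h2 := hsq (a * x) n (hbig' x hx).1 hnp
    rw [← h2, ← h1, pow_two, pow_two, hmul]
  have hG : ∀ x ∈ X, ν (g x) ^ 2 = ν (b * x) := by
    intro x hx
    have h1 := (hfg x hx).2
    have h2 := hsq (b * x) n (hbig' x hx).2 hnp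
    rw [← h2, ← h1, pow_two, pow_two, hmul]
  have hFp : ∀ x ∈ X, 0 < ν (f x) := by
    intro x hx
    have h1 := hF x hx
    have h2 := (hbig' x hx).1
    have h3 := hν0 (f x)
    rcases lt_or_eq_of_le h3 with h4 | h4
    · exact h4
    · rw [← h4] at h1; norm_num at h1; linarith
  have hGp : ∀ x ∈ X, 0 < ν (g x) := by
    intro x hx
    have h1 := hG x hx
    have h2 := (hbig' x hx).2
    have h3 := hν0 (g x)
    rcases lt_or_eq_of_le h3 with h4 | h4
    · exact h4
    · rw [← h4] at h1; norm_num at h1; linarith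
  -- equality of the sizes of the two products
  have hm : ∀ x ∈ X, ∀ w ∈ X, ν (f x * g w) = ν (f w * g x) := by
    intro x hx w hw
    have h1 : ν (f x * g w) ^ 2 = ν (f w * g x) ^ 2 := by
      rw [hmul, hmul, mul_pow, mul_pow, hF x hx, hG w hw, hF w hw, hG x hx,
        hmul a x, hmul b w, hmul a w, hmul b x]
      ring
    exact (sq_eq_sq₀ (hν0 _) (hν0 _)).1 h1
  -- the product of the two conjugates is small
  have hprod : ∀ x ∈ X, ∀ w ∈ X,
      ν (f x * g w - f w * g x) * ν (f x * g w + f w * g x) ≤ ν (f x * g w) ^ 2 / 64 := by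
    intro x hx w hw
    rw [← hmul]
    have e1 : (f x * g w - f w * g x) * (f x * g w + f w * g x) =
        (n * (a * x) + n * (b * w)) - (n * (a * w) + n * (b * x)) := by
      have h1 := (hfg x hx).1
      have h2 := (hfg x hx).2
      have h3 := (hfg w hw).1
      have h4 := (hfg w hw).2
      have : (f x * g w - f w * g x) * (f x * g w + f w * g x) =
        f x ^ 2 * g w ^ 2 - f w ^ 2 * g x ^ 2 := by ring
      rw [this, h1, h2, h3, h4]; ring
    rw [e1]
    have hP : ν (f x * g w) ^ 2 = ν (a * x) * ν (b * w) := by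
      rw [hmul, mul_pow, hF x hx, hG w hw]
    have hP' : ν (a * x) * ν (b * w) = ν (a * w) * ν (b * x) := by
      rw [hmul a x, hmul b w, hmul a w, hmul b x]; ring
    rw [hP]
    obtain ⟨bx1, bx2⟩ := hbig' x hx
    obtain ⟨bw1, bw2⟩ := hbig' w hw
    have n1 := hν0 (a * x)
    have n2 := hν0 (b * x)
    have n3 := hν0 (a * w)
    have n4 := hν0 (b * w)
    refine le_trans (hsub _ _) (max_le (le_trans (hadd _ _) (max_le ?_ ?_))
      (le_trans (hadd _ _) (max_le ?_ ?_)))
    · rw [hmul n]; nlinarith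
    · rw [hmul n]; nlinarith
    · rw [hmul n, hP']; nlinarith
    · rw [hmul n, hP']; nlinarith
  have hnot : ∀ x ∈ X, ∀ w ∈ X, ¬ good p f g x w →
      ν (f x * g w + f w * g x) < ν (f x * g w) / 2 := by
    intro x hx w hw h
    rw [hgood] at h
    push Not at h
    have h1 := hprod x hx w hw
    have h2 := hν0 (f x * g w + f w * g x)
    have hmp : 0 < ν (f x * g w) := by
      rw [hmul]; exact mul_pos (hFp x hx) (hGp w hw)
    by_contra hc
    push Not at hc
    have : ν (f x * g w) / 2 * (ν (f x * g w) / 2) ≤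
        ν (f x * g w - f w * g x) * ν (f x * g w + f w * g x) :=
      mul_le_mul h hc (by positivity) (hν0 _)
    nlinarith
  refine ⟨?_, ?_⟩
  · intro x hx y hy w hw hiff
    rw [hgood]
    have hxw : 0 < ν (f x * g w) := by rw [hmul]; exact mul_pos (hFp x hx) (hGp w hw)
    have hyw : 0 < ν (f y * g w) := by rw [hmul]; exact mul_pos (hFp y hy) (hGp w hw)
    have hww : 0 < ν (g w * f w) := by rw [hmul]; exact mul_pos (hGp w hw) (hFp w hw)
    have ex : ν (f x * g w) = ν (f w * g x) := hm x hx w hw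
    have ey : ν (f y * g w) = ν (f w * g y) := hm y hy w hw
    have key : ν ((f x * g y - f y * g x) * (g w * f w)) < ν (f x * g y * (g w * f w)) / 2 := by
      have e2 : ν (f x * g y * (g w * f w)) = ν (f x * g w) * ν (f y * g w) := by
        rw [ey, ← hmul]; congr 1; ring
      rw [e2]
      by_cases hgx : good p f g x w
      · have hgy := hiff.1 hgx
        rw [hgood] at hgx hgy
        have e3 : (f x * g y - f y * g x) * (g w * f w) =
            (f x * g w - f w * g x) * (f w * g y) - (f y * g w - f w * g y) * (f w * g x) := by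
          ring
        rw [e3]
        refine lt_of_le_of_lt (hsub _ _) (max_lt ?_ ?_)
        · rw [hmul (f x * g w - f w * g x), ← ey]; nlinarith
        · rw [hmul (f y * g w - f w * g y), ← ex]; nlinarith
      · have hgy : ¬ good p f g y w := fun h => hgx (hiff.2 h)
        have h1 := hnot x hx w hw hgx
        have h2 := hnot y hy w hw hgy
        have e3 : (f x * g y - f y * g x) * (g w * f w) =
            (f x * g w + f w * g x) * (f w * g y) - (f y * g w + f w * g y) * (f w * g x) := by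
          ring
        rw [e3]
        refine lt_of_le_of_lt (hsub _ _) (max_lt ?_ ?_)
        · rw [hmul (f x * g w + f w * g x), ← ey]; nlinarith
        · rw [hmul (f y * g w + f w * g y), ← ex]; nlinarith
    rw [hmul, hmul (f x * g y)] at key
    by_contra hc
    push Not at hc
    have := mul_le_mul_of_nonneg_right hc hww.le
    linarith
  · intro x hx y hy h
    rw [hgood] at h
    rw [← hν, ← hν]
    have h1 : ν (2 * (f x * g y)) ≤
        max (ν (f x * g y + f y * g x)) (ν (f x * g y - f y * g x)) := by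
      have e1 : 2 * (f x * g y) = (f x * g y + f y * g x) + (f x * g y - f y * g x) := by ring
      rw [e1]; exact hadd _ _
    have h2 : ν (f x * g y) / 2 ≤ ν (2 * (f x * g y)) := by
      rw [hmul 2 (f x * g y)]
      have := hν0 (f x * g y)
      nlinarith
    rcases le_max_iff.1 h1 with h3 | h3
    · linarith
    · linarith

end Pool.Agent.Helper3.DW
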