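import Mathlib
import Pool.Agent.Helper3.DW.St

set_option autoImplicit false

namespace Pool.Agent.Helper3.DW

/-- the norm of `2` in `ℚ_[p]` is at least `1 / 2` -/
private theorem two_norm_SLP (p : ℕ) [hp : Fact p.Prime] : 1 / 2 ≤ ‖(2 : ℚ_[p])‖ := by
  by_cases h : p = 2
  · subst h
    have h2 := Padic.norm_p (p := 2)
    have h3 : ‖(2 : ℚ_[2])‖ = (2 : ℝ)⁻¹ := by
      have : ((2 : ℕ) : ℚ_[2]) = 2 := by norm_num
      rw [← this, h2]; norm_num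
    rw [h3]; norm_num
  · have h1 : ¬ (‖((2 : ℤ) : ℚ_[p])‖ < 1) := by
      rw [Padic.norm_intCast_lt_one_iff]
      intro hd
      have hd2 : p ∣ 2 := by exact_mod_cast hd
      exact h ((Nat.prime_dvd_prime_iff_eq hp.out Nat.prime_two).1 hd2)
    have h2 : ((2 : ℤ) : ℚ_[p]) = 2 := by norm_num
    rw [h2] at h1
    linarith [not_lt.1 h1]

theorem hSLP : ST_SLP := by
  intro p hp n c d a0 a1 zc0 zc1 zd0 zd1 t0 t1 hn hc hd ha0 ha1 e1 e2 e3 e4 z1 z2 z3 z4 ht0 ht1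
    hs0 hs1 hg
  have hc' : (c : ℚ_[p]) ≠ 0 := by exact_mod_cast hc
  have ha0' : (a0 : ℚ_[p]) ≠ 0 := by exact_mod_cast ha0
  have ha1' : (a1 : ℚ_[p]) ≠ 0 := by exact_mod_cast ha1
  have z1' : (zc0 : ℚ_[p]) ≠ 0 := by exact_mod_cast z1
  have z2' : (zc1 : ℚ_[p]) ≠ 0 := by exact_mod_cast z2
  have z3' : (zd0 : ℚ_[p]) ≠ 0 := by exact_mod_cast z3
  have f1 : (zc0 : ℚ_[p]) ^ 2 = a0 * c + n := by exact_mod_cast e1
  have f2 : (zc1 : ℚ_[p]) ^ 2 = a1 * c + n := by exact_mod_cast e2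
  have g1 : (a0 : ℚ_[p]) * c * t0 ^ 2 = zc0 ^ 2 := by
    rw [ht0, f1]; field_simp
  have g2 : (a1 : ℚ_[p]) * c * t1 ^ 2 = zc1 ^ 2 := by
    rw [ht1, f2]; field_simp
  have key : (a0 : ℚ_[p]) * zc1 ^ 2 * t0 ^ 2 = a1 * zc0 ^ 2 * t1 ^ 2 := by
    rw [← g1, ← g2]; ring
  have n0 : ‖t0‖ = 1 := by
    have h := Padic.nonarchimedean (t0 - 1) 1
    have h' := Padic.nonarchimedean (t0) (1 - t0)
    rw [sub_add_cancel, norm_one] at h
    have e : t0 + (1 - t0) = 1 := by ring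
    rw [e, norm_one, norm_sub_rev] at h'
    have h2 : ‖t0‖ ≤ 1 := h.trans (max_le (by linarith) le_rfl)
    rcases le_max_iff.1 h' with h3 | h3
    · exact le_antisymm h2 h3
    · linarith
  have t0ne : t0 ≠ 0 := by
    intro h; rw [h, norm_zero] at n0; norm_num at n0
  have n1 : ‖t1‖ ≤ 1 := by
    have h := Padic.nonarchimedean (t1 - 1) 1
    rw [sub_add_cancel, norm_one] at h
    exact h.trans (max_le (by linarith) le_rfl)
  -- the quotient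
  set u : ℚ_[p] := (zd1 * zc0) / (zc1 * zd0) with hu
  set w : ℚ_[p] := t1 / t0 with hw
  have hwn : ‖w‖ ≤ 1 := by rw [hw, norm_div, n0, div_one]; exact n1
  have hw1 : ‖w - 1‖ ≤ 1 / 8 := by
    have e : w - 1 = ((t1 - 1) + (1 - t0)) / t0 := by rw [hw]; field_simp; ring
    rw [e, norm_div, n0, div_one]
    refine (Padic.nonarchimedean _ _).trans (max_le hs1 ?_)
    rw [norm_sub_rev]; exact hs0
  have hu1 : ‖u - 1‖ < 1 / 2 := by
    have hne : (zc1 : ℚ_[p]) * zd0 ≠ 0 := mul_ne_zero z2' z3'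
    have e : u - 1 = -(((zc1 * zd0 - zd1 * zc0 : ℤ) : ℚ_[p])) / ((zc1 * zd0 : ℤ) : ℚ_[p]) := by
      rw [hu]; push_cast; field_simp; ring
    have hpos : 0 < ‖((zc1 * zd0 : ℤ) : ℚ_[p])‖ := by
      rw [norm_pos_iff]; push_cast; exact hne
    rw [e, norm_div, norm_neg, div_lt_iff₀ hpos]
    linarith
  have huw : ‖u * w - 1‖ < 1 / 2 := by
    have e : u * w - 1 = (u - 1) * w + (w - 1) := by ring
    rw [e]
    refine lt_of_le_of_lt (Padic.nonarchimedean _ _) (max_lt ?_ (by linarith))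
    rw [norm_mul]
    calc ‖u - 1‖ * ‖w‖ ≤ ‖u - 1‖ * 1 := mul_le_mul_of_nonneg_left hwn (norm_nonneg _)
      _ < 1 / 2 := by rw [mul_one]; exact hu1
  have h12 : 1 / 2 ≤ ‖u * w + 1‖ := by
    have h := Padic.nonarchimedean (u * w + 1) (-(u * w - 1))
    have e : u * w + 1 + -(u * w - 1) = 2 := by ring
    rw [e, norm_neg] at h
    have h2 := two_norm_SLP p
    rcases le_max_iff.1 h with h3 | h3
    · linarith
    · linarith
  have hfin : ((a0 * (zc1 * zd1) : ℤ) : ℚ_[p]) * t0 + ((a1 * (zc0 * zd0) : ℤ) : ℚ_[p]) * t1 =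
      (((a1 * (zc0 * zd0) : ℤ) : ℚ_[p]) * t1) * (u * w + 1) := by
    rw [hu, hw]; push_cast; field_simp
    linear_combination (zd1 : ℚ_[p]) * key
  rw [hfin, norm_mul (((a1 * (zc0 * zd0) : ℤ) : ℚ_[p]) * t1) (u * w + 1)]
  have h9 := mul_le_mul_of_nonneg_left h12 (norm_nonneg (((a1 * (zc0 * zd0) : ℤ) : ℚ_[p]) * t1))
  calc _ = ‖((a1 * (zc0 * zd0) : ℤ) : ℚ_[p]) * t1‖ * (1 / 2) := by ring
    _ ≤ _ := h9

end Pool.Agent.Helper3.DW
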