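import Mathlib
import Pool.Agent.Helper3.DW.St3

set_option autoImplicit false

/-! # Project DW, module SML: few elements of small height. -/

namespace Pool.Agent.Helper3.DW

open Finset

private theorem hh_prime_SML (n : ℤ) (hn : n ≠ 0) (a : ℤ) (ha : a ≠ 0) (p : ℕ) (hp : p.Prime) :
    2 * hh n p a = ((n.natAbs.factorization p : ℝ) - 2 * (a.natAbs.factorization p : ℝ)) *
      Real.log p := by
  have := Fact.mk hp
  have key : ∀ x : ℤ, x ≠ 0 → Real.log (av p (x : ℚ)) = -((x.natAbs.factorization p : ℝ) *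
      Real.log p) := by
    intro x hx
    rw [av_prime_eq p hp, padicNorm.eq_zpow_of_nonzero (by exact_mod_cast hx), padicValRat.of_int,
      padicValInt, Nat.factorization_def _ hp]
    rw [Rat.cast_zpow, Real.log_zpow]
    simp only [Int.cast_neg, Int.cast_natCast, Rat.cast_natCast]
    ring
  rw [hh, key a ha, key n hn]
  ring

private theorem log_w_SML (n : ℤ) (hn : n ≠ 0) (a : ℤ) (ha : a ≠ 0) :
    Real.log ((n.natAbs / Nat.gcd (a.natAbs ^ 2) n.natAbs : ℕ) : ℝ) ≤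
      2 * ∑ p ∈ n.natAbs.primeFactors, max (hh n p a) 0 := by
  set N := n.natAbs with hN
  set A := a.natAbs with hA
  have hN0 : N ≠ 0 := Int.natAbs_ne_zero.2 hn
  have hA0 : A ≠ 0 := Int.natAbs_ne_zero.2 ha
  have hA2 : A ^ 2 ≠ 0 := pow_ne_zero _ hA0
  set g := Nat.gcd (A ^ 2) N with hg
  have hgd : g ∣ N := Nat.gcd_dvd_right _ _
  have hg0 : g ≠ 0 := Nat.gcd_ne_zero_right hN0
  have hfac : ∀ p, (N / g).factorization p = N.factorization p -
      min (2 * A.factorization p) (N.factorization p) := by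
    intro p
    rw [Nat.factorization_div hgd, hg, Nat.factorization_gcd hA2 hN0, Nat.factorization_pow]
    simp
  rw [Real.log_nat_eq_sum_factorization, Finsupp.sum, Nat.support_factorization, Finset.mul_sum]
  have hsub : (N / g).primeFactors ⊆ N.primeFactors :=
    Nat.primeFactors_mono (Nat.div_dvd_of_dvd hgd) hN0
  refine le_trans ?_ (Finset.sum_le_sum_of_subset_of_nonneg hsub
    (fun p _ _ => mul_nonneg (by norm_num) (le_max_right _ _)))
  refine Finset.sum_le_sum fun p hp => ?_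
  have hpp : p.Prime := Nat.prime_of_mem_primeFactors hp
  have hlog : 0 ≤ Real.log p := Real.log_natCast_nonneg p
  rw [hfac p]
  have h2 := hh_prime_SML n hn a ha p hpp
  rw [← hN, ← hA] at h2
  rcases le_total (2 * A.factorization p) (N.factorization p) with h | h
  · rw [min_eq_left h, Nat.cast_sub h]
    push_cast
    calc ((N.factorization p : ℝ) - 2 * (A.factorization p : ℝ)) * Real.log p = 2 * hh n p a :=
          h2.symm
      _ ≤ 2 * max (hh n p a) 0 := by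
          have := le_max_left (hh n p a) 0
          linarith
  · rw [min_eq_right h, Nat.sub_self]
    have := le_max_right (hh n p a) 0
    push_cast
    linarith

private theorem log_u_SML (n : ℤ) (hn : n ≠ 0) (a : ℤ) (ha : a ≠ 0) :
    Real.log ((a.natAbs ^ 2 / Nat.gcd (a.natAbs ^ 2) n.natAbs : ℕ) : ℝ) =
      2 * hh n 0 a + Real.log ((n.natAbs / Nat.gcd (a.natAbs ^ 2) n.natAbs : ℕ) : ℝ) := by
  have hN0 : n.natAbs ≠ 0 := Int.natAbs_ne_zero.2 hn
  have hA0 : a.natAbs ≠ 0 := Int.natAbs_ne_zero.2 ha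
  have hA2 : a.natAbs ^ 2 ≠ 0 := pow_ne_zero _ hA0
  have hg0 : Nat.gcd (a.natAbs ^ 2) n.natAbs ≠ 0 := Nat.gcd_ne_zero_right hN0
  have hgR : ((Nat.gcd (a.natAbs ^ 2) n.natAbs : ℕ) : ℝ) ≠ 0 := by exact_mod_cast hg0
  rw [Nat.cast_div (Nat.gcd_dvd_left _ _) hgR, Nat.cast_div (Nat.gcd_dvd_right _ _) hgR,
    Real.log_div (by exact_mod_cast hA2) hgR, Real.log_div (by exact_mod_cast hN0) hgR, hh,
    av_zero_eq, av_zero_eq]
  have e1 : (|((a : ℚ) : ℝ)|) = (a.natAbs : ℝ) := by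
    rw [Nat.cast_natAbs]; push_cast; rfl
  have e2 : (|((n : ℚ) : ℝ)|) = (n.natAbs : ℝ) := by
    rw [Nat.cast_natAbs]; push_cast; rfl
  rw [e1, e2]
  push_cast
  rw [Real.log_pow]
  push_cast
  ring

private theorem HH_split_SML (n a : ℤ) :
    HH n a = max (hh n 0 a) 0 + ∑ p ∈ n.natAbs.primeFactors, max (hh n p a) 0 := by
  rw [HH, Pl, Finset.sum_insert]
  intro h
  exact (Nat.prime_of_mem_primeFactors h).ne_zero rfl

theorem hSMLX : ST_SMLX := by
  intro B hB n hn P hpos hHH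
  set M : ℕ := ⌊Real.exp (2 * B)⌋₊ with hM
  let f : ℤ → ℕ × ℕ := fun a => (a.natAbs ^ 2 / Nat.gcd (a.natAbs ^ 2) n.natAbs,
    n.natAbs / Nat.gcd (a.natAbs ^ 2) n.natAbs)
  have hN0 : n.natAbs ≠ 0 := Int.natAbs_ne_zero.2 hn
  have hbound : ∀ a ∈ P, ∀ k : ℕ, 0 < k → Real.log (k : ℝ) ≤ 2 * HH n a → k ≤ M := by
    intro a ha k hk hlog
    apply Nat.le_floor
    have hk' : (0 : ℝ) < k := by exact_mod_cast hk
    rw [← Real.log_le_iff_le_exp hk']
    linarith [hHH a ha]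
  have hmaps : ∀ a ∈ P, f a ∈ (Finset.Icc 1 M) ×ˢ (Finset.Icc 1 M) := by
    intro a ha
    have ha0 : a ≠ 0 := (hpos a ha).ne'
    have hA0 : a.natAbs ≠ 0 := Int.natAbs_ne_zero.2 ha0
    have hA2 : 0 < a.natAbs ^ 2 := by positivity
    have hN' : 0 < n.natAbs := Nat.pos_of_ne_zero hN0
    have hw := log_w_SML n hn a ha0
    have hu := log_u_SML n hn a ha0
    have hs := HH_split_SML n a
    have hsum : 0 ≤ ∑ p ∈ n.natAbs.primeFactors, max (hh n p a) 0 :=
      Finset.sum_nonneg fun _ _ => le_max_right _ _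
    have hm1 := le_max_left (hh n 0 a) 0
    have hm2 := le_max_right (hh n 0 a) 0
    have u1 : 0 < a.natAbs ^ 2 / Nat.gcd (a.natAbs ^ 2) n.natAbs :=
      Nat.div_pos (Nat.gcd_le_left _ hA2) (Nat.gcd_pos_of_pos_left _ hA2)
    have w1 : 0 < n.natAbs / Nat.gcd (a.natAbs ^ 2) n.natAbs :=
      Nat.div_pos (Nat.gcd_le_right _ hN') (Nat.gcd_pos_of_pos_left _ hA2)
    simp only [f, Finset.mem_product, Finset.mem_Icc]
    refine ⟨⟨u1, hbound a ha _ u1 ?_⟩, ⟨w1, hbound a ha _ w1 ?_⟩⟩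
    · rw [hu, hs]; linarith
    · rw [hs]; linarith
  have hinj : Set.InjOn f (P : Set ℤ) := by
    intro a ha b hb hab
    have ha0 : 0 < a := hpos a ha
    have hb0 : 0 < b := hpos b hb
    have hA2 : 0 < a.natAbs ^ 2 := by have := Int.natAbs_ne_zero.2 ha0.ne'; positivity
    have hB2 : 0 < b.natAbs ^ 2 := by have := Int.natAbs_ne_zero.2 hb0.ne'; positivity
    simp only [f, Prod.mk.injEq] at hab
    obtain ⟨h1, h2⟩ := hab
    have g1 : n.natAbs / (n.natAbs / Nat.gcd (a.natAbs ^ 2) n.natAbs) =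
        Nat.gcd (a.natAbs ^ 2) n.natAbs := Nat.div_div_self (Nat.gcd_dvd_right _ _) hN0
    have g2 : n.natAbs / (n.natAbs / Nat.gcd (b.natAbs ^ 2) n.natAbs) =
        Nat.gcd (b.natAbs ^ 2) n.natAbs := Nat.div_div_self (Nat.gcd_dvd_right _ _) hN0
    have g3 : Nat.gcd (a.natAbs ^ 2) n.natAbs = Nat.gcd (b.natAbs ^ 2) n.natAbs := by
      rw [← g1, ← g2, h2]
    have k1 := Nat.div_mul_cancel (Nat.gcd_dvd_left (a.natAbs ^ 2) n.natAbs)
    have k2 := Nat.div_mul_cancel (Nat.gcd_dvd_left (b.natAbs ^ 2) n.natAbs)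
    have k3 : a.natAbs ^ 2 = b.natAbs ^ 2 := by rw [← k1, ← k2, h1, g3]
    have k4 : a.natAbs = b.natAbs := Nat.pow_left_injective (by norm_num) k3
    have := Int.natAbs_of_nonneg ha0.le
    have := Int.natAbs_of_nonneg hb0.le
    omega
  have hcard := Finset.card_le_card_of_injOn f hmaps hinj
  rw [Finset.card_product, Nat.card_Icc] at hcard
  simp only [Nat.add_sub_cancel] at hcard
  have hMe : (M : ℝ) ≤ Real.exp (2 * B) := Nat.floor_le (Real.exp_pos _).le
  have hM0 : (0 : ℝ) ≤ M := Nat.cast_nonneg _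
  calc (P.card : ℝ) ≤ ((M * M : ℕ) : ℝ) := by exact_mod_cast hcard
    _ = (M : ℝ) * M := by push_cast; ring
    _ ≤ Real.exp (2 * B) * Real.exp (2 * B) := mul_le_mul hMe hMe hM0 (Real.exp_pos _).le
    _ = Real.exp (4 * B) := by rw [← Real.exp_add]; ring_nf
    _ ≤ 2 * Real.exp (4 * B) := by linarith [Real.exp_pos (4 * B)]

end Pool.Agent.Helper3.DW
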