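import Mathlib
import Pool.Agent.Helper3.DW.St

set_option autoImplicit false
set_option linter.unusedSectionVars false

namespace Pool.Agent.Helper3.DW

open PowerSeries Finset
open scoped Polynomial

section Bc

private theorem bc_zero_SUM (k : ℕ) : bc k 0 = 1 := by
  unfold bc
  simp

private theorem bc_succ_SUM (k i : ℕ) :
    bc k (i + 1) * ((i : ℚ) + 1) = bc k i * ((k : ℚ) + 1 / 2 - i) := by
  unfold bc
  rw [Finset.prod_range_succ, Nat.factorial_succ]
  have h1 : ((i : ℚ) + 1) ≠ 0 := by positivity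
  have h2 : ((i.factorial : ℕ) : ℚ) ≠ 0 := by exact_mod_cast i.factorial_ne_zero
  push_cast
  field_simp

/-- the product formula -/
private theorem bc_mul_SUM (k l i : ℕ) (hl : l ≤ k) :
    bc k (i + l) * ((i + l).choose l : ℚ) = bc k l * bc (k - l) i := by
  induction i with
  | zero =>
    rw [Nat.zero_add, Nat.choose_self, bc_zero_SUM]
    push_cast
    ring
  | succ i ih =>
    have h1 := bc_succ_SUM k (i + l)
    have h2 := bc_succ_SUM (k - l) i
    have h3 : ((k - l : ℕ) : ℚ) = (k : ℚ) - l := by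
      rw [Nat.cast_sub hl]
    have h4 : ((i + 1 + l).choose l : ℚ) * ((i : ℚ) + 1) =
        ((i + l).choose l : ℚ) * ((i : ℚ) + l + 1) := by
      have := Nat.add_one_mul_choose_eq (i + l) i
      have e1 : (i + l).choose i = (i + l).choose l := by
        rw [← Nat.choose_symm_of_eq_add (n := i + l) (a := i) (b := l) rfl]
      have e2 : (i + l).succ.choose i.succ = (i + 1 + l).choose l := by
        rw [← Nat.choose_symm_of_eq_add (n := i + 1 + l) (a := i + 1) (b := l) rfl]
        congr 1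
        omega
      rw [e1, e2] at this
      have h5 : (((i + l).succ * (i + l).choose l : ℕ) : ℚ) =
          (((i + 1 + l).choose l * i.succ : ℕ) : ℚ) := by rw [this]
      push_cast at h5
      linarith
    have hi : ((i : ℚ) + 1) ≠ 0 := by positivity
    have hil : ((i : ℚ) + l + 1) ≠ 0 := by positivity
    push_cast at h1
    have h6 : bc k (i + 1 + l) = bc k (i + l + 1) := by
      congr 1
      omega
    rw [h6]
    rw [h3] at h2
    -- multiply by (i+1)*(i+l+1)
    have key : bc k (i + l + 1) * ((i + 1 + l).choose l : ℚ) * (((i : ℚ) + 1) * ((i : ℚ) + l + 1)) =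
        bc k l * bc (k - l) (i + 1) * (((i : ℚ) + 1) * ((i : ℚ) + l + 1)) := by
      calc bc k (i + l + 1) * ((i + 1 + l).choose l : ℚ) * (((i : ℚ) + 1) * ((i : ℚ) + l + 1))
          = (bc k (i + l + 1) * ((i : ℚ) + l + 1)) * (((i + 1 + l).choose l : ℚ) * ((i : ℚ) + 1)) := by
            ring
        _ = (bc k (i + l) * ((k : ℚ) + 1 / 2 - ((i : ℚ) + l))) *
            (((i + l).choose l : ℚ) * ((i : ℚ) + l + 1)) := by rw [h1, h4]
        _ = (bc k (i + l) * ((i + l).choose l : ℚ)) * ((k : ℚ) + 1 / 2 - ((i : ℚ) + l)) *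
            ((i : ℚ) + l + 1) := by ring
        _ = bc k l * (bc (k - l) i * ((k : ℚ) - l + 1 / 2 - i)) * ((i : ℚ) + l + 1) := by
            rw [ih]; ring
        _ = bc k l * (bc (k - l) (i + 1) * ((i : ℚ) + 1)) * ((i : ℚ) + l + 1) := by rw [h2]
        _ = _ := by ring
    exact mul_right_cancel₀ (mul_ne_zero hi hil) key

/-- Pascal's rule -/
private theorem bc_pascal_SUM (s i : ℕ) : bc (s + 1) (i + 1) = bc s (i + 1) + bc s i := by
  have hP : ∀ i : ℕ, bc (s + 1) (i + 1) * ((i : ℚ) + 1) = bc s i * ((s : ℚ) + 3 / 2) := by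
    intro i
    induction i with
    | zero =>
      have := bc_succ_SUM (s + 1) 0
      rw [bc_zero_SUM] at this ⊢
      push_cast at this ⊢
      linarith
    | succ i ih =>
      have h1 := bc_succ_SUM (s + 1) (i + 1)
      have h2 := bc_succ_SUM s i
      have hi : ((i : ℚ) + 1) ≠ 0 := by positivity
      push_cast at h1 ⊢
      have key : bc (s + 1) (i + 1 + 1) * ((i : ℚ) + 1 + 1) * ((i : ℚ) + 1) =
          bc s (i + 1) * ((s : ℚ) + 3 / 2) * ((i : ℚ) + 1) := by
        rw [h1]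
        calc bc (s + 1) (i + 1) * ((s : ℚ) + 1 + 1 / 2 - ((i : ℚ) + 1)) * ((i : ℚ) + 1)
            = (bc (s + 1) (i + 1) * ((i : ℚ) + 1)) * ((s : ℚ) + 1 + 1 / 2 - ((i : ℚ) + 1)) := by
              ring
          _ = bc s i * ((s : ℚ) + 3 / 2) * ((s : ℚ) + 1 + 1 / 2 - ((i : ℚ) + 1)) := by rw [ih]
          _ = (bc s i * ((s : ℚ) + 1 / 2 - i)) * ((s : ℚ) + 3 / 2) := by ring
          _ = (bc s (i + 1) * ((i : ℚ) + 1)) * ((s : ℚ) + 3 / 2) := by rw [h2]
          _ = _ := by ring
      exact mul_right_cancel₀ hi key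
  have h1 := hP i
  have h2 := bc_succ_SUM s i
  have hi : ((i : ℚ) + 1) ≠ 0 := by positivity
  have key : bc (s + 1) (i + 1) * ((i : ℚ) + 1) = (bc s (i + 1) + bc s i) * ((i : ℚ) + 1) := by
    rw [h1, add_mul, h2]
    ring
  exact mul_right_cancel₀ hi key

end Bc

section Main

variable {K : Type} [NormedField K] [CompleteSpace K] [CharZero K]

private theorem coeff_shift_pow_SUM (α : K) (l m : ℕ) :
    coeff l ((X + C α : K⟦X⟧) ^ m) = α ^ (m - l) * (m.choose l : K) := by
  have h := Polynomial.coeff_X_add_C_pow α m l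
  have h2 : ((Polynomial.X + Polynomial.C α : K[X]) ^ m : K[X]).toPowerSeries = (X + C α) ^ m := by
    simp
  rw [← h2, Polynomial.coeff_coe, h]

private theorem summable_SUM (hb : ∀ k l : ℕ, ‖((bc k l : ℚ) : K)‖ ≤ 2 ^ k * 4 ^ l) (s : ℕ) (y : K)
    (hy : ‖y‖ ≤ 1 / 64) : Summable (fun i : ℕ => ((bc s i : ℚ) : K) * y ^ i) := by
  refine Summable.of_norm_bounded (g := fun i : ℕ => 2 ^ s * (1 / 16 : ℝ) ^ i) ?_ ?_
  · exact (summable_geometric_of_lt_one (by norm_num) (by norm_num)).mul_left _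
  · intro i
    rw [norm_mul, norm_pow]
    calc ‖((bc s i : ℚ) : K)‖ * ‖y‖ ^ i ≤ (2 ^ s * 4 ^ i) * (1 / 64) ^ i := by
          refine mul_le_mul (hb s i) (pow_le_pow_left₀ (norm_nonneg _) hy i)
            (by positivity) (by positivity)
      _ = 2 ^ s * (1 / 16 : ℝ) ^ i := by
          rw [mul_assoc, ← mul_pow]
          norm_num

private theorem hasSum_bin_SUM (hb : ∀ k l : ℕ, ‖((bc k l : ℚ) : K)‖ ≤ 2 ^ k * 4 ^ l) (s : ℕ)
    (y : K) (hy : ‖y‖ ≤ 1 / 64) :
    HasSum (fun i : ℕ => ((bc s i : ℚ) : K) * y ^ i) (th y * (1 + y) ^ s) := by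
  induction s with
  | zero =>
    rw [pow_zero, mul_one]
    exact (summable_SUM hb 0 y hy).hasSum
  | succ s ih =>
    -- shifted series
    have h1 : HasSum (fun i : ℕ => ((bc s i : ℚ) : K) * y ^ (i + 1)) (th y * (1 + y) ^ s * y) := by
      have := ih.mul_right y
      refine (this.congr_fun ?_)
      intro i
      rw [pow_succ]
      ring
    have h2 : HasSum (fun i : ℕ => ((bc s (i + 1) : ℚ) : K) * y ^ (i + 1))
        (th y * (1 + y) ^ s - 1) := by
      have := (hasSum_nat_add_iff' (f := fun i : ℕ => ((bc s i : ℚ) : K) * y ^ i) 1).2 ih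
      simpa [bc_zero_SUM] using this
    have h3 := h2.add h1
    have h4 : HasSum (fun i : ℕ => ((bc (s + 1) (i + 1) : ℚ) : K) * y ^ (i + 1))
        (th y * (1 + y) ^ (s + 1) - 1) := by
      have e : th y * (1 + y) ^ s - 1 + th y * (1 + y) ^ s * y = th y * (1 + y) ^ (s + 1) - 1 := by
        ring
      rw [← e]
      refine h3.congr_fun ?_
      intro i
      rw [bc_pascal_SUM]
      push_cast
      ring
    have h5 := (hasSum_nat_add_iff (f := fun i : ℕ => ((bc (s + 1) i : ℚ) : K) * y ^ i) 1).1 h4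
    simpa [bc_zero_SUM] using h5

private theorem one_add_ne_SUM (y : K) (hy : ‖y‖ ≤ 1 / 64) : 1 + y ≠ 0 := by
  intro h
  have h1 : y = -1 := by linear_combination h
  rw [h1, norm_neg, norm_one] at hy
  norm_num at hy

private theorem hasSum_local_SUM (hb : ∀ k l : ℕ, ‖((bc k l : ℚ) : K)‖ ≤ 2 ^ k * 4 ^ l)
    (k l : ℕ) (hl : l ≤ k) (x α : K) (h : ‖α * x‖ ≤ 1 / 64) :
    HasSum (fun m : ℕ => ((bc k m : ℚ) : K) * x ^ m * coeff l ((X + C α : K⟦X⟧) ^ m))
      (th (α * x) * coeff l (G k x α)) := by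
  set f : ℕ → K := fun m => ((bc k m : ℚ) : K) * x ^ m * coeff l ((X + C α : K⟦X⟧) ^ m) with hf
  have hne : 1 + α * x ≠ 0 := one_add_ne_SUM _ h
  have h0 : ∑ i ∈ range l, f i = 0 := by
    refine Finset.sum_eq_zero (fun i hi => ?_)
    rw [hf]
    simp only
    rw [coeff_shift_pow_SUM, Nat.choose_eq_zero_of_lt (Finset.mem_range.1 hi)]
    simp
  have h1 : HasSum (fun i => f (i + l))
      (((bc k l : ℚ) : K) * x ^ l * (th (α * x) * (1 + α * x) ^ (k - l))) := by
    have h2 := (hasSum_bin_SUM hb (k - l) (α * x) h).mul_left (((bc k l : ℚ) : K) * x ^ l)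
    refine h2.congr_fun ?_
    intro i
    have hc := bc_mul_SUM k l i hl
    have hc' : ((bc k (i + l) : ℚ) : K) * ((i + l).choose l : K) =
        ((bc k l : ℚ) : K) * ((bc (k - l) i : ℚ) : K) := by
      have := congrArg (fun q : ℚ => (q : K)) hc
      simpa using this
    have hfi : f (i + l) = ((bc k (i + l) : ℚ) : K) * x ^ (i + l) *
        (α ^ (i + l - l) * ((i + l).choose l : K)) := by
      rw [hf]
      simp only
      rw [coeff_shift_pow_SUM]
    rw [hfi, Nat.add_sub_cancel, pow_add, mul_pow]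
    linear_combination (x ^ i * x ^ l * α ^ i) * hc'
  have h2 := (hasSum_nat_add_iff l).1 h1
  rw [h0, add_zero] at h2
  have e1 : (1 + α * x) ^ (k - l) * (1 + α * x) ^ l = (1 + α * x) ^ k := by
    rw [← pow_add, Nat.sub_add_cancel hl]
  have e2 : th (α * x) * coeff l (G k x α) =
      ((bc k l : ℚ) : K) * x ^ l * (th (α * x) * (1 + α * x) ^ (k - l)) := by
    rw [G, coeff_mk, div_pow, ← e1]
    have hne' : (1 + α * x) ^ l ≠ 0 := pow_ne_zero _ hne
    generalize (1 + α * x) ^ (k - l) = u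
    generalize (1 + α * x) ^ l = w at hne'
    generalize ((bc k l : ℚ) : K) = c
    field_simp
  rw [e2]
  exact h2

end Main

theorem hSUM : ST_SUM := by
  intro K _ _ _ hb a k r x h
  have h1 : ∀ j, HasSum (fun m : ℕ => ((bc k m : ℚ) : K) * x ^ m *
      coeff k ((X + C (a j)) ^ (m + r) * UU a j ^ (k + 1))) (th (a j * x) * psi a k x j r) := by
    intro j
    set F : K⟦X⟧ := (X + C (a j)) ^ r * UU a j ^ (k + 1) with hF
    have e1 : th (a j * x) * psi a k x j r =
        ∑ p ∈ HasAntidiagonal.antidiagonal k,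
          (th (a j * x) * coeff p.1 (G k x (a j))) * coeff p.2 F := by
      rw [psi, mul_assoc (G k x (a j)), coeff_mul, Finset.mul_sum]
      exact Finset.sum_congr rfl (fun p _ => by rw [hF]; ring)
    have e2 : (fun m : ℕ => ((bc k m : ℚ) : K) * x ^ m *
        coeff k ((X + C (a j)) ^ (m + r) * UU a j ^ (k + 1))) =
        fun m => ∑ p ∈ HasAntidiagonal.antidiagonal k,
          (((bc k m : ℚ) : K) * x ^ m * coeff p.1 ((X + C (a j) : K⟦X⟧) ^ m))
            * coeff p.2 F := by
      funext m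
      have e3 : (X + C (a j)) ^ (m + r) * UU a j ^ (k + 1) = (X + C (a j)) ^ m * F := by
        rw [hF, pow_add, mul_assoc]
      rw [e3, coeff_mul, Finset.mul_sum]
      exact Finset.sum_congr rfl (fun p _ => by ring)
    rw [e1, e2]
    refine hasSum_sum (fun p hp => (hasSum_local_SUM hb k p.1 ?_ x (a j) (h j)).mul_right _)
    have := HasAntidiagonal.mem_antidiagonal.1 hp
    omega
  have h2 := hasSum_sum (fun j (_ : j ∈ (Finset.univ : Finset (Fin 3))) => h1 j)
  have h3 : (fun m : ℕ => ((bc k m : ℚ) : K) * x ^ m * rho a k (m + r)) = fun m => ∑ j,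
        ((bc k m : ℚ) : K) * x ^ m * coeff k ((X + C (a j)) ^ (m + r) * UU a j ^ (k + 1)) := by
    funext m
    rw [rho, Finset.mul_sum]
  rw [h3]
  exact h2

end Pool.Agent.Helper3.DW
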