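import Mathlib
import Pool.Agent.Helper3.DW.St

set_option autoImplicit false

namespace Pool.Agent.Helper3.DW

open Finset

private theorem choose_succ_TH (r : ℚ) (n : ℕ) :
    ((n : ℚ) + 1) * Ring.choose r (n + 1) = (r - n) * Ring.choose r n := by
  rw [Ring.choose_eq_smul, Ring.choose_eq_smul, descPochhammer_succ_right, Polynomial.smeval_mul,
    Nat.factorial_succ, Polynomial.smeval_sub, Polynomial.smeval_X, Polynomial.smeval_natCast]
  simp only [smul_eq_mul, pow_one, pow_zero, nsmul_eq_mul, mul_one]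
  have h1 : ((n : ℚ) + 1) ≠ 0 := by positivity
  have h2 : ((n.factorial : ℕ) : ℚ) ≠ 0 := by exact_mod_cast n.factorial_ne_zero
  push_cast
  field_simp

private theorem bc_TH (l : ℕ) : bc 0 l = Ring.choose (1 / 2 : ℚ) l := by
  induction l with
  | zero => simp [bc]
  | succ n ih =>
    have h1 := choose_succ_TH (1 / 2) n
    rw [← ih] at h1
    have h2 : bc 0 (n + 1) * ((n : ℚ) + 1) = (1 / 2 - n) * bc 0 n := by
      unfold bc
      rw [prod_range_succ, Nat.factorial_succ]
      have h1 : ((n : ℚ) + 1) ≠ 0 := by positivity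
      have h2 : ((n.factorial : ℕ) : ℚ) ≠ 0 := by exact_mod_cast n.factorial_ne_zero
      push_cast
      field_simp
      ring
    have h3 : ((n : ℚ) + 1) ≠ 0 := by positivity
    apply mul_left_cancel₀ h3
    rw [h1, ← h2]
    ring

private theorem conv_TH (n : ℕ) :
    ∑ p ∈ antidiagonal n, bc 0 p.1 * bc 0 p.2 = if n ≤ 1 then 1 else 0 := by
  have h1 := Ring.add_choose_eq (r := (1 / 2 : ℚ)) (s := (1 / 2 : ℚ)) n (Commute.all _ _)
  have h2 : (1 / 2 : ℚ) + 1 / 2 = ((1 : ℕ) : ℚ) := by norm_num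
  rw [h2, Ring.choose_natCast] at h1
  rw [sum_congr rfl fun p _ => by rw [bc_TH, bc_TH], ← h1]
  rcases n with _ | _ | n
  · simp
  · simp
  · simp

theorem hTH : ST_TH := by
  intro K _ _ _ hb y hy
  set f : ℕ → K := fun l => ((bc 0 l : ℚ) : K) * y ^ l with hf
  have hy0 := norm_nonneg y
  have hfb : ∀ l, ‖f l‖ ≤ (4 * ‖y‖) ^ l := by
    intro l
    rw [hf]
    simp only
    rw [norm_mul, norm_pow, mul_pow]
    have := hb 0 l
    rw [pow_zero, one_mul] at this
    exact mul_le_mul_of_nonneg_right this (by positivity)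
  have hlt : 4 * ‖y‖ < 1 := by linarith
  have hgs : Summable fun l : ℕ => (4 * ‖y‖) ^ l :=
    summable_geometric_of_lt_one (by positivity) hlt
  have hsn : Summable fun l => ‖f l‖ := Summable.of_nonneg_of_le (fun _ => norm_nonneg _) hfb hgs
  have hs : Summable f := hsn.of_norm
  have hth : th y = ∑' l, f l := rfl
  constructor
  · rw [hth, pow_two, tsum_mul_tsum_eq_tsum_sum_antidiagonal_of_summable_norm hsn hsn]
    have h1 : ∀ n, ∑ kl ∈ antidiagonal n, f kl.1 * f kl.2 = if n ≤ 1 then y ^ n else 0 := by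
      intro n
      have h2 : ∑ kl ∈ antidiagonal n, f kl.1 * f kl.2 =
          (((∑ p ∈ antidiagonal n, bc 0 p.1 * bc 0 p.2 : ℚ)) : K) * y ^ n := by
        rw [Rat.cast_sum, sum_mul]
        refine sum_congr rfl fun p hp => ?_
        rw [hf]
        simp only
        rw [← mem_antidiagonal.1 hp, pow_add, Rat.cast_mul]
        ring
      rw [h2, conv_TH]
      split_ifs <;> simp
    rw [tsum_congr h1]
    rw [tsum_eq_sum (s := range 2) (fun n hn => by
      rw [if_neg]
      intro h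
      apply hn
      rw [mem_range]
      omega)]
    simp [sum_range_succ]
  · have h0 : f 0 = 1 := by simp [hf, bc]
    have hz : th y - 1 = ∑' l, f (l + 1) := by
      rw [hth, hs.tsum_eq_zero_add, h0, add_sub_cancel_left]
    rw [hz]
    have h1 : Summable fun l : ℕ => ‖f (l + 1)‖ :=
      (summable_nat_add_iff (f := fun l => ‖f l‖) 1).2 hsn
    have h2 : Summable fun l : ℕ => (4 * ‖y‖) ^ (l + 1) :=
      (summable_nat_add_iff (f := fun l : ℕ => (4 * ‖y‖) ^ l) 1).2 hgs
    have h3 : ‖∑' l, f (l + 1)‖ ≤ ∑' l, ‖f (l + 1)‖ := norm_tsum_le_tsum_norm h1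
    have h4 : ∑' l, ‖f (l + 1)‖ ≤ ∑' l : ℕ, (4 * ‖y‖) ^ (l + 1) :=
      Summable.tsum_le_tsum (fun l => hfb (l + 1)) h1 h2
    refine (h3.trans h4).trans ?_
    calc ∑' l : ℕ, (4 * ‖y‖) ^ (l + 1)
      _ = 4 * ‖y‖ * (1 - 4 * ‖y‖)⁻¹ := by
        have h5 : ∀ l : ℕ, (4 * ‖y‖) ^ (l + 1) = 4 * ‖y‖ * (4 * ‖y‖) ^ l := fun l => pow_succ' _ _
        rw [tsum_congr h5, tsum_mul_left, tsum_geometric_of_lt_one (by positivity) hlt]
      _ ≤ 4 * ‖y‖ * 2 := by
        apply mul_le_mul_of_nonneg_left _ (by positivity)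
        rw [inv_le_comm₀ (by linarith) (by norm_num)]
        linarith
      _ = 8 * ‖y‖ := by ring

end Pool.Agent.Helper3.DW
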