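import Mathlib
import Pool.Agent.Helper3.DW.M_BC
import Pool.Agent.Helper3.DW.M_MAP
import Pool.Agent.Helper3.DW.M_INT
import Pool.Agent.Helper3.DW.M_NV
import Pool.Agent.Helper3.DW.M_RZ
import Pool.Agent.Helper3.DW.M_PSI
import Pool.Agent.Helper3.DW.M_RHO
import Pool.Agent.Helper3.DW.M_TH
import Pool.Agent.Helper3.DW.M_SUM
import Pool.Agent.Helper3.DW.M_REM
import Pool.Agent.Helper3.DW.M_LP
import Pool.Agent.Helper3.DW.M_DET
import Pool.Agent.Helper3.DW.M_DNZ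
import Pool.Agent.Helper3.DW.M_SGN
import Pool.Agent.Helper3.DW.M_SLP
import Pool.Agent.Helper3.DW.M_PF
import Pool.Agent.Helper3.DW.M_LLI
import Pool.Agent.Helper3.DW.M_LVM
import Pool.Agent.Helper3.DW.M_LVK
import Pool.Agent.Helper3.DW.M_LVP
import Pool.Agent.Helper3.DW.M_GAP
import Pool.Agent.Helper3.DW.M_RNG
import Pool.Agent.Helper3.DW.M_SML
import Pool.Agent.Helper3.DW.M_PRF
import Pool.Agent.Helper3.DW.M_SGC
import Pool.Agent.Helper3.DW.M_RG2
import Pool.Agent.Helper3.DW.M_RG3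
import Pool.Agent.Helper3.DW.M_CNT
import Pool.Agent.Helper3.DW.M_FINX

set_option autoImplicit false

namespace Pool.Agent.Helper3.DW

/-- the theorem -/
theorem final : ST_FINX :=
  hFINX hSMLX hPRFX
    (hCNT
      (hGAP hPF (hLLI (hINT hBC hMAP) (hNV hBC hMAP)) (hLVM hBC hPSI hMAP)
        (hLVP (hLVK hBC (hLP (hREM hSUM hRHO (hRZ hMAP) hMAP) hPSI hTH) hMAP) hSLP hTH hBC))
      (hSGC hSGN)
      (hRG3 (hRG2 (hRNG hPF hDET hDNZ) (hSGC hSGN) hSGN)))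

end Pool.Agent.Helper3.DW
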