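import Mathlib
import Pool.Agent.Helper3.DW.St
import Pool.Agent.Helper15.Cheb

set_option autoImplicit false

/-! # Module DNZ of project DW -/

namespace Pool.Agent.Helper3.DW

open Finset

private theorem det_eq_DNZ (z : Fin 3 → Fin 3 → ℤ) :
    (Matrix.of (fun i j => ((z i j : ℤ) : ℝ))).det = ((det3 z : ℤ) : ℝ) := by
  rw [Matrix.det_fin_three, det3]
  simp only [Matrix.of_apply]
  push_cast
  ring

theorem hDNZ : ST_DNZ := by
  intro a x n z hn ha hx hap hxp hzp hz hdet
  have hM : (Matrix.of (fun i j => ((z i j : ℤ) : ℝ))).det = 0 := by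
    rw [det_eq_DNZ, hdet, Int.cast_zero]
  obtain ⟨c, hc0, hc⟩ := Matrix.exists_vecMul_eq_zero_iff.2 hM
  have hc' : ∀ j, ∑ i, c i * ((z i j : ℤ) : ℝ) = 0 := by
    intro j
    have := congrFun hc j
    simpa [Matrix.vecMul, dotProduct] using this
  have hap' : ∀ i, (0 : ℝ) < ((a i : ℤ) : ℝ) := fun i => by exact_mod_cast hap i
  have hn' : (n : ℝ) ≠ 0 := by exact_mod_cast hn
  have hβ : Set.InjOn (fun i : Fin 3 => (n : ℝ) / ((a i : ℤ) : ℝ)) (univ : Finset (Fin 3)) := by
    intro i _ i' _ hii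
    simp only at hii
    rw [div_eq_div_iff (hap' i).ne' (hap' i').ne'] at hii
    have := mul_left_cancel₀ hn' hii
    exact ha (by exact_mod_cast this.symm)
  obtain ⟨i0, hi0⟩ : ∃ i, c i ≠ 0 := by
    by_contra hcon
    push Not at hcon
    exact hc0 (funext hcon)
  have hval : ∀ i j, ((x j : ℤ) : ℝ) + (n : ℝ) / ((a i : ℤ) : ℝ)
      = ((z i j : ℤ) : ℝ) ^ 2 / ((a i : ℤ) : ℝ) := by
    intro i j
    have h1 : ((z i j : ℤ) : ℝ) ^ 2 = ((a i : ℤ) : ℝ) * ((x j : ℤ) : ℝ) + (n : ℝ) := by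
      exact_mod_cast hz i j
    have h2 := (hap' i).ne'
    rw [h1]
    field_simp
  have hzp' : ∀ i j, (0 : ℝ) < ((z i j : ℤ) : ℝ) := fun i j => by exact_mod_cast hzp i j
  have hch := Pool.Agent.Helper15.cheb 3 (univ : Finset (Fin 3)) (by simp)
    (fun i => (n : ℝ) / ((a i : ℤ) : ℝ)) hβ (fun i => c i * Real.sqrt ((a i : ℤ) : ℝ)) (1 / 2)
    (by
      intro j hj
      have h2 : (1 : ℝ) = 2 * j := by linarith
      have h3 : (1 : ℕ) = 2 * j := by exact_mod_cast h2
      omega)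
    ⟨i0, mem_univ _, mul_ne_zero hi0 (Real.sqrt_ne_zero'.2 (hap' i0))⟩
    ((univ : Finset (Fin 3)).image (fun j => ((x j : ℤ) : ℝ)))
    (by
      intro w hw i _
      obtain ⟨j, _, rfl⟩ := Finset.mem_image.1 hw
      have h1 := hap' i
      have h2 := hzp' i j
      simp only [hval i j]
      positivity)
    (by
      intro w hw
      obtain ⟨j, _, rfl⟩ := Finset.mem_image.1 hw
      rw [← hc' j]
      refine Finset.sum_congr rfl (fun i _ => ?_)
      have h1 := hap' i
      have h2 := hzp' i j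
      simp only [hval i j]
      rw [← Real.sqrt_eq_rpow, mul_assoc, ← Real.sqrt_mul h1.le, mul_div_cancel₀ _ h1.ne',
        Real.sqrt_sq h2.le])
  rw [Finset.card_image_of_injective _ (fun j j' h => hx (by exact_mod_cast h))] at hch
  simp at hch

end Pool.Agent.Helper3.DW
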