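import Mathlib
import Pool.Agent.Helper3.DW.St2

set_option autoImplicit false

/-! # Project DW: module FIN -/

namespace Pool.Agent.Helper3.DW

open Finset

/-- the bound for positive tuples -/
private lemma pos_FIN (h2 : ST_PRF) (h3 : ST_CNT) (r : ℕ) (F : ℕ)
    (hF : ∀ n : ℤ, n ≠ 0 → ∀ P : Finset ℤ, (∀ a ∈ P, 0 < a) →
      (∀ a ∈ P, HH n a ≤ 1000 * ((r + 1 : ℕ) : ℝ)) → P.card ≤ F) :
    ∃ K : ℕ, ∀ n : ℤ, n ≠ 0 → n.natAbs.primeFactors.card ≤ r → ∀ P : Finset ℤ,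
      (∀ a ∈ P, 0 < a) → (∀ a ∈ P, ∀ b ∈ P, a ≠ b → IsSquare (a * b + n)) → P.card ≤ K := by
  obtain ⟨Kc, hKc⟩ := h2 (r + 1) (by omega)
  refine ⟨F + Kc * (3 + 24 * (3 + 2 ^ (9 * (r + 1) + 1)) +
    2 ^ (9 * (r + 1)) * (15 * (3 + 2 ^ (9 * (r + 1) + 1)))), ?_⟩
  intro n hn hr P hP hsq
  classical
  have hPl : (Pl n).card ≤ r + 1 := by
    unfold Pl
    exact (card_insert_le _ _).trans (by omega)
  have hR1 : (1 : ℝ) ≤ ((r + 1 : ℕ) : ℝ) := by
    exact_mod_cast Nat.succ_le_succ (Nat.zero_le r)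
  set P1 := P.filter (fun a => HH n a ≤ 1000 * ((r + 1 : ℕ) : ℝ)) with hP1
  set P2 := P.filter (fun a => ¬ HH n a ≤ 1000 * ((r + 1 : ℕ) : ℝ)) with hP2
  have hc : P1.card + P2.card = P.card := by
    rw [hP1, hP2]
    exact card_filter_add_card_filter_not _
  have h1c : P1.card ≤ F := by
    refine hF n hn P1 (fun a ha => hP a (mem_filter.1 ha).1) (fun a ha => (mem_filter.1 ha).2)
  have hbig : ∀ a ∈ P2, 1000 * ((r + 1 : ℕ) : ℝ) ≤ HH n a := fun a ha =>
    (not_le.1 (mem_filter.1 ha).2).le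
  obtain ⟨P', hsub, hcard, V, w, hV, hw, hw1, hw2, hcl⟩ := hKc n hn hPl P2 (fun a ha => by
    have := hbig a ha
    linarith)
  have hCls : Cls n (r + 1) V w P' := by
    refine ⟨hn, by omega, hPl, hV, hw, hw1, hw2, ?_, ?_, ?_, hcl⟩
    · intro a ha
      exact hP a (mem_filter.1 (hsub ha)).1
    · intro a ha x hx hax
      exact hsq a (mem_filter.1 (hsub ha)).1 x (mem_filter.1 (hsub hx)).1 hax
    · intro a ha
      exact hbig a (hsub ha)
  have h2c : P2.card ≤ Kc * (3 + 24 * (3 + 2 ^ (9 * (r + 1) + 1)) +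
      2 ^ (9 * (r + 1)) * (15 * (3 + 2 ^ (9 * (r + 1) + 1)))) :=
    hcard.trans (Nat.mul_le_mul_left _ (h3 n (r + 1) V w P' hCls))
  rw [← hc]
  exact Nat.add_le_add h1c h2c

theorem hFIN (h1 : ST_SML) (h2 : ST_PRF) (h3 : ST_CNT) : ST_FIN := by
  intro r
  obtain ⟨F, hF⟩ := h1 (1000 * ((r + 1 : ℕ) : ℝ))
  obtain ⟨K, hK⟩ := pos_FIN h2 h3 r F hF
  refine ⟨K + K, ?_⟩
  intro n hn hr S hS hsq
  classical
  set S1 := S.filter (fun a => 0 < a) with hS1
  set S2 := S.filter (fun a => ¬ 0 < a) with hS2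
  have hc : S1.card + S2.card = S.card := by
    rw [hS1, hS2]
    exact card_filter_add_card_filter_not _
  have h1c : S1.card ≤ K := by
    refine hK n hn hr S1 (fun a ha => (mem_filter.1 ha).2) ?_
    intro a ha b hb hab
    exact hsq a (mem_filter.1 ha).1 b (mem_filter.1 hb).1 hab
  have h2c : S2.card ≤ K := by
    have himg : (S2.image (fun a => -a)).card = S2.card :=
      card_image_of_injective _ neg_injective
    rw [← himg]
    refine hK n hn hr _ ?_ ?_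
    · intro a ha
      obtain ⟨b, hb, rfl⟩ := mem_image.1 ha
      have h1 := (mem_filter.1 hb).2
      have h2 := hS b (mem_filter.1 hb).1
      omega
    · intro a ha b hb hab
      obtain ⟨a', ha', rfl⟩ := mem_image.1 ha
      obtain ⟨b', hb', rfl⟩ := mem_image.1 hb
      have h := hsq a' (mem_filter.1 ha').1 b' (mem_filter.1 hb').1 (fun h => hab (by rw [h]))
      have he : -a' * -b' + n = a' * b' + n := by ring
      rw [he]
      exact h
  rw [← hc]
  exact Nat.add_le_add h1c h2c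

end Pool.Agent.Helper3.DW
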