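import Mathlib
import Pool.Agent.Helper3.DW.St2

/-!
# DW, module RG3: several ranges of heights
-/

set_option autoImplicit false

namespace Pool.Agent.Helper3.DW

private theorem cls_sub_RG3 {n : ℤ} {R : ℕ} {V : Finset ℕ} {w : ℕ → ℝ} {P Q : Finset ℤ}
    (h : Cls n R V w P) (hQ : Q ⊆ P) : Cls n R V w Q := by
  obtain ⟨h1, h2, h3, h4, h5, h6, h7, h8, h9, h10, h11⟩ := h
  exact ⟨h1, h2, h3, h4, h5, h6, h7, fun a ha => h8 a (hQ ha),
    fun a ha x hx => h9 a (hQ ha) x (hQ hx), fun a ha => h10 a (hQ ha), fun a ha => h11 a (hQ ha)⟩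

theorem hRG3 (h1 : ST_RG2) : ST_RG3 := by
  intro n R V w P hP m t ht
  induction t, ht using Nat.le_induction generalizing P with
  | base =>
    intro hm hH
    rw [one_mul]
    refine h1 n R V w P hP m hm fun a ha => ?_
    have h2 := hH a ha
    rw [pow_one] at h2
    exact h2
  | succ t ht ih =>
    intro hm hH
    have hm0 : (0 : ℝ) ≤ m := le_trans (by positivity) hm
    have hmm : m ≤ (5 / 4 : ℝ) ^ t * m := by
      have h3 : (1 : ℝ) ≤ (5 / 4 : ℝ) ^ t := one_le_pow₀ (by norm_num)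
      nlinarith
    have hc := Finset.card_filter_add_card_filter_not (s := P) (fun a => HH n a ≤ (5 / 4 : ℝ) ^ t * m)
    have hA := ih (P.filter fun a => HH n a ≤ (5 / 4 : ℝ) ^ t * m)
      (cls_sub_RG3 hP (Finset.filter_subset _ _)) hm fun a ha => by
        rw [Finset.mem_filter] at ha
        exact ⟨(hH a ha.1).1, ha.2⟩
    have hB := h1 n R V w (P.filter fun a => ¬ HH n a ≤ (5 / 4 : ℝ) ^ t * m)
      (cls_sub_RG3 hP (Finset.filter_subset _ _)) ((5 / 4 : ℝ) ^ t * m) (hm.trans hmm) fun a ha => by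
        rw [Finset.mem_filter, not_le] at ha
        have h4 := (hH a ha.1).2
        rw [pow_succ] at h4
        exact ⟨ha.2.le, by linarith⟩
    rw [add_mul, one_mul]
    omega

end Pool.Agent.Helper3.DW
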